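import Pool.Agent.Y913.Sm.Exc

/-!
The counting theorems for integers with few prime factors, in terms of abc triples.
-/

set_option autoImplicit false

namespace Pool.Agent.Y913.Sm

open Finset Pool.Agent.Y913

/-- `m` is `d * w` with `d` composed of at most `n` primes of `S` and `w ≤ W` -/
def DefP (n : ℕ) (S : Finset ℕ) (W : ℝ) (m : ℕ) : Prop :=
  ∃ d w : ℕ, m = d * w ∧ Fs n S d ∧ (w : ℝ) ≤ W

/-- the exceptional abc triples -/
def AbcP (n : ℕ) (δ K X : ℝ) (S : Finset ℕ) (q : ℕ × ℕ) : Prop :=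
  0 < q.1 ∧ 0 < q.2 ∧ Nat.Coprime q.1 q.2 ∧ X ^ K ≤ ((q.1 + q.2 : ℕ) : ℝ) ∧
    ((Fp n X q.2 ∧ Fp n X (q.1 + q.2) ∧ DefP n S (((q.1 + q.2 : ℕ) : ℝ) ^ (1 - δ)) q.1) ∨
     (Fp n X q.1 ∧ Fp n X (q.1 + q.2) ∧ DefP n S (((q.1 + q.2 : ℕ) : ℝ) ^ (1 - δ)) q.2) ∨
     (Fp n X q.1 ∧ Fp n X q.2 ∧ DefP n S (((q.1 + q.2 : ℕ) : ℝ) ^ (1 - δ)) (q.1 + q.2)))

lemma abcp_small {n : ℕ} {δ K X : ℝ} {S : Finset ℕ} (hX : X < 2) (Q : Finset (ℕ × ℕ))
    (hQ : ∀ q ∈ Q, AbcP n δ K X S q) : Q.card ≤ 1 := by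
  have hsub : Q ⊆ {((1 : ℕ), (1 : ℕ))} := by
    rintro ⟨a, b⟩ hq
    obtain ⟨h1, h2, h3, h4, h5⟩ := hQ _ hq
    simp only at h1 h2 h3 h4 h5
    rw [Finset.mem_singleton]
    rcases h5 with ⟨h6, h7, _⟩ | ⟨h6, h7, _⟩ | ⟨h6, h7, _⟩
    · have e6 := fp_lt_two hX h6
      have e7 := fp_lt_two hX h7
      omega
    · have e6 := fp_lt_two hX h6
      have e7 := fp_lt_two hX h7
      omega
    · rw [fp_lt_two hX h6, fp_lt_two hX h7]
  have hc := Finset.card_le_card hsub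
  rwa [Finset.card_singleton] at hc

theorem abcp_general (n : ℕ) (δ K X N : ℝ) (S : Finset ℕ) (hδ : 0 < δ) (hK0 : 0 < K) (hX2 : 2 ≤ X)
    (Rv : ℕ → Prop)
    (h : ∀ Q : Finset (ℕ × ℕ), (∀ q ∈ Q, ExcP n (δ / 2) K X S q ∧ Rv q.2) → (Q.card : ℝ) ≤ N)
    (Q : Finset (ℕ × ℕ)) (hQ : ∀ q ∈ Q, AbcP n δ (K + 1 + 2 / δ) X S q ∧
      ∀ v : ℕ, q.1 + q.2 ≤ 2 * v → Rv v) : (Q.card : ℝ) ≤ 4 * N := by
  classical
  have hX0 : 0 < X := by linarith
  have hX : 1 ≤ X := by linarith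
  let f1 : ℕ × ℕ → ℕ × ℕ := fun q => (q.2, q.1 + q.2)
  let f2 : ℕ × ℕ → ℕ × ℕ := fun q => (q.1, q.1 + q.2)
  let Q1 := Q.filter (fun q => ExcP n (δ / 2) K X S (f1 q) ∧ Rv (f1 q).2)
  let Q2 := Q.filter (fun q => ExcP n (δ / 2) K X S (f2 q) ∧ Rv (f2 q).2)
  let Q3 := Q.filter (fun q => ExcP n (δ / 2) K X S q ∧ Rv q.2)
  let Q4 := Q.filter (fun q => ExcP n (δ / 2) K X S q.swap ∧ Rv q.swap.2)
  have hcov : Q ⊆ Q1 ∪ Q2 ∪ Q3 ∪ Q4 := by
    rintro ⟨a, b⟩ hq
    obtain ⟨⟨h1, h2, h3, h4, h5⟩, hRv⟩ := hQ _ hq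
    simp only at h1 h2 h3 h4 h5 hRv
    have ha : (0 : ℝ) < a := by exact_mod_cast h1
    have hb : (0 : ℝ) < b := by exact_mod_cast h2
    have hc1 : (1 : ℝ) < ((a + b : ℕ) : ℝ) := by exact_mod_cast (by omega : 1 < a + b)
    have hKc : X ^ K ≤ ((a + b : ℕ) : ℝ) :=
      (Real.rpow_le_rpow_of_exponent_le hX (by
        have : 0 ≤ 2 / δ := by positivity
        linarith)).trans h4
    have hco1 : Nat.Coprime b (a + b) := by
      rw [Nat.coprime_add_self_right]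
      exact h3.symm
    have hco2 : Nat.Coprime a (a + b) := by
      rw [Nat.coprime_self_add_right]
      exact h3
    have hw : ∀ w : ℕ, (w : ℝ) ≤ ((a + b : ℕ) : ℝ) ^ (1 - δ) →
        (w : ℝ) ≤ ((a + b : ℕ) : ℝ) ^ (1 - δ / 2) := fun w hw =>
      hw.trans (Real.rpow_le_rpow_of_exponent_le hc1.le (by linarith))
    rcases h5 with ⟨h5, h5', d, w, h6, h7, h8⟩ | ⟨h5, h5', d, w, h6, h7, h8⟩ |
      ⟨h5, h5', d, w, h6, h7, h8⟩
    · simp only [Finset.mem_union]
      left; left; left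
      rw [Finset.mem_filter]
      refine ⟨hq, ⟨h2, by show b < a + b; omega, hco1, h5, h5', hKc, d, w, Or.inl ?_, h7,
        hw w h8⟩, hRv _ (by show a + b ≤ 2 * (a + b); omega)⟩
      show d * w = a + b - b
      omega
    · simp only [Finset.mem_union]
      left; left; right
      rw [Finset.mem_filter]
      refine ⟨hq, ⟨h1, by show a < a + b; omega, hco2, h5, h5', hKc, d, w, Or.inl ?_, h7,
        hw w h8⟩, hRv _ (by show a + b ≤ 2 * (a + b); omega)⟩
      show d * w = a + b - a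
      omega
    · have hne : a ≠ b := by
        rintro rfl
        have h9 : a = 1 := by rwa [Nat.coprime_self] at h3
        subst h9
        have h10 : X ^ (K + 1 + 2 / δ) ≤ 2 := by
          have := h4
          norm_num at this
          linarith
        have h11 : (2 : ℝ) < X ^ (K + 1 + 2 / δ) := by
          calc (2 : ℝ) = 2 ^ (1 : ℝ) := (Real.rpow_one 2).symm
            _ ≤ X ^ (1 : ℝ) := Real.rpow_le_rpow (by norm_num) hX2 (by norm_num)
            _ < X ^ (K + 1 + 2 / δ) := by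
                apply Real.rpow_lt_rpow_of_exponent_lt (by linarith)
                have : 0 < 2 / δ := by positivity
                linarith
        linarith
      have key : ∀ u v : ℕ, 0 < u → u < v → u + v = a + b → Nat.Coprime u v →
          Fp n X u → Fp n X v → ExcP n (δ / 2) K X S (u, v) := by
        intro u v hu huv hs hcop hnu hnv
        have hv : (0 : ℝ) < v := by exact_mod_cast (by omega : 0 < v)
        have hcv : ((a + b : ℕ) : ℝ) ≤ 2 * v := by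
          have : a + b ≤ 2 * v := by omega
          exact_mod_cast this
        have hbig : X ^ (K + 2 / δ) ≤ (v : ℝ) := by
          have e1 : 2 * X ^ (K + 2 / δ) ≤ X ^ (K + 1 + 2 / δ) := by
            have : X ^ (K + 1 + 2 / δ) = X * X ^ (K + 2 / δ) := by
              rw [show K + 1 + 2 / δ = 1 + (K + 2 / δ) by ring, Real.rpow_add hX0,
                Real.rpow_one]
            rw [this]
            gcongr
          linarith
        have hvK : X ^ K ≤ (v : ℝ) :=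
          (Real.rpow_le_rpow_of_exponent_le hX (by
            have : 0 ≤ 2 / δ := by positivity
            linarith)).trans hbig
        have hv2 : (2 : ℝ) ^ (2 / δ) ≤ v := by
          calc (2 : ℝ) ^ (2 / δ) ≤ X ^ (2 / δ) :=
                Real.rpow_le_rpow (by norm_num) hX2 (by positivity)
            _ ≤ X ^ (K + 2 / δ) := Real.rpow_le_rpow_of_exponent_le hX (by linarith)
            _ ≤ v := hbig
        have hv3 : (2 : ℝ) ≤ (v : ℝ) ^ (δ / 2) := by
          calc (2 : ℝ) = ((2 : ℝ) ^ (2 / δ)) ^ (δ / 2) := by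
                rw [← Real.rpow_mul (by norm_num)]
                rw [show 2 / δ * (δ / 2) = 1 by field_simp, Real.rpow_one]
            _ ≤ (v : ℝ) ^ (δ / 2) := Real.rpow_le_rpow (by positivity) hv2 (by positivity)
        have hv1 : (1 : ℝ) ≤ v := by exact_mod_cast (by omega : 1 ≤ v)
        refine ⟨hu, huv, hcop, hnu, hnv, hvK, d, w, Or.inr ?_, h7, ?_⟩
        · show d * w = v + u
          omega
        · show (w : ℝ) ≤ (v : ℝ) ^ (1 - δ / 2)
          rcases le_or_gt δ 1 with hδ1 | hδ1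
          · calc (w : ℝ) ≤ ((a + b : ℕ) : ℝ) ^ (1 - δ) := h8
              _ ≤ (2 * v) ^ (1 - δ) := Real.rpow_le_rpow (by positivity) hcv (by linarith)
              _ = 2 ^ (1 - δ) * (v : ℝ) ^ (1 - δ) := Real.mul_rpow (by norm_num) hv.le
              _ ≤ 2 * (v : ℝ) ^ (1 - δ) := by
                  have : (2 : ℝ) ^ (1 - δ) ≤ 2 ^ (1 : ℝ) :=
                    Real.rpow_le_rpow_of_exponent_le (by norm_num) (by linarith)
                  rw [Real.rpow_one] at this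
                  gcongr
              _ ≤ (v : ℝ) ^ (δ / 2) * (v : ℝ) ^ (1 - δ) := by gcongr
              _ = (v : ℝ) ^ (1 - δ / 2) := by
                  rw [← Real.rpow_add hv]
                  congr 1
                  ring
          · exfalso
            have h9 : (w : ℝ) < 1 := by
              refine h8.trans_lt ?_
              exact Real.rpow_lt_one_of_one_lt_of_neg hc1 (by linarith)
            have h10 : w = 0 := by
              have : w < 1 := by exact_mod_cast h9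
              omega
            subst h10
            omega
      rcases lt_or_gt_of_ne hne with hlt | hgt
      · simp only [Finset.mem_union]
        left; right
        rw [Finset.mem_filter]
        exact ⟨hq, key a b h1 hlt rfl h3 h5 h5', hRv _ (by show a + b ≤ 2 * b; omega)⟩
      · simp only [Finset.mem_union]
        right
        rw [Finset.mem_filter]
        exact ⟨hq, key b a h2 hgt (by omega) h3.symm h5' h5,
          hRv _ (by show a + b ≤ 2 * a; omega)⟩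
  have hc1 : (Q1.card : ℝ) ≤ N := by
    have hinj : Set.InjOn f1 (Q1 : Set (ℕ × ℕ)) := by
      rintro ⟨a, b⟩ _ ⟨c, d⟩ _ he
      simp only [f1, Prod.mk.injEq] at he
      ext <;> simp only <;> omega
    rw [← Finset.card_image_of_injOn hinj]
    apply h
    intro q hq
    obtain ⟨q', hq', rfl⟩ := Finset.mem_image.mp hq
    exact (Finset.mem_filter.mp hq').2
  have hc2 : (Q2.card : ℝ) ≤ N := by
    have hinj : Set.InjOn f2 (Q2 : Set (ℕ × ℕ)) := by
      rintro ⟨a, b⟩ _ ⟨c, d⟩ _ he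
      simp only [f2, Prod.mk.injEq] at he
      ext <;> simp only <;> omega
    rw [← Finset.card_image_of_injOn hinj]
    apply h
    intro q hq
    obtain ⟨q', hq', rfl⟩ := Finset.mem_image.mp hq
    exact (Finset.mem_filter.mp hq').2
  have hc3 : (Q3.card : ℝ) ≤ N := h Q3 fun q hq => (Finset.mem_filter.mp hq).2
  have hc4 : (Q4.card : ℝ) ≤ N := by
    have hinj : Set.InjOn (Prod.swap : ℕ × ℕ → ℕ × ℕ) (Q4 : Set (ℕ × ℕ)) :=
      fun a _ b _ he => Prod.swap_injective he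
    rw [← Finset.card_image_of_injOn hinj]
    apply h
    intro q hq
    obtain ⟨q', hq', rfl⟩ := Finset.mem_image.mp hq
    exact (Finset.mem_filter.mp hq').2
  have hcard : (Q.card : ℝ) ≤ Q1.card + Q2.card + Q3.card + Q4.card := by
    have h3 : Q.card ≤ Q1.card + Q2.card + Q3.card + Q4.card :=
      (Finset.card_le_card hcov).trans ((Finset.card_union_le _ _).trans
        (Nat.add_le_add_right ((Finset.card_union_le _ _).trans
          (Nat.add_le_add_right (Finset.card_union_le _ _) _)) _))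
    exact_mod_cast h3
  linarith

/-- **all heights** -/
theorem abcp_count (n : ℕ) (δ ε : ℝ) (hδ : 0 < δ) (hε : 0 < ε) : ∃ K C : ℝ, 0 < K ∧ 0 < C ∧
    ∀ X : ℝ, 1 ≤ X → ∀ S : Finset ℕ, (∀ p ∈ S, p.Prime ∧ (p : ℝ) ≤ X) →
      ∀ Q : Finset (ℕ × ℕ), (∀ q ∈ Q, AbcP n δ K X S q) →
      (Q.card : ℝ) ≤ C * (1 + S.card) * X ^ ε := by
  classical
  obtain ⟨K, C, hK, hC, h⟩ := excp_count n (δ / 2) ε (by positivity) hε
  refine ⟨K + 1 + 2 / δ, 4 * C + 1, by positivity, by positivity, ?_⟩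
  intro X hX S hS Q hQ
  have hXε : (1 : ℝ) ≤ X ^ ε := Real.one_le_rpow hX hε.le
  have hS0 : (0 : ℝ) ≤ S.card := Nat.cast_nonneg _
  have hPX1 : 1 ≤ (1 + S.card : ℝ) * X ^ ε :=
    one_le_mul_of_one_le_of_one_le (by linarith) hXε
  rcases lt_or_ge X 2 with hX2 | hX2
  · have hc2 : (Q.card : ℝ) ≤ 1 := by exact_mod_cast abcp_small hX2 Q hQ
    nlinarith
  · have h1 := abcp_general n δ K X (C * (1 + S.card) * X ^ ε) S hδ hK hX2 (fun _ => True)
      (fun Q hQ => h X hX S hS Q (fun q hq => (hQ q hq).1)) Q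
      (fun q hq => ⟨hQ q hq, fun _ _ => trivial⟩)
    nlinarith

/-- **very large heights** -/
theorem abcp_high (n : ℕ) (δ : ℝ) (hδ : 0 < δ) : ∃ K : ℝ, 0 < K ∧ ∀ η : ℝ, 0 < η →
    ∃ C : ℝ, 0 < C ∧ ∀ X : ℝ, 1 ≤ X → ∀ S : Finset ℕ, (∀ p ∈ S, p.Prime ∧ (p : ℝ) ≤ X) →
      ∀ Q : Finset (ℕ × ℕ),
      (∀ q ∈ Q, AbcP n δ K X S q ∧ X ^ η ≤ Real.log ((q.1 + q.2 : ℕ) : ℝ)) →
      (Q.card : ℝ) ≤ C * (1 + S.card) * (1 + Real.log X) := by
  classical
  obtain ⟨K1, hK1, hh⟩ := excp_high n (δ / 2) (by positivity)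
  obtain ⟨K2, C2, hK2, hC2, hcount⟩ := abcp_count n δ 1 hδ one_pos
  refine ⟨max (K1 + 1 + 2 / δ) K2, lt_max_of_lt_right hK2, ?_⟩
  intro η hη
  obtain ⟨C1, hC1, h1⟩ := hh (η / 2) (by positivity)
  refine ⟨4 * C1 + C2 * 2 ^ (2 / η) + 1, by positivity, ?_⟩
  intro X hX S hS Q hQ
  have hX0 : 0 < X := by linarith
  have hlX : 0 ≤ Real.log X := Real.log_nonneg hX
  have hS0 : (0 : ℝ) ≤ S.card := Nat.cast_nonneg _
  have hmono : ∀ K' : ℝ, K' ≤ max (K1 + 1 + 2 / δ) K2 → ∀ q ∈ Q, AbcP n δ K' X S q := by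
    intro K' hK' q hq
    obtain ⟨a1, a2, a3, a4, a5⟩ := (hQ q hq).1
    exact ⟨a1, a2, a3, (Real.rpow_le_rpow_of_exponent_le hX hK').trans a4, a5⟩
  have hPl : 1 ≤ (1 + S.card : ℝ) * (1 + Real.log X) :=
    one_le_mul_of_one_le_of_one_le (by linarith) (by linarith)
  have h2η : (0 : ℝ) < 2 ^ (2 / η) := by positivity
  rcases lt_or_ge (X ^ (η / 2)) 2 with hlt | hge
  · -- `X` is bounded
    have hXb : X ≤ 2 ^ (2 / η) := by
      calc X = (X ^ (η / 2)) ^ (2 / η) := by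
            rw [← Real.rpow_mul hX0.le]
            have : η / 2 * (2 / η) = 1 := by field_simp
            rw [this, Real.rpow_one]
        _ ≤ 2 ^ (2 / η) := Real.rpow_le_rpow (by positivity) hlt.le (by positivity)
    have h3 := hcount X hX S hS Q (hmono K2 (le_max_right _ _))
    rw [Real.rpow_one] at h3
    have h4 : C2 * (1 + S.card) * X ≤
        (C2 * 2 ^ (2 / η)) * ((1 + S.card) * (1 + Real.log X)) := by
      calc C2 * (1 + S.card) * X ≤ C2 * (1 + S.card) * 2 ^ (2 / η) :=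
            mul_le_mul_of_nonneg_left hXb (by positivity)
        _ = (C2 * 2 ^ (2 / η)) * ((1 + S.card) * 1) := by ring
        _ ≤ _ := by
            apply mul_le_mul_of_nonneg_left _ (by positivity)
            apply mul_le_mul_of_nonneg_left _ (by linarith)
            linarith
    have h5 : 0 ≤ (4 * C1 + 1) * ((1 + S.card) * (1 + Real.log X)) := by positivity
    calc (Q.card : ℝ) ≤ C2 * (1 + S.card) * X := h3
      _ ≤ (C2 * 2 ^ (2 / η)) * ((1 + S.card) * (1 + Real.log X)) := h4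
      _ ≤ _ := by nlinarith
  · rcases lt_or_ge X 2 with hX2' | hX2
    · have h3 : (Q.card : ℝ) ≤ 1 := by
        exact_mod_cast abcp_small hX2' Q (fun q hq => (hQ q hq).1)
      have h4 : 0 ≤ (4 * C1 + C2 * 2 ^ (2 / η)) * ((1 + S.card) * (1 + Real.log X)) := by
        positivity
      nlinarith
    have h3 := abcp_general n δ K1 X (C1 * (1 + S.card) * (1 + Real.log X)) S hδ hK1 hX2
      (fun v => X ^ (η / 2) ≤ Real.log v)
      (fun Q hQ => h1 X hX S hS Q (fun q hq => hQ q hq)) Q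
      (fun q hq => ⟨hmono _ (le_max_left _ _) q hq, by
        intro v hv
        have h4 := (hQ q hq).2
        have h5 : Real.log ((q.1 + q.2 : ℕ) : ℝ) ≤ Real.log 2 + Real.log v := by
          have hq0 : 0 < q.1 + q.2 := by
            have := (hQ q hq).1.1
            omega
          have hv0 : 0 < v := by omega
          have hv1 : (0 : ℝ) < v := by exact_mod_cast hv0
          rw [← Real.log_mul (by norm_num) hv1.ne']
          apply Real.log_le_log (by exact_mod_cast hq0)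
          exact_mod_cast hv
        have h6 : Real.log 2 < 0.6931471808 := Real.log_two_lt_d9
        have h7 : X ^ η = X ^ (η / 2) * X ^ (η / 2) := by
          rw [← Real.rpow_add hX0]
          congr 1
          ring
        have h8 : 2 * X ^ (η / 2) ≤ X ^ η := by
          rw [h7]
          exact mul_le_mul_of_nonneg_right hge (by positivity)
        linarith⟩)
    have h4 : 0 ≤ (C2 * 2 ^ (2 / η) + 1) * ((1 + S.card) * (1 + Real.log X)) := by positivity
    nlinarith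

/-- `2 ≤ m` has a prime factor at most its radical -/
lemma le_radical {m l : ℕ} (hl : l ∈ m.primeFactors) : l ≤ ∏ p ∈ m.primeFactors, p :=
  Nat.le_of_dvd (Finset.prod_pos (fun _ h => (Nat.prime_of_mem_primeFactors h).pos))
    (Finset.dvd_prod_of_mem _ hl)

/-- triples with few primes, small radical and large height -/
def TallR (n : ℕ) (K X : ℝ) (q : ℕ × ℕ) : Prop :=
  0 < q.1 ∧ 0 < q.2 ∧ Nat.Coprime q.1 q.2 ∧
    (q.1 * q.2 * (q.1 + q.2)).primeFactors.card ≤ n ∧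
    ((∏ p ∈ (q.1 * q.2 * (q.1 + q.2)).primeFactors, p : ℕ) : ℝ) ≤ X ∧
    X ^ K ≤ ((q.1 + q.2 : ℕ) : ℝ)

/-- the primes `≤ X ^ (1/3)` -/
noncomputable def sp (X : ℝ) : Finset ℕ :=
  (Finset.range (⌊X ^ ((1 : ℝ) / 3)⌋₊ + 1)).filter Nat.Prime

lemma sp_card {X : ℝ} (hX : 1 ≤ X) : ((sp X).card : ℝ) ≤ X ^ ((1 : ℝ) / 3) := by
  have hX3 : (0 : ℝ) ≤ X ^ ((1 : ℝ) / 3) := by positivity
  have h1 : sp X ⊆ (Finset.range (⌊X ^ ((1 : ℝ) / 3)⌋₊ + 1)).erase 0 := by
    intro p hp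
    unfold sp at hp
    rw [Finset.mem_filter] at hp
    rw [Finset.mem_erase]
    exact ⟨hp.2.pos.ne', hp.1⟩
  have h2 := Finset.card_le_card h1
  rw [Finset.card_erase_of_mem (by simp), Finset.card_range] at h2
  calc ((sp X).card : ℝ) ≤ (⌊X ^ ((1 : ℝ) / 3)⌋₊ : ℝ) := by exact_mod_cast (by omega)
    _ ≤ _ := Nat.floor_le hX3

lemma sp_prime {X : ℝ} (hX : 1 ≤ X) {p : ℕ} (hp : p ∈ sp X) : p.Prime ∧ (p : ℝ) ≤ X := by
  unfold sp at hp
  rw [Finset.mem_filter, Finset.mem_range] at hp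
  refine ⟨hp.2, ?_⟩
  calc (p : ℝ) ≤ (⌊X ^ ((1 : ℝ) / 3)⌋₊ : ℝ) := by exact_mod_cast (by omega)
    _ ≤ X ^ ((1 : ℝ) / 3) := Nat.floor_le (by positivity)
    _ ≤ X ^ (1 : ℝ) := Real.rpow_le_rpow_of_exponent_le hX (by norm_num)
    _ = X := Real.rpow_one X

lemma tall_abcp {n : ℕ} {K X : ℝ} {q : ℕ × ℕ} (h : TallR n K X q) :
    AbcP n (1 / 2) K X (sp X) q := by
  obtain ⟨h1, h2, h3, h4, h5, h6⟩ := h
  obtain ⟨a, b⟩ := q
  simp only at h1 h2 h3 h4 h5 h6
  have hco1 : Nat.Coprime b (a + b) := by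
    rw [Nat.coprime_add_self_right]
    exact h3.symm
  have hco2 : Nat.Coprime a (a + b) := by
    rw [Nat.coprime_self_add_right]
    exact h3
  have hcab : Nat.Coprime (a * b) (a + b) := Nat.Coprime.mul_left hco2 hco1
  have hsup : (a * b * (a + b)).primeFactors =
      a.primeFactors ∪ b.primeFactors ∪ (a + b).primeFactors := by
    rw [Nat.primeFactors_mul (by positivity) (by omega), Nat.primeFactors_mul h1.ne' h2.ne']
  have hprod : ∏ p ∈ (a * b * (a + b)).primeFactors, p =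
      (∏ p ∈ a.primeFactors, p) * (∏ p ∈ b.primeFactors, p) *
        (∏ p ∈ (a + b).primeFactors, p) := by
    rw [hsup, Finset.prod_union, Finset.prod_union h3.disjoint_primeFactors]
    rw [← Nat.primeFactors_mul h1.ne' h2.ne']
    exact hcab.disjoint_primeFactors
  have hpos : ∀ m : ℕ, 1 ≤ ∏ p ∈ m.primeFactors, p := fun m =>
    Finset.prod_pos (fun _ h => (Nat.prime_of_mem_primeFactors h).pos)
  -- all three members have few primes
  have hall : ∀ m : ℕ, 0 < m → m.primeFactors ⊆ (a * b * (a + b)).primeFactors → Fp n X m := by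
    intro m hm hsub
    refine ⟨hm, (Finset.card_le_card hsub).trans h4, ?_⟩
    intro l hl
    have h7 : (l : ℝ) ≤ ((∏ p ∈ (a * b * (a + b)).primeFactors, p : ℕ) : ℝ) := by
      exact_mod_cast le_radical (hsub hl)
    exact h7.trans h5
  have hfa := hall a h1 (by
    rw [hsup]
    exact Finset.subset_union_left.trans Finset.subset_union_left)
  have hfb := hall b h2 (by
    rw [hsup]
    exact Finset.subset_union_right.trans Finset.subset_union_left)
  have hfc := hall (a + b) (by omega) (by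
    rw [hsup]
    exact Finset.subset_union_right)
  have hc1 : (1 : ℝ) ≤ ((a + b : ℕ) : ℝ) := by exact_mod_cast (by omega : 1 ≤ a + b)
  have hone : ((1 : ℕ) : ℝ) ≤ ((a + b : ℕ) : ℝ) ^ ((1 : ℝ) - 1 / 2) := by
    rw [Nat.cast_one]
    exact Real.one_le_rpow hc1 (by norm_num)
  -- the member with the smallest radical
  have hsmall : ∀ m : ℕ, (0 < m) → Fp n X m →
      (∏ p ∈ m.primeFactors, p) ^ 3 ≤ ∏ p ∈ (a * b * (a + b)).primeFactors, p →
      DefP n (sp X) (((a + b : ℕ) : ℝ) ^ ((1 : ℝ) - 1 / 2)) m := by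
    intro m hm hfm h7
    refine ⟨m, 1, by ring, ⟨hm, hfm.2.1, ?_⟩, hone⟩
    intro l hl
    have hlp := Nat.prime_of_mem_primeFactors hl
    unfold sp
    rw [Finset.mem_filter, Finset.mem_range]
    refine ⟨?_, hlp⟩
    rw [Nat.lt_succ_iff]
    apply Nat.le_floor
    have h8 : (l : ℝ) ^ (3 : ℕ) ≤ X := by
      have h9 : l ^ 3 ≤ ∏ p ∈ (a * b * (a + b)).primeFactors, p :=
        (Nat.pow_le_pow_left (le_radical hl) 3).trans h7
      calc (l : ℝ) ^ (3 : ℕ) ≤ ((∏ p ∈ (a * b * (a + b)).primeFactors, p : ℕ) : ℝ) := by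
            exact_mod_cast h9
        _ ≤ X := h5
    calc (l : ℝ) = ((l : ℝ) ^ (3 : ℕ)) ^ ((1 : ℝ) / 3) := by
          rw [← Real.rpow_natCast, ← Real.rpow_mul (Nat.cast_nonneg _)]
          norm_num
      _ ≤ X ^ ((1 : ℝ) / 3) := Real.rpow_le_rpow (by positivity) h8 (by norm_num)
  obtain ⟨ra, hra⟩ : ∃ r, r = ∏ p ∈ a.primeFactors, p := ⟨_, rfl⟩
  obtain ⟨rb, hrb⟩ : ∃ r, r = ∏ p ∈ b.primeFactors, p := ⟨_, rfl⟩
  obtain ⟨rc, hrc⟩ : ∃ r, r = ∏ p ∈ (a + b).primeFactors, p := ⟨_, rfl⟩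
  have hcube : ∀ r : ℕ, r ≤ ra → r ≤ rb → r ≤ rc →
      r ^ 3 ≤ ∏ p ∈ (a * b * (a + b)).primeFactors, p := by
    intro r k1 k2 k3
    rw [hprod, ← hra, ← hrb, ← hrc]
    calc r ^ 3 = r * r * r := by ring
      _ ≤ _ := Nat.mul_le_mul (Nat.mul_le_mul k1 k2) k3
  refine ⟨h1, h2, h3, h6, ?_⟩
  rcases le_total ra rb with k1 | k1
  · rcases le_total ra rc with k2 | k2
    · left
      exact ⟨hfb, hfc, hsmall a h1 hfa (by rw [← hra]; exact hcube ra le_rfl k1 k2)⟩
    · right; right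
      exact ⟨hfa, hfb, hsmall (a + b) (by omega) hfc
        (by rw [← hrc]; exact hcube rc k2 (k2.trans k1) le_rfl)⟩
  · rcases le_total rb rc with k2 | k2
    · right; left
      exact ⟨hfa, hfc, hsmall b h2 hfb (by rw [← hrb]; exact hcube rb k1 le_rfl k2)⟩
    · right; right
      exact ⟨hfa, hfb, hsmall (a + b) (by omega) hfc
        (by rw [← hrc]; exact hcube rc (k2.trans k1) k2 le_rfl)⟩

/-- from finite subsets to sets -/
lemma finite_of_bound {S : Set (ℕ × ℕ)} {N : ℝ}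
    (h : ∀ Q : Finset (ℕ × ℕ), (∀ q ∈ Q, q ∈ S) → (Q.card : ℝ) ≤ N) :
    S.Finite ∧ (S.ncard : ℝ) ≤ N := by
  have hfin : S.Finite := by
    by_contra hinf
    rw [← Set.Infinite] at hinf
    obtain ⟨Q, hQ1, hQ2⟩ := hinf.exists_subset_card_eq (⌊N⌋₊ + 1)
    have h3 := h Q (fun q hq => hQ1 hq)
    rw [hQ2] at h3
    push_cast at h3
    have := Nat.lt_floor_add_one N
    linarith
  refine ⟨hfin, ?_⟩
  rw [Set.ncard_eq_toFinset_card _ hfin]
  exact h _ (fun q hq => by simpa using hq)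

/-- **the three counts together** -/
theorem abcp_main (n : ℕ) (δ ε : ℝ) (hδ : 0 < δ) (hε : 0 < ε) : ∃ K C : ℝ, 0 < K ∧ 0 < C ∧
    (∀ X : ℝ, 1 ≤ X → ∀ S : Finset ℕ, (∀ p ∈ S, p.Prime ∧ (p : ℝ) ≤ X) →
      {q | AbcP n δ K X S q}.Finite ∧
      ({q | AbcP n δ K X S q}.ncard : ℝ) ≤ C * (1 + S.card) * X ^ ε) ∧
    (∀ X : ℝ, 1 ≤ X → {q | TallR n K X q}.Finite ∧
      ({q | TallR n K X q}.ncard : ℝ) ≤ C * X ^ (1 / 3 + ε)) ∧
    ∀ η : ℝ, 0 < η → ∃ C' : ℝ, 0 < C' ∧ ∀ X : ℝ, 1 ≤ X → ∀ S : Finset ℕ,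
      (∀ p ∈ S, p.Prime ∧ (p : ℝ) ≤ X) →
      ({q | AbcP n δ K X S q ∧ X ^ η ≤ Real.log ((q.1 + q.2 : ℕ) : ℝ)}.ncard : ℝ) ≤
        C' * (1 + S.card) * (1 + Real.log X) := by
  obtain ⟨K1, C1, hK1, hC1, h1⟩ := abcp_count n δ ε hδ hε
  obtain ⟨K2, hK2, h2⟩ := abcp_high n δ hδ
  obtain ⟨K3, C3, hK3, hC3, h3⟩ := abcp_count n (1 / 2) ε (by norm_num) hε
  obtain ⟨K, hKdef⟩ : ∃ K : ℝ, K = max K1 (max K2 K3) := ⟨_, rfl⟩
  have hKK1 : K1 ≤ K := by rw [hKdef]; exact le_max_left _ _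
  have hKK2 : K2 ≤ K := by rw [hKdef]; exact (le_max_left _ _).trans (le_max_right _ _)
  have hKK3 : K3 ≤ K := by rw [hKdef]; exact (le_max_right _ _).trans (le_max_right _ _)
  have hmono : ∀ (δ' X : ℝ) (S : Finset ℕ), 1 ≤ X → ∀ K' : ℝ, K' ≤ K → ∀ q : ℕ × ℕ,
      AbcP n δ' K X S q → AbcP n δ' K' X S q := by
    intro δ' X S hX K' hK' q hq
    obtain ⟨a1, a2, a3, a4, a5⟩ := hq
    exact ⟨a1, a2, a3, (Real.rpow_le_rpow_of_exponent_le hX hK').trans a4, a5⟩
  refine ⟨K, C1 + 2 * C3, by linarith, by positivity, ?_, ?_, ?_⟩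
  · intro X hX S hS
    apply finite_of_bound
    intro Q hQ
    refine (h1 X hX S hS Q (fun q hq => hmono δ X S hX K1 hKK1 q (hQ q hq))).trans ?_
    gcongr
    linarith
  · intro X hX
    apply finite_of_bound
    intro Q hQ
    have hX0 : 0 < X := by linarith
    have h4 := h3 X hX (sp X) (fun p hp => sp_prime hX hp) Q
      (fun q hq => hmono _ X _ hX K3 hKK3 q (tall_abcp (hQ q hq)))
    have h5 := sp_card hX
    have h6 : (1 : ℝ) ≤ X ^ ((1 : ℝ) / 3) := Real.one_le_rpow hX (by norm_num)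
    calc (Q.card : ℝ) ≤ C3 * (1 + (sp X).card) * X ^ ε := h4
      _ ≤ C3 * (X ^ ((1 : ℝ) / 3) + X ^ ((1 : ℝ) / 3)) * X ^ ε := by gcongr
      _ = (2 * C3) * (X ^ ((1 : ℝ) / 3) * X ^ ε) := by ring
      _ = (2 * C3) * X ^ (1 / 3 + ε) := by rw [← Real.rpow_add hX0]
      _ ≤ (C1 + 2 * C3) * X ^ (1 / 3 + ε) := by
          gcongr
          linarith
  · intro η hη
    obtain ⟨C', hC', h4⟩ := h2 η hη
    refine ⟨C', hC', ?_⟩
    intro X hX S hS
    refine (finite_of_bound ?_).2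
    intro Q hQ
    exact h4 X hX S hS Q (fun q hq => ⟨hmono δ X S hX K2 hKK2 q (hQ q hq).1, (hQ q hq).2⟩)

end Pool.Agent.Y913.Sm
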