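import Pool.Agent.Y913.Sm.AbcP

/-!
Triples with few primes whose largest member exceeds a large power of their own radical.
-/

set_option autoImplicit false

namespace Pool.Agent.Y913.Sm

open Finset Pool.Agent.Y913

theorem tall_all (n : ℕ) (ε : ℝ) (hε : 0 < ε) : ∃ K C : ℝ, 0 < K ∧ 0 < C ∧
    ∀ X : ℝ, 1 ≤ X → ∀ Q : Finset (ℕ × ℕ), (∀ q ∈ Q, TallR n K X q) →
      (Q.card : ℝ) ≤ C * X ^ (1 / 3 + ε) := by
  obtain ⟨K, C, hK, hC, -, h, -⟩ := abcp_main n (1 / 2) ε (by norm_num) hε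
  refine ⟨K, C, hK, hC, ?_⟩
  intro X hX Q hQ
  obtain ⟨h1, h2⟩ := h X hX
  refine le_trans ?_ h2
  have h3 := Set.ncard_le_ncard (s := (Q : Set (ℕ × ℕ))) (fun q hq => hQ q hq) h1
  rw [Set.ncard_coe_finset] at h3
  exact_mod_cast h3

/-- the radical of `a b (a + b)` -/
def radT (q : ℕ × ℕ) : ℕ := ∏ p ∈ (q.1 * q.2 * (q.1 + q.2)).primeFactors, p

lemma radT_two_le {q : ℕ × ℕ} (h1 : 0 < q.1) (h2 : 0 < q.2) : 2 ≤ radT q := by
  have h3 : 2 ≤ q.1 * q.2 * (q.1 + q.2) := by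
    have h4 : 1 ≤ q.1 * q.2 := Nat.mul_pos h1 h2
    calc 2 = 1 * 2 := by norm_num
      _ ≤ q.1 * q.2 * (q.1 + q.2) := Nat.mul_le_mul h4 (by omega)
  obtain ⟨l, hl⟩ := Nat.nonempty_primeFactors.mpr (by omega : 1 < q.1 * q.2 * (q.1 + q.2))
  exact (Nat.prime_of_mem_primeFactors hl).two_le.trans (le_radical hl)

/-- triples with few primes, radical at most `X` and `c` at least the `K`-th power of the
radical -/
def Viol (n : ℕ) (K X : ℝ) (q : ℕ × ℕ) : Prop :=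
  0 < q.1 ∧ 0 < q.2 ∧ Nat.Coprime q.1 q.2 ∧
    (q.1 * q.2 * (q.1 + q.2)).primeFactors.card ≤ n ∧ (radT q : ℝ) ≤ X ∧
    (radT q : ℝ) ^ K ≤ ((q.1 + q.2 : ℕ) : ℝ)

theorem viol_count (n : ℕ) (ε : ℝ) (hε : 0 < ε) : ∃ K C : ℝ, 0 < K ∧ 0 < C ∧
    ∀ X : ℝ, 1 ≤ X → ∀ Q : Finset (ℕ × ℕ), (∀ q ∈ Q, Viol n K X q) →
      (Q.card : ℝ) ≤ C * X ^ (1 / 3 + ε) := by
  classical
  obtain ⟨K, C, hK, hC, h⟩ := tall_all n ε hε
  obtain ⟨s, hs⟩ : ∃ s : ℝ, s = 1 / 3 + ε := ⟨_, rfl⟩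
  have hs0 : 0 < s := by rw [hs]; positivity
  rw [← hs] at h
  have h2s : (1 : ℝ) < 2 ^ s := Real.one_lt_rpow (by norm_num) hs0
  refine ⟨2 * K, C * (2 ^ s * 2 ^ s / (2 ^ s - 1)), by positivity, ?_, ?_⟩
  · have : 0 < (2 : ℝ) ^ s - 1 := by linarith
    positivity
  intro X hX Q hQ
  have hX0 : 0 < X := by linarith
  have hd : 0 < (2 : ℝ) ^ s - 1 := by linarith
  obtain ⟨I, hI⟩ : ∃ I : ℕ, I = Nat.log 2 ⌊X⌋₊ := ⟨_, rfl⟩
  have hmaps : Set.MapsTo (fun q : ℕ × ℕ => Nat.log 2 (radT q))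
      (Q : Set (ℕ × ℕ)) (Finset.range (I + 1) : Set ℕ) := by
    intro q hq
    obtain ⟨h1, h2, h3, h4, h5, h6⟩ := hQ q hq
    rw [Finset.mem_coe, Finset.mem_range, Nat.lt_succ_iff, hI]
    exact Nat.log_mono_right (Nat.le_floor h5)
  have hsum := Finset.card_eq_sum_card_fiberwise hmaps
  have hfib : ∀ i ∈ Finset.range (I + 1), ((Q.filter
      (fun q : ℕ × ℕ => Nat.log 2 (radT q) = i)).card : ℝ) ≤ C * ((2 : ℝ) ^ s) ^ (i + 1) := by
    intro i _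
    have h1 := h ((2 : ℝ) ^ (i + 1)) (one_le_pow₀ (by norm_num))
      (Q.filter (fun q : ℕ × ℕ => Nat.log 2 (radT q) = i)) (by
        intro q hq
        rw [Finset.mem_filter] at hq
        obtain ⟨hqQ, hqi⟩ := hq
        obtain ⟨h1, h2, h3, h4, h5, h6⟩ := hQ q hqQ
        have hr2 := radT_two_le h1 h2
        have hr2' : (2 : ℝ) ≤ radT q := by exact_mod_cast hr2
        have hlow : 2 ^ i ≤ radT q := by
          rw [← hqi]
          exact Nat.pow_log_le_self 2 (by omega)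
        have hupp : radT q < 2 ^ (i + 1) := by
          rw [← hqi]
          exact Nat.lt_pow_succ_log_self (by norm_num) _
        refine ⟨h1, h2, h3, h4, ?_, ?_⟩
        · have : (radT q : ℝ) ≤ ((2 ^ (i + 1) : ℕ) : ℝ) := by exact_mod_cast hupp.le
          push_cast at this
          exact this
        · refine le_trans ?_ h6
          have e1 : ((2 : ℝ) ^ (i + 1)) ≤ (radT q : ℝ) ^ (2 : ℝ) := by
            rw [pow_succ, show (2 : ℝ) = ((2 : ℕ) : ℝ) by norm_num, Real.rpow_natCast, pow_two]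
            have e2 : ((2 : ℕ) : ℝ) ^ i ≤ radT q := by exact_mod_cast hlow
            push_cast at e2 ⊢
            exact mul_le_mul e2 hr2' (by norm_num) (by positivity)
          calc ((2 : ℝ) ^ (i + 1)) ^ K ≤ ((radT q : ℝ) ^ (2 : ℝ)) ^ K :=
                Real.rpow_le_rpow (by positivity) e1 hK.le
            _ = (radT q : ℝ) ^ (2 * K) := by rw [← Real.rpow_mul (Nat.cast_nonneg _)])
    refine h1.trans (le_of_eq ?_)
    rw [← Real.rpow_natCast 2 (i + 1), ← Real.rpow_natCast ((2 : ℝ) ^ s) (i + 1),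
      ← Real.rpow_mul (by norm_num), ← Real.rpow_mul (by norm_num), mul_comm s]
  have h2I : ((2 : ℝ) ^ s) ^ I ≤ X ^ s := by
    rw [← Real.rpow_natCast ((2 : ℝ) ^ s) I, ← Real.rpow_mul (by norm_num), mul_comm s,
      Real.rpow_mul (by norm_num)]
    apply Real.rpow_le_rpow (by positivity) _ hs0.le
    rw [Real.rpow_natCast]
    have hne : ⌊X⌋₊ ≠ 0 := by
      have : 1 ≤ ⌊X⌋₊ := Nat.le_floor (by push_cast; exact hX)
      omega
    have h2 := Nat.pow_log_le_self 2 hne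
    rw [← hI] at h2
    calc (2 : ℝ) ^ I ≤ (⌊X⌋₊ : ℝ) := by exact_mod_cast h2
      _ ≤ X := Nat.floor_le hX0.le
  have hgeom : ∑ i ∈ Finset.range (I + 1), ((2 : ℝ) ^ s) ^ (i + 1) ≤
      2 ^ s * 2 ^ s / (2 ^ s - 1) * X ^ s := by
    have h3 : ∑ i ∈ Finset.range (I + 1), ((2 : ℝ) ^ s) ^ (i + 1) =
        2 ^ s * ((((2 : ℝ) ^ s) ^ (I + 1) - 1) / (2 ^ s - 1)) := by
      rw [← geom_sum_eq h2s.ne', Finset.mul_sum]
      apply Finset.sum_congr rfl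
      intro i _
      rw [pow_succ, mul_comm]
    rw [h3]
    have h4 : ((2 : ℝ) ^ s) ^ (I + 1) - 1 ≤ 2 ^ s * X ^ s := by
      rw [pow_succ, mul_comm]
      have := mul_le_mul_of_nonneg_left h2I (by positivity : (0 : ℝ) ≤ 2 ^ s)
      linarith
    calc 2 ^ s * ((((2 : ℝ) ^ s) ^ (I + 1) - 1) / (2 ^ s - 1)) ≤
          2 ^ s * ((2 ^ s * X ^ s) / (2 ^ s - 1)) := by gcongr
      _ = _ := by ring
  rw [← hs]
  calc (Q.card : ℝ) = ∑ i ∈ Finset.range (I + 1), ((Q.filter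
        (fun q : ℕ × ℕ => Nat.log 2 (radT q) = i)).card : ℝ) := by
        rw [hsum]
        push_cast
        rfl
    _ ≤ ∑ i ∈ Finset.range (I + 1), C * ((2 : ℝ) ^ s) ^ (i + 1) := Finset.sum_le_sum hfib
    _ = C * ∑ i ∈ Finset.range (I + 1), ((2 : ℝ) ^ s) ^ (i + 1) := by rw [Finset.mul_sum]
    _ ≤ C * (2 ^ s * 2 ^ s / (2 ^ s - 1) * X ^ s) := mul_le_mul_of_nonneg_left hgeom hC.le
    _ = _ := by ring

end Pool.Agent.Y913.Sm
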