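import Pool.Agent.Y913.Sm.Ext

/-!
Simultaneous `p`-adic relations, VII: the alternative for one subspace.
-/

set_option autoImplicit false

namespace Pool.Agent.Y913.Sm

open Finset Pool.Agent.Y913 Pool.Agent.Y913.Bk

variable {σ : Type} [Fintype σ] [DecidableEq σ]

/-- restricted linear forms, rational -/
def FL (a : σ → σ → ℤ) (J : Finset σ) : (σ → ℚ) →ₗ[ℚ] ({j // j ∈ J} → ℚ) :=
  LinearMap.pi (fun j => fq a j.1)

/-- restricted linear forms, integral -/
def FZ (a : σ → σ → ℤ) (J : Finset σ) : (σ → ℤ) →+ ({j // j ∈ J} → ℤ) where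
  toFun s := fun j => fz a s j.1
  map_zero' := by funext j; simp
  map_add' s t := by funext j; simp

omit [DecidableEq σ] in
lemma FL_qc (a : σ → σ → ℤ) (J : Finset σ) (s : σ → ℤ) : FL a J (qc s) = qc (FZ a J s) := by
  funext j
  exact fq_qc a s j.1

omit [DecidableEq σ] in
/-- dimension of a subspace between `W ⊓ R` and `W` -/
lemma dim_between (a : σ → σ → ℤ) (J : Finset σ) (R W W1 : Submodule ℚ (σ → ℚ))
    (hR0 : ∀ x ∈ R, ∀ j ∈ J, fq a j x = 0)
    (hker : ∀ x ∈ W, (∀ j ∈ J, fq a j x = 0) → x ∈ R) (h1 : W ⊓ R ≤ W1) (h2 : W1 ≤ W) :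
    Module.finrank ℚ W1 = Module.finrank ℚ (W1.map (FL a J)) +
      Module.finrank ℚ (W ⊓ R : Submodule ℚ _) := by
  have h3 := LinearMap.finrank_range_add_finrank_ker ((FL a J).comp W1.subtype)
  have h4 : LinearMap.range ((FL a J).comp W1.subtype) = W1.map (FL a J) := by
    rw [LinearMap.range_comp, Submodule.range_subtype]
  have h5 : LinearMap.ker ((FL a J).comp W1.subtype) = Submodule.comap W1.subtype (W ⊓ R) := by
    ext x
    rw [LinearMap.mem_ker, Submodule.mem_comap]
    constructor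
    · intro h
      refine ⟨h2 x.2, hker _ (h2 x.2) ?_⟩
      intro j hj
      exact congrFun h ⟨j, hj⟩
    · intro h
      funext j
      exact hR0 _ h.2 j.1 j.2
  rw [h4, h5, LinearEquiv.finrank_eq (Submodule.comapSubtypeEquivOfLe h1)] at h3
  exact h3.symm

omit [DecidableEq σ] in
lemma map_eq_top (a : σ → σ → ℤ) (J : Finset σ) (W : Submodule ℚ (σ → ℚ))
    (hli : LinearIndependent ℚ (fun j : {j // j ∈ J} => (fq a j.1).comp W.subtype)) :
    W.map (FL a J) = ⊤ := by
  classical
  have h1 : Function.Surjective ((FL a J).comp W.subtype) := by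
    rw [← LinearMap.dualMap_injective_iff, ← LinearMap.ker_eq_bot, LinearMap.ker_eq_bot']
    intro g hg
    have h2 : ∑ j : {j // j ∈ J}, g (Pi.single j 1) • ((fq a j.1).comp W.subtype) = 0 := by
      apply LinearMap.ext
      intro x
      have h3 := congrArg (fun F : W →ₗ[ℚ] ℚ => F x) hg
      simp only [LinearMap.dualMap_apply', LinearMap.comp_apply, LinearMap.zero_apply] at h3
      rw [LinearMap.zero_apply, ← h3, LinearMap.sum_apply]
      have h4 : (FL a J) (W.subtype x) = ∑ j : {j // j ∈ J},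
          (fq a j.1 (W.subtype x)) • (Pi.single j (1 : ℚ) : {j // j ∈ J} → ℚ) := by
        funext l
        rw [Finset.sum_apply, Finset.sum_eq_single l]
        · simp [FL]
        · intro j _ hj
          simp [hj.symm]
        · intro h; exact absurd (Finset.mem_univ l) h
      rw [h4, map_sum]
      apply Finset.sum_congr rfl
      intro j _
      rw [map_smul, LinearMap.smul_apply, LinearMap.comp_apply, smul_eq_mul, smul_eq_mul, mul_comm]
    have h5 := Fintype.linearIndependent_iff.mp hli _ h2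
    apply LinearMap.pi_ext'
    intro j
    apply LinearMap.ext_ring
    simpa using h5 j
  rw [← Submodule.range_subtype W, ← LinearMap.range_comp]
  exact LinearMap.range_eq_top.mpr h1

/-- **the alternative for one subspace** -/
theorem alt_one (Γ : AddSubgroup (σ → ℤ)) (a : σ → σ → ℤ) (J : Finset σ)
    (R W : Submodule ℚ (σ → ℚ))
    (hR0 : ∀ x ∈ R, ∀ j ∈ J, fq a j x = 0)
    (hker : ∀ x ∈ W, (∀ j ∈ J, fq a j x = 0) → x ∈ R)
    (hli : LinearIndependent ℚ (fun j : {j // j ∈ J} => (fq a j.1).comp W.subtype))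
    (S G0 D1 : ℕ) (hS : 1 ≤ S) (hG0 : 1 ≤ G0) (hD1 : 1 ≤ D1)
    (q : σ → ℕ) (hq : ∀ j, 1 ≤ q j) (hind : ∀ s : σ → ℤ, uq q s = 1 → s = 0)
    (G : (({j // j ∈ J} → Fin (S * G0)) × Fin D1) → ℤ) (hG : G ≠ 0)
    (hvan : ∀ ss : List (σ → ℤ), ss.length ≤ Fintype.card {j // j ∈ J} + 1 →
      (∀ s ∈ ss, s ∈ pts Γ W S) →
      ∑ i, (G i : ℝ) * ((∏ k, ((FZ a J ss.sum k : ℤ) : ℝ) ^ (i.1 k : ℕ)) *
        (uq q ss.sum) ^ (i.2 : ℕ)) = 0) :
    (pts Γ W S).card ≤ (2 ^ ((Fintype.card σ + 2) * (Fintype.card σ + 1)) * D1 *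
      G0 ^ Fintype.card σ) * S ^ (Module.finrank ℚ W - Module.finrank ℚ (W ⊓ R : Submodule ℚ _)) ∨
    ∃ W' ≤ W, W ⊓ R ≤ W' ∧ Module.finrank ℚ W' < Module.finrank ℚ W ∧
      (pts Γ W S).card ≤ (2 ^ ((Fintype.card σ + 2) * (Fintype.card σ + 1)) *
        G0 ^ Fintype.card σ) * S ^ (Module.finrank ℚ W - Module.finrank ℚ W') *
          (pts Γ W' (2 * S)).card := by
  classical
  have hcJ : Fintype.card {j // j ∈ J} ≤ Fintype.card σ := by
    rw [Fintype.card_coe]
    exact Finset.card_le_univ _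
  have hdW : Module.finrank ℚ W = Fintype.card {j // j ∈ J} +
      Module.finrank ℚ (W ⊓ R : Submodule ℚ _) := by
    have h1 := dim_between a J R W W hR0 hker inf_le_left le_rfl
    rw [map_eq_top a J W hli, finrank_top, Module.finrank_fintype_fun_eq_card] at h1
    exact h1
  set c := Fintype.card {j // j ∈ J} with hc
  have hcc : 2 ^ ((c + 2) * (c + 1)) ≤ 2 ^ ((Fintype.card σ + 2) * (Fintype.card σ + 1)) :=
    Nat.pow_le_pow_right (by norm_num) (Nat.mul_le_mul (by omega) (by omega))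
  rcases zero_gen (L0 := S * G0) (L := D1) (Nat.mul_pos hS hG0) hD1 G hG (FZ a J)
    (uq_pos hq) (uq_add hq) hind (pts Γ W S) hvan with h | ⟨K, hK1, hK2⟩
  · left
    refine h.trans ?_
    rw [hdW, Nat.add_sub_cancel, mul_pow]
    calc 2 ^ ((c + 2) * (c + 1)) * (D1 * (S ^ c * G0 ^ c)) =
          (2 ^ ((c + 2) * (c + 1)) * D1 * G0 ^ c) * S ^ c := by ring
      _ ≤ _ := by
          apply Nat.mul_le_mul_right
          apply Nat.mul_le_mul
          · exact Nat.mul_le_mul_right _ hcc
          · exact Nat.pow_le_pow_right hG0 hcJ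
  · right
    -- the largest class
    have hne : (pts Γ W S).Nonempty := ⟨0, by
      rw [mem_pts]
      refine ⟨fun j => by simp, Γ.zero_mem, ?_⟩
      rw [qc_zero]
      exact W.zero_mem⟩
    obtain ⟨s0, hs0, hmax⟩ := Finset.exists_max_image (pts Γ W S)
      (fun s => ((pts Γ W S).filter (fun t => t - s ∈ K)).card) hne
    set CL := (pts Γ W S).filter (fun t => t - s0 ∈ K) with hCL
    -- a maximal system of representatives
    obtain ⟨Δ, hΔ, hΔd, hΔc⟩ : ∃ Δ ⊆ pts Γ W S, (∀ g ∈ Δ, ∀ g' ∈ Δ, g - g' ∈ K → g = g') ∧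
        ∀ s ∈ pts Γ W S, ∃ g ∈ Δ, s - g ∈ K := by
      let rep : (σ → ℤ) → (σ → ℤ) ⧸ K := QuotientAddGroup.mk
      have h1 : ∀ x ∈ (pts Γ W S).image rep, ∃ s ∈ pts Γ W S, rep s = x := by
        intro x hx
        obtain ⟨s, hs, h⟩ := Finset.mem_image.mp hx
        exact ⟨s, hs, h⟩
      choose! sec hsec1 hsec2 using h1
      have hrepK : ∀ s t : σ → ℤ, rep s = rep t ↔ s - t ∈ K := by
        intro s t
        rw [eq_comm]
        show (QuotientAddGroup.mk t : (σ → ℤ) ⧸ K) = QuotientAddGroup.mk s ↔ _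
        rw [QuotientAddGroup.eq, neg_add_eq_sub]
      refine ⟨((pts Γ W S).image rep).image sec, ?_, ?_, ?_⟩
      · intro s hs
        obtain ⟨x, hx, rfl⟩ := Finset.mem_image.mp hs
        exact hsec1 x hx
      · intro g hg g' hg' h
        obtain ⟨x, hx, rfl⟩ := Finset.mem_image.mp hg
        obtain ⟨x', hx', rfl⟩ := Finset.mem_image.mp hg'
        have h2 := (hrepK _ _).mpr h
        rw [hsec2 x hx, hsec2 x' hx'] at h2
        rw [h2]
      · intro s hs
        refine ⟨sec (rep s), Finset.mem_image_of_mem _ (Finset.mem_image_of_mem _ hs), ?_⟩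
        rw [← hrepK, hsec2 _ (Finset.mem_image_of_mem _ hs)]
    have hcount : (pts Γ W S).card ≤ Δ.card * CL.card := by
      have h1 : pts Γ W S ⊆ Δ.biUnion (fun g => (pts Γ W S).filter (fun t => t - g ∈ K)) := by
        intro s hs
        obtain ⟨g, hg, h⟩ := hΔc s hs
        rw [Finset.mem_biUnion]
        exact ⟨g, hg, Finset.mem_filter.mpr ⟨hs, h⟩⟩
      calc (pts Γ W S).card ≤ _ := Finset.card_le_card h1
        _ ≤ ∑ g ∈ Δ, ((pts Γ W S).filter (fun t => t - g ∈ K)).card := Finset.card_biUnion_le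
        _ ≤ ∑ _g ∈ Δ, CL.card := Finset.sum_le_sum (fun g hg => hmax g (hΔ hg))
        _ = _ := by rw [Finset.sum_const, smul_eq_mul]
    -- the subspace
    let K' : Set (σ → ℤ) := {s | s ∈ K ∧ qc s ∈ W}
    set W' : Submodule ℚ (σ → ℚ) := Submodule.span ℚ (qc '' K') ⊔ (W ⊓ R) with hW'
    have hW'W : W' ≤ W := by
      apply sup_le
      · rw [Submodule.span_le]
        rintro _ ⟨s, hs, rfl⟩
        exact hs.2
      · exact inf_le_left
    have hRW' : W ⊓ R ≤ W' := le_sup_right
    have hdW' := dim_between a J R W W' hR0 hker hRW' hW'W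
    set r := Module.finrank ℚ (Submodule.span ℚ
      (qc '' ((K.map (FZ a J) : AddSubgroup ({j // j ∈ J} → ℤ)) :
        Set ({j // j ∈ J} → ℤ)))) with hr
    have hmapr : Module.finrank ℚ (W'.map (FL a J)) ≤ r := by
      rw [hr]
      apply Submodule.finrank_mono
      rw [hW', Submodule.map_sup, Submodule.map_span]
      apply sup_le
      · apply Submodule.span_mono
        rintro _ ⟨_, ⟨s, hs, rfl⟩, rfl⟩
        rw [FL_qc]
        exact ⟨FZ a J s, AddSubgroup.mem_map.mpr ⟨s, hs.1, rfl⟩, rfl⟩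
      · rintro _ ⟨x, hx, rfl⟩
        have : FL a J x = 0 := by
          funext j
          exact hR0 x hx.2 j.1 j.2
        rw [this]
        exact Submodule.zero_mem _
    refine ⟨W', hW'W, hRW', by omega, ?_⟩
    have hCLcard : CL.card ≤ (pts Γ W' (2 * S)).card := by
      apply Finset.card_le_card_of_injOn (fun s => s - s0)
      · intro s hs
        rw [hCL, Finset.mem_coe, Finset.mem_filter] at hs
        rw [Finset.mem_coe, mem_pts]
        have h1 := mem_pts.mp hs.1
        have h2 := mem_pts.mp hs0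
        have hq' : qc (s - s0) ∈ W := by
          rw [qc_sub]
          exact W.sub_mem h1.2.2 h2.2.2
        refine ⟨?_, Γ.sub_mem h1.2.1 h2.2.1, ?_⟩
        · intro j
          show |s j - s0 j| ≤ ((2 * S : ℕ) : ℤ)
          have h3 := h1.1 j
          have h4 := h2.1 j
          have h5 := abs_sub (s j) (s0 j)
          push_cast
          linarith
        · exact Submodule.mem_sup_left (Submodule.subset_span ⟨s - s0, ⟨hs.2, hq'⟩, rfl⟩)
      · intro s _ t _ hst
        exact sub_left_injective hst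
    have hΔcard := hK2 Δ hΔ hΔd
    have hexp : c - r ≤ Module.finrank ℚ W - Module.finrank ℚ W' := by omega
    have hexp2 : Module.finrank ℚ W - Module.finrank ℚ W' ≤ Fintype.card σ := by omega
    calc (pts Γ W S).card ≤ Δ.card * CL.card := hcount
      _ ≤ (2 ^ ((c + 2) * (c + 1)) * (S * G0) ^ (c - r)) * (pts Γ W' (2 * S)).card :=
          Nat.mul_le_mul hΔcard hCLcard
      _ ≤ (2 ^ ((Fintype.card σ + 2) * (Fintype.card σ + 1)) *
          G0 ^ Fintype.card σ) * S ^ (Module.finrank ℚ W - Module.finrank ℚ W') *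
            (pts Γ W' (2 * S)).card := by
          apply Nat.mul_le_mul_right
          rw [mul_pow]
          calc 2 ^ ((c + 2) * (c + 1)) * (S ^ (c - r) * G0 ^ (c - r)) =
                2 ^ ((c + 2) * (c + 1)) * G0 ^ (c - r) * S ^ (c - r) := by ring
            _ ≤ _ := by
                apply Nat.mul_le_mul
                · exact Nat.mul_le_mul hcc (Nat.pow_le_pow_right hG0 (by omega))
                · exact Nat.pow_le_pow_right hS hexp

end Pool.Agent.Y913.Sm
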