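import Pool.Agent.Y913.Sm.Alt

/-!
Simultaneous `p`-adic relations, VIII: the core contradiction.
-/

set_option autoImplicit false

namespace Pool.Agent.Y913.Sm

open Finset Pool.Agent.Y913 Pool.Agent.Y913.Bk

variable {σ : Type} [Fintype σ] [DecidableEq σ]

/-- the vectors whose monomial is `1` modulo `p` -/
noncomputable def Γ1 (p : ℕ) (q : σ → ℕ) : AddSubgroup (σ → ℤ) where
  carrier := {s | um (p ^ 1) q s = 1}
  zero_mem' := by simp [um]
  add_mem' := by
    intro s t hs ht
    show um (p ^ 1) q (s + t) = 1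
    have hs' : um (p ^ 1) q s = 1 := hs
    have ht' : um (p ^ 1) q t = 1 := ht
    rw [um_add, hs', ht', one_mul]
  neg_mem' := by
    intro s hs
    show um (p ^ 1) q (-s) = 1
    have hs' : um (p ^ 1) q s = 1 := hs
    have h1 : -s = (-1 : ℤ) • s := by simp
    rw [h1, um_zsmul, hs', one_zpow]

omit [DecidableEq σ] in
lemma mem_Γ1 {p : ℕ} {q : σ → ℕ} {s : σ → ℤ} : s ∈ Γ1 p q ↔ um (p ^ 1) q s = 1 := Iff.rfl

omit [Fintype σ] [DecidableEq σ] in
lemma list_sum_abs {S : ℕ} (ss : List (σ → ℤ)) (h : ∀ s ∈ ss, ∀ j, |s j| ≤ S) (j : σ) :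
    |ss.sum j| ≤ ss.length * S := by
  induction ss with
  | nil => simp
  | cons s ss ih =>
    have h1 := ih (fun t ht => h t (List.mem_cons_of_mem _ ht))
    have h2 := h s List.mem_cons_self j
    rw [List.sum_cons, Pi.add_apply, List.length_cons]
    have h3 := abs_add_le (s j) (ss.sum j)
    push_cast
    linarith

theorem sim_core {k p M B X : ℕ} [Fact p.Prime] (hM : 2 ≤ M) (hk : 1 ≤ k) (q : σ → ℕ)
    (hq : ∀ j, 1 ≤ q j ∧ q j ≤ X) (hqp : ∀ j, (q j).Coprime p)
    (hind : ∀ s : σ → ℤ, uq q s = 1 → s = 0) (v : Fin k → σ → ℤ) (hv : ∀ i j, |v i j| ≤ B)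
    (hli : LinearIndependent ℚ (fun i => qc (v i))) (hrel : ∀ i, um (p ^ M) q (v i) = 1)
    (L D1 G0 j1 ν P : ℕ) (hL : 1 ≤ L)
    (n1 : (4 * k * B + 1) ^ k < p ^ (ν + 1))
    (n2 : 4 * (1 + 4 * Fintype.card σ * L) ^ Fintype.card σ < D1)
    (n3 : G0 = 2 * (Fintype.card σ + 1) * D1)
    (n4 : ν + 4 * (Fintype.card σ * L * (2 ^ j1 * G0)) ≤ M)
    (n5a : Fintype.card σ * (2 * ((4 * k * B + 1) ^ k) ^ Fintype.card σ) *
      ((Fintype.card σ + 1) * 2 ^ j1) ≤ 2 ^ L)
    (n5b : X ≤ 2 ^ L) (n5c : 2 ^ j1 * G0 ≤ 2 ^ L) (n5d : D1 ≤ 2 ^ L)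
    (n6a : 3 ^ Fintype.card σ < P)
    (n6b : 2 ^ ((Fintype.card σ + 2) * (Fintype.card σ + 1)) * D1 * G0 ^ Fintype.card σ < P)
    (n6c : 2 ^ ((Fintype.card σ + 2) * (Fintype.card σ + 1)) * G0 ^ Fintype.card σ *
      9 ^ Fintype.card σ ≤ P)
    (n7 : p * P ^ Fintype.card σ ≤ (2 ^ j1) ^ k) : False := by
  classical
  have hp : p.Prime := Fact.out
  obtain ⟨N, hN⟩ : ∃ N, N = Fintype.card σ := ⟨_, rfl⟩
  rw [← hN] at n2 n3 n4 n5a n6a n6b n6c n7
  obtain ⟨R, hR⟩ : ∃ R, R = Submodule.span ℚ (Set.range (fun i => qc (v i))) := ⟨_, rfl⟩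
  have hRk : Module.finrank ℚ R = k := by
    rw [hR, finrank_span_eq_card hli, Fintype.card_fin]
  have hN1 : 1 ≤ N := by
    have h1 := Submodule.finrank_le R
    rw [Module.finrank_fintype_fun_eq_card, hRk, ← hN] at h1
    omega
  have hD1pos : 1 ≤ D1 := by omega
  have hG0pos : 2 ≤ G0 := by rw [n3]; nlinarith
  have hG01 : 1 ≤ G0 := by omega
  obtain ⟨J, a, ha, hkernel, hW⟩ := rep_data hp hM q hqp v hv hli hrel
  rw [← hR] at hkernel
  simp_rw [← hR] at hW
  rw [← hN] at ha
  have : NeZero (p ^ 1) := ⟨by rw [pow_one]; exact hp.ne_zero⟩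
  apply extremal (Γ1 p q) R p P (2 ^ ((N + 2) * (N + 1)) * G0 ^ N) j1
  · rw [hRk]; exact hk
  · rw [← hN]; exact n6a
  · rw [← hN]; exact n6c
  · rw [hRk, ← hN]; exact n7
  · have h1 := pts_top (Γ1 p q) (um (p ^ 1) q) (by
      intro s t
      have h1 : s - t = s + (-1 : ℤ) • t := by
        rw [neg_one_smul]; abel
      rw [h1, um_add, um_zsmul, zpow_neg_one]) (fun s => mem_Γ1) (2 ^ j1)
    refine h1.trans (Nat.mul_le_mul_right _ ?_)
    rw [ZMod.card_units_eq_totient, pow_one]
    exact Nat.totient_le p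
  · intro j hj W hWR
    obtain ⟨J', hJ'J, hJ'li, hJ'ker, hrep⟩ := hW W
    obtain ⟨S, hS⟩ : ∃ S, S = 2 ^ j := ⟨_, rfl⟩
    have hS1 : 1 ≤ S := by rw [hS]; exact Nat.one_le_two_pow
    have hSj1 : S ≤ 2 ^ j1 := by rw [hS]; exact Nat.pow_le_pow_right (by norm_num) hj
    rw [← hS]
    obtain ⟨m', hm'⟩ : ∃ m', m' = N * L * (S * G0) := ⟨_, rfl⟩
    have hm'1 : 1 ≤ m' := by
      rw [hm']
      exact Nat.mul_pos (Nat.mul_pos (by omega) (by omega)) (Nat.mul_pos (by omega) (by omega))
    have hνm : ν + 4 * m' ≤ M := by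
      refine le_trans ?_ n4
      apply Nat.add_le_add_left
      apply Nat.mul_le_mul_left
      rw [hm']
      apply Nat.mul_le_mul_left
      exact Nat.mul_le_mul_right _ hSj1
    obtain ⟨C, hC1, hC2⟩ := hrep (4 * m') ν hνm n1
    have hcJ : Fintype.card {j // j ∈ J'} ≤ N := by
      rw [Fintype.card_coe, hN]
      exact Finset.card_le_univ _
    obtain ⟨c, hc⟩ : ∃ c, c = Fintype.card {j // j ∈ J'} := ⟨_, rfl⟩
    have hpm' : 1 ≤ p ^ m' := Nat.one_le_pow _ _ hp.pos
    have h2p : ∀ e : ℕ, 2 ^ e ≤ p ^ e := fun e => Nat.pow_le_pow_left hp.two_le e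
    have hLpos : 1 ≤ 2 ^ L := Nat.one_le_two_pow
    obtain ⟨G, hG0, hG⟩ := schneider (σ := σ) (ι := {j // j ∈ J'}) p (4 * m') (S * G0) D1
      (S * G0 + 4 * m') (p ^ m' - 1) (2 ^ L) ((N + 1) * S) (2 ^ L) hD1pos C hC1 le_rfl
      (by
        rw [← hc]
        have e1 : p ^ m' - 1 + 1 = p ^ m' := by omega
        rw [e1, ← pow_mul, ← pow_mul]
        apply Nat.pow_lt_pow_right hp.one_lt
        have e2 : S * G0 + 4 * m' = (S * G0) * (1 + 4 * N * L) := by rw [hm']; ring
        rw [e2, mul_pow]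
        have h1 : (1 + 4 * N * L) ^ c ≤ (1 + 4 * N * L) ^ N :=
          Nat.pow_le_pow_right (by omega) (by omega)
        have h2 : 0 < (S * G0) ^ c := Nat.pow_pos (Nat.mul_pos (by omega) (by omega))
        calc 4 * m' * ((S * G0) ^ c * (1 + 4 * N * L) ^ c) =
              m' * ((S * G0) ^ c * (4 * (1 + 4 * N * L) ^ c)) := by ring
          _ < m' * ((S * G0) ^ c * D1) := by
              apply Nat.mul_lt_mul_of_pos_left _ (by omega)
              apply Nat.mul_lt_mul_of_pos_left _ h2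
              omega)
      (FZ a J') q (fun j => ⟨(hq j).1, (hq j).2.trans n5b⟩) hqp hLpos hLpos
      (by
        rw [← hc, ← hN]
        have h1 : p ^ m' - 1 < p ^ m' := by omega
        have h2 : (2 ^ L) ^ (c * (S * G0)) ≤ p ^ m' := by
          calc (2 ^ L) ^ (c * (S * G0)) ≤ (2 ^ L) ^ (N * (S * G0)) :=
                Nat.pow_le_pow_right hLpos (Nat.mul_le_mul_right _ (by omega))
            _ = 2 ^ m' := by rw [← pow_mul, hm']; congr 1; ring
            _ ≤ p ^ m' := h2p _
        have h3 : (((2 ^ L) ^ (N * ((N + 1) * S))) ^ 2) ^ D1 ≤ p ^ m' := by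
          calc (((2 ^ L) ^ (N * ((N + 1) * S))) ^ 2) ^ D1 = 2 ^ m' := by
                rw [← pow_mul, ← pow_mul, ← pow_mul, hm', n3]
                congr 1
                ring
            _ ≤ p ^ m' := h2p _
        have h4 : (S * G0) ^ c * D1 ≤ p ^ m' := by
          have h5 : (S * G0) ^ c ≤ (2 ^ L) ^ N := by
            calc (S * G0) ^ c ≤ (2 ^ L) ^ c := by
                  apply Nat.pow_le_pow_left
                  exact (Nat.mul_le_mul_right _ hSj1).trans n5c
              _ ≤ (2 ^ L) ^ N := Nat.pow_le_pow_right hLpos (by omega)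
          calc (S * G0) ^ c * D1 ≤ (2 ^ L) ^ N * 2 ^ L := Nat.mul_le_mul h5 n5d
            _ = 2 ^ (L * N + L) := by rw [← pow_mul, ← pow_add]
            _ ≤ 2 ^ m' := by
                apply Nat.pow_le_pow_right (by norm_num)
                rw [hm']
                have h6 : 2 ≤ S * G0 := by nlinarith
                calc L * N + L ≤ L * N + L * N := by nlinarith
                  _ = N * L * 2 := by ring
                  _ ≤ N * L * (S * G0) := Nat.mul_le_mul_left _ h6
            _ ≤ p ^ m' := h2p _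
        have h5 : p ^ (4 * m') = p ^ m' * (p ^ m' * (p ^ m' * p ^ m')) := by
          rw [← pow_add, ← pow_add, ← pow_add]
          congr 1
          ring
        rw [h5]
        calc (S * G0) ^ c * D1 * ((p ^ m' - 1) * ((2 ^ L) ^ (c * (S * G0)) *
              (((2 ^ L) ^ (N * ((N + 1) * S))) ^ 2) ^ D1)) ≤
              p ^ m' * ((p ^ m' - 1) * (p ^ m' * p ^ m')) :=
              Nat.mul_le_mul h4 (Nat.mul_le_mul_left _ (Nat.mul_le_mul h2 h3))
          _ < p ^ m' * (p ^ m' * (p ^ m' * p ^ m')) := by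
              apply Nat.mul_lt_mul_of_pos_left _ hpm'
              apply Nat.mul_lt_mul_of_pos_right h1
              exact Nat.mul_pos hpm' hpm')
    have halt := alt_one (Γ1 p q) a J' R W
      (fun x hx j hj => (hkernel x).mpr hx j (hJ'J hj)) hJ'ker hJ'li S G0 D1 hS1 hG01 hD1pos q
      (fun j => (hq j).1) hind G hG0 (by
        intro ss hlen hss
        have hΓ : ss.sum ∈ Γ1 p q := AddSubgroup.list_sum_mem _ (fun s hs =>
          (mem_pts.mp (hss s hs)).2.1)
        have hWs : qc ss.sum ∈ W := by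
          clear hlen hΓ
          induction ss with
          | nil => rw [List.sum_nil, qc_zero]; exact W.zero_mem
          | cons s ss ih =>
            rw [List.sum_cons, qc_add]
            exact W.add_mem (mem_pts.mp (hss s List.mem_cons_self)).2.2
              (ih (fun t ht => hss t (List.mem_cons_of_mem _ ht)))
        have habs : ∀ j, |ss.sum j| ≤ (((N + 1) * S : ℕ) : ℤ) := by
          intro j
          have h1 := list_sum_abs (S := S) ss (fun s hs => (mem_pts.mp (hss s hs)).1) j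
          refine h1.trans ?_
          exact_mod_cast Nat.mul_le_mul_right _ (by omega)
        apply hG _ habs
        · intro i
          show |fz a ss.sum i.1| ≤ _
          rw [fz_apply]
          calc |∑ l, a i.1 l * ss.sum l| ≤ ∑ l, |a i.1 l * ss.sum l| :=
                Finset.abs_sum_le_sum_abs _ _
            _ ≤ ∑ _l : σ, (2 * (((4 * k * B + 1) ^ k) ^ N : ℕ) : ℤ) *
                  (((N + 1) * S : ℕ) : ℤ) := by
                apply Finset.sum_le_sum
                intro l _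
                rw [abs_mul]
                exact mul_le_mul (ha i.1 l) (habs l) (abs_nonneg _) (by positivity)
            _ = ((N * (2 * ((4 * k * B + 1) ^ k) ^ N) * ((N + 1) * S) : ℕ) : ℤ) := by
                rw [Finset.sum_const, Finset.card_univ, ← hN, nsmul_eq_mul]
                push_cast
                ring
            _ ≤ ((2 ^ L : ℕ) : ℤ) := by
                exact_mod_cast (Nat.mul_le_mul_left _ (Nat.mul_le_mul_left _ hSj1)).trans n5a
        · exact hC2 _ hWs hΓ)
    rw [← hN] at halt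
    rcases halt with h | h
    · left
      refine lt_of_le_of_lt h ?_
      apply Nat.mul_lt_mul_of_pos_right n6b
      exact Nat.pow_pos (by omega)
    · right
      exact h

end Pool.Agent.Y913.Sm
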