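import Pool.Agent.Y913.Sm.Few

/-!
Simultaneous `p`-adic relations, XII: few pairs with few primes are close modulo the powers of a
given prime, all heights.
-/

set_option autoImplicit false

namespace Pool.Agent.Y913.Sm

open Finset Pool.Agent.Y913 Pool.Agent.Y913.Bk

lemma close_ne {n : ℕ} {δ K Y : ℝ} (hδ : 0 < δ) {p : ℕ} (hp : p.Prime) {s : ℤ}
    (hs : s = 1 ∨ s = -1) {q : ℕ × ℕ} (hq : PadClose n δ K Y p s q) : ∀ l ∈ prs q, l ≠ p := by
  obtain ⟨h1, h2, h3, h4, h5, h6, k, h7, h8⟩ := hq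
  intro l hl
  rintro rfl
  have hq2 : (1 : ℝ) < q.2 := by exact_mod_cast (by omega : 1 < q.2)
  have hk : k ≠ 0 := by
    rintro rfl
    rw [pow_zero] at h8
    have := Real.one_lt_rpow hq2 hδ
    linarith
  have hpd : (l : ℤ) ∣ (q.2 : ℤ) - s * q.1 := by
    refine dvd_trans ?_ h7
    push_cast
    exact dvd_pow_self _ hk
  have hs2 : s * s = 1 := by rcases hs with rfl | rfl <;> norm_num
  unfold prs at hl
  have hd := Nat.dvd_of_mem_primeFactors hl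
  have hboth : l ∣ q.1 ∧ l ∣ q.2 := by
    rcases (Nat.Prime.dvd_mul hp).mp hd with h | h
    · refine ⟨h, ?_⟩
      have h3 : (l : ℤ) ∣ s * q.1 := Dvd.dvd.mul_left (Int.natCast_dvd_natCast.mpr h) s
      have := dvd_add hpd h3
      rw [sub_add_cancel] at this
      exact Int.natCast_dvd_natCast.mp this
    · refine ⟨?_, h⟩
      have h2 : (l : ℤ) ∣ s * q.1 := by
        have := dvd_sub (Int.natCast_dvd_natCast.mpr h : (l : ℤ) ∣ (q.2 : ℤ)) hpd
        rwa [sub_sub_cancel] at this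
      have h3 : (l : ℤ) ∣ (q.1 : ℤ) := by
        have h4 := Dvd.dvd.mul_left h2 s
        rwa [← mul_assoc, hs2, one_mul] at h4
      exact Int.natCast_dvd_natCast.mp h3
  have := Nat.dvd_gcd hboth.1 hboth.2
  rw [h3] at this
  exact hp.one_lt.ne' (Nat.dvd_one.mp this)

/-- the exponent of a close pair -/
lemma close_exp {δ : ℝ} (hδ : 0 < δ) {p : ℕ} (hp : p.Prime) {s : ℤ} {q : ℕ × ℕ} {k : ℕ}
    (h2 : 1 < q.2) (h7 : ((p ^ k : ℕ) : ℤ) ∣ (q.2 : ℤ) - s * q.1)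
    (h8 : (q.2 : ℝ) ^ δ ≤ (p : ℝ) ^ k) {H : ℝ} (hH : H ≤ Real.log q.2) :
    ((p ^ ⌈δ * H / Real.log p⌉₊ : ℕ) : ℤ) ∣ (q.2 : ℤ) - s * q.1 := by
  refine dvd_trans ?_ h7
  have hp1 : (1 : ℝ) < p := by exact_mod_cast hp.one_lt
  have hlp : 0 < Real.log p := Real.log_pos hp1
  have hq2 : (0 : ℝ) < q.2 := by exact_mod_cast (by omega : 0 < q.2)
  have hk : ⌈δ * H / Real.log p⌉₊ ≤ k := by
    rw [Nat.ceil_le, div_le_iff₀ hlp]
    have h9 := Real.log_le_log (by positivity) h8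
    rw [Real.log_rpow hq2, Real.log_pow] at h9
    have h10 : δ * H ≤ δ * Real.log q.2 := mul_le_mul_of_nonneg_left hH hδ.le
    linarith
  exact_mod_cast pow_dvd_pow p hk

/-- low heights -/
theorem padic_low (n : ℕ) (δ ε : ℝ) (hδ : 0 < δ) (hε : 0 < ε) : ∃ K C η : ℝ, 0 < K ∧ 0 < C ∧
    0 < η ∧ η ≤ 1 ∧ ∀ Y : ℝ, 1 ≤ Y → ∀ p : ℕ, p.Prime → (p : ℝ) ≤ Y → ∀ s : ℤ,
      (s = 1 ∨ s = -1) → ∀ Q : Finset (ℕ × ℕ),
      (∀ q ∈ Q, PadClose n δ K Y p s q ∧ Real.log q.2 ≤ Y ^ η) →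
      (Q.card : ℝ) ≤ C * Y ^ ε := by
  classical
  obtain ⟨K0, C, hC, hcount⟩ := padic_count n (ε / 2) (by positivity)
  obtain ⟨η, hη⟩ : ∃ η : ℝ, η = min 1 (ε / (2 * (n + 1))) := ⟨_, rfl⟩
  have hη0 : 0 < η := by rw [hη]; positivity
  have hη1 : η ≤ 1 := by rw [hη]; exact min_le_left _ _
  have hη2 : η ≤ ε / (2 * (n + 1)) := by rw [hη]; exact min_le_right _ _
  obtain ⟨K, hKdef⟩ : ∃ K : ℝ, K = (3 + 3 * K0) / δ := ⟨_, rfl⟩
  have hK : 0 < K := by rw [hKdef]; positivity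
  refine ⟨K, C * 4 ^ n, η, hK, by positivity, hη0, hη1, ?_⟩
  intro Y hY p hp hpY s hs Q hQ
  have hY0 : 0 < Y := by linarith
  have hp2 : (2 : ℝ) ≤ p := by exact_mod_cast hp.two_le
  have hY2 : 2 ≤ Y := by linarith
  obtain ⟨A, hA⟩ : ∃ A : ℕ, A = ⌊Y⌋₊ := ⟨_, rfl⟩
  have hA2 : 2 ≤ A := by rw [hA]; exact Nat.le_floor (by push_cast; linarith)
  have hAY : (A : ℝ) ≤ Y := by rw [hA]; exact Nat.floor_le (by linarith)
  have hpA : p ≤ A := by
    rw [hA]
    exact Nat.le_floor hpY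
  have hYη : 1 ≤ Y ^ η := Real.one_le_rpow hY hη0.le
  obtain ⟨H, hH⟩ : ∃ H : ℝ, H = Y ^ η := ⟨_, rfl⟩
  have hH1 : 1 ≤ H := by rw [hH]; exact hYη
  have hHY : H ≤ Y := by
    rw [hH]
    calc Y ^ η ≤ Y ^ (1 : ℝ) := Real.rpow_le_rpow_of_exponent_le hY hη1
      _ = Y := Real.rpow_one Y
  obtain ⟨E, hE⟩ : ∃ E : ℕ, E = ⌊H / Real.log 2⌋₊ := ⟨_, rfl⟩
  have hE4 : ((2 * E + 1 : ℕ) : ℝ) ≤ 4 * H := by rw [hE]; exact two_E_le hH1
  have hE2 : (E : ℝ) ≤ 2 * H := by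
    push_cast at hE4
    linarith
  have hp0 : (0 : ℝ) < p := by linarith
  have hlp : 0 < Real.log p := Real.log_pos (by linarith)
  obtain ⟨M, hM⟩ : ∃ M : ℕ, M = ⌊K * δ * Real.log Y / Real.log p⌋₊ := ⟨_, rfl⟩
  have hlY : 0 ≤ Real.log Y := Real.log_nonneg hY
  have hM1 : (p : ℝ) ^ M ≤ Y ^ (K * δ) := by
    have h1 : (M : ℝ) * Real.log p ≤ K * δ * Real.log Y := by
      rw [hM]
      have := Nat.floor_le (by positivity : 0 ≤ K * δ * Real.log Y / Real.log p)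
      rwa [le_div_iff₀ hlp] at this
    have h2 : Real.log ((p : ℝ) ^ M) ≤ Real.log (Y ^ (K * δ)) := by
      rw [Real.log_pow, Real.log_rpow hY0]
      exact h1
    exact (Real.log_le_log_iff (by positivity) (by positivity)).mp h2
  have hM2 : Y ^ (K * δ) ≤ (p : ℝ) ^ (M + 1) := by
    have h1 : K * δ * Real.log Y ≤ ((M : ℝ) + 1) * Real.log p := by
      rw [hM]
      have := (Nat.lt_floor_add_one (K * δ * Real.log Y / Real.log p)).le
      rwa [div_le_iff₀ hlp] at this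
    have h2 : Real.log (Y ^ (K * δ)) ≤ Real.log ((p : ℝ) ^ (M + 1)) := by
      rw [Real.log_pow, Real.log_rpow hY0]
      push_cast
      exact h1
    exact (Real.log_le_log_iff (by positivity) (by positivity)).mp h2
  have hEM : E * A ^ (3 * K0) ≤ p ^ M := by
    have h1 : (E : ℝ) * (A : ℝ) ^ (3 * K0) ≤ (p : ℝ) ^ M := by
      have h2 : (p : ℝ) * ((E : ℝ) * (A : ℝ) ^ (3 * K0)) ≤ (p : ℝ) ^ (M + 1) := by
        refine le_trans ?_ hM2
        have h3 : (A : ℝ) ^ (3 * K0) ≤ Y ^ (3 * K0) := pow_le_pow_left₀ (by positivity) hAY _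
        have hKδ : K * δ = 3 + 3 * K0 := by
          rw [hKdef]
          field_simp
        calc (p : ℝ) * ((E : ℝ) * (A : ℝ) ^ (3 * K0))
            ≤ Y * ((Y * Y) * Y ^ (3 * K0)) := by
              have h7 : (E : ℝ) ≤ Y * Y := by nlinarith
              gcongr
          _ = Y ^ (3 + 3 * K0) := by
              rw [pow_add]
              ring
          _ = Y ^ (K * δ) := by
              rw [hKδ, ← Real.rpow_natCast]
              push_cast
              rfl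
      rw [pow_succ'] at h2
      exact le_of_mul_le_mul_left h2 hp0
    exact_mod_cast h1
  have hsu : IsUnit ((s : ℤ) : ZMod (p ^ M)) := by
    rcases hs with rfl | rfl
    · simp
    · simp
  obtain ⟨κu, hκu⟩ := hsu
  have key := hcount A p E M hA2 hp hpA hEM κu Q (by
    intro q hq
    obtain ⟨hq1, h9⟩ := hQ q hq
    have hne := close_ne hδ hp hs hq1
    obtain ⟨h1, h2, h3, h4, h5, h6, k, h7, h8⟩ := hq1
    have hE2' : q.2 < 2 ^ (E + 1) := by
      rw [hE]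
      exact lt_two_pow_of_log (h1.trans h2) (by rw [hH]; exact h9)
    have hMk : M ≤ k := by
      have h10 : (p : ℝ) ^ M ≤ (p : ℝ) ^ k := by
        calc (p : ℝ) ^ M ≤ Y ^ (K * δ) := hM1
          _ = (Y ^ K) ^ δ := by rw [Real.rpow_mul hY0.le]
          _ ≤ (q.2 : ℝ) ^ δ := Real.rpow_le_rpow (by positivity) h6 hδ.le
          _ ≤ (p : ℝ) ^ k := h8
      exact (pow_le_pow_iff_right₀ (by linarith : (1 : ℝ) < p)).mp h10
    refine ⟨h1, h1.trans h2, h3, h4, h2.trans hE2', hE2', ?_, ?_⟩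
    · intro l hl
      exact ⟨by rw [hA]; exact Nat.le_floor (h5 l hl), hne l hl⟩
    · rw [hκu]
      have h10 : ((q.2 : ℤ) : ZMod (p ^ M)) = ((s * q.1 : ℤ) : ZMod (p ^ M)) := by
        rw [← sub_eq_zero, ← Int.cast_sub, ZMod.intCast_zmod_eq_zero_iff_dvd]
        refine dvd_trans ?_ h7
        push_cast
        exact pow_dvd_pow _ hMk
      push_cast at h10
      exact h10)
  refine key.trans ?_
  have hE1 : (2 * (E : ℝ) + 1) ^ n ≤ (4 * H) ^ n := by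
    push_cast at hE4
    gcongr
  have hAε : (A : ℝ) ^ (ε / 2) ≤ Y ^ (ε / 2) :=
    Real.rpow_le_rpow (by positivity) hAY (by positivity)
  have h1 : (Y ^ η) ^ n * Y ^ (ε / 2) ≤ Y ^ ε := by
    rw [← Real.rpow_natCast, ← Real.rpow_mul hY0.le, ← Real.rpow_add hY0]
    apply Real.rpow_le_rpow_of_exponent_le hY
    have hn0 : (0 : ℝ) ≤ n := Nat.cast_nonneg _
    have h2 : η * n ≤ ε / 2 := by
      calc η * n ≤ ε / (2 * (n + 1)) * n := by gcongr
        _ ≤ ε / 2 := by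
            rw [div_mul_eq_mul_div, div_le_div_iff₀ (by positivity) (by norm_num)]
            nlinarith [mul_nonneg hε.le hn0]
    linarith
  calc C * (2 * (E : ℝ) + 1) ^ n * (A : ℝ) ^ (ε / 2) ≤ C * (4 * H) ^ n * Y ^ (ε / 2) := by gcongr
    _ = C * 4 ^ n * ((Y ^ η) ^ n * Y ^ (ε / 2)) := by
        rw [hH, mul_pow]
        ring
    _ ≤ C * 4 ^ n * Y ^ ε := mul_le_mul_of_nonneg_left h1 (by positivity)

/-- heights of close pairs are polynomially bounded -/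
theorem height_unif (n : ℕ) (δ : ℝ) (hδ : 0 < δ) : ∃ C : ℝ, ∃ κ : ℕ, 1 ≤ C ∧
    ∀ Y : ℝ, 1 ≤ Y → ∀ p : ℕ, p.Prime → (p : ℝ) ≤ Y → ∀ s : ℤ, (s = 1 ∨ s = -1) → ∀ K : ℝ,
      ∀ q : ℕ × ℕ, PadClose n δ K Y p s q → Real.log q.2 ≤ C * Y ^ κ := by
  choose Ch κ hCh hh using fun m => padic_height m δ hδ
  obtain ⟨κs, hκs⟩ : ∃ κs : ℕ, κs = ∑ m ∈ Finset.range (n + 1), κ m := ⟨_, rfl⟩
  have hκm : ∀ m ≤ n, κ m ≤ κs := by
    intro m hm
    rw [hκs]
    exact Finset.single_le_sum (f := κ) (fun _ _ => Nat.zero_le _)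
      (Finset.mem_range.mpr (by omega))
  have hsum0 : 0 ≤ ∑ m ∈ Finset.range (n + 1), Ch m := Finset.sum_nonneg (fun m _ => (hCh m).le)
  refine ⟨(∑ m ∈ Finset.range (n + 1), Ch m + 1) * 2 ^ κs, κs, ?_, ?_⟩
  · have h1 : (1 : ℝ) ≤ 2 ^ κs := one_le_pow₀ (by norm_num)
    nlinarith
  · intro Y hY p hp hpY s hs K q hq
    obtain ⟨h1, h2, h3, h4, h5, h6, k, h7, h8⟩ := hq
    have h9 := hh (prs q).card Y hY p k hp s hs q h1 h2 h3 rfl h5 h7 h8
    have hlY : 0 ≤ Real.log Y := Real.log_nonneg hY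
    have h10 : p + (1 + Real.log Y) ≤ 2 * Y := by
      have := Real.log_le_sub_one_of_pos (by linarith : 0 < Y)
      linarith
    have h11 : 1 ≤ 2 * Y := by linarith
    have h12 : 0 ≤ p + (1 + Real.log Y) := by positivity
    have h13 : Ch (prs q).card ≤ ∑ m ∈ Finset.range (n + 1), Ch m + 1 := by
      have := Finset.single_le_sum (f := Ch) (fun m _ => (hCh m).le)
        (Finset.mem_range.mpr (by omega : (prs q).card < n + 1))
      linarith
    calc Real.log q.2 ≤ Ch (prs q).card * (p + (1 + Real.log Y)) ^ κ (prs q).card := h9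
      _ ≤ Ch (prs q).card * (2 * Y) ^ κ (prs q).card := by
          have := hCh (prs q).card
          gcongr
      _ ≤ Ch (prs q).card * (2 * Y) ^ κs := by
          have := hCh (prs q).card
          have h14 := pow_le_pow_right₀ h11 (hκm _ h4)
          gcongr
      _ ≤ (∑ m ∈ Finset.range (n + 1), Ch m + 1) * (2 * Y) ^ κs := by
          gcongr
      _ = _ := by rw [mul_pow]; ring

/-- high heights -/
theorem padic_high (n : ℕ) (δ η : ℝ) (hδ : 0 < δ) (hη : 0 < η) : ∃ C : ℝ, 0 < C ∧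
    ∀ Y : ℝ, 1 ≤ Y → ∀ p : ℕ, p.Prime → (p : ℝ) ≤ Y → ∀ s : ℤ, (s = 1 ∨ s = -1) → ∀ K : ℝ,
      ∀ Q : Finset (ℕ × ℕ), (∀ q ∈ Q, PadClose n δ K Y p s q ∧ Y ^ η ≤ Real.log q.2) →
      (Q.card : ℝ) ≤ C * (1 + Real.log Y) := by
  classical
  obtain ⟨C2, κs, hC2, hheight⟩ := height_unif n δ hδ
  obtain ⟨k0, hk0⟩ : ∃ k0 : ℕ, k0 = ⌈2 / η⌉₊ := ⟨_, rfl⟩
  have hk01 : 1 ≤ k0 := by
    rw [hk0]
    exact Nat.ceil_pos.mpr (by positivity)
  have hk0η : 2 ≤ η * k0 := by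
    have h1 : 2 / η ≤ k0 := by rw [hk0]; exact Nat.le_ceil _
    rw [div_le_iff₀ hη] at h1
    linarith
  obtain ⟨κ, g0, hg0, hfew⟩ := few_primes n k0 hk01
  have hl2 : 0.6931471803 < Real.log 2 := Real.log_two_gt_d9
  have hl2' : Real.log 2 < 0.6931471808 := Real.log_two_lt_d9
  have hl20 : 0 < Real.log 2 := by linarith
  have hl6 : 0 ≤ Real.log (6 * C2) := Real.log_nonneg (by linarith)
  obtain ⟨C3, hC3⟩ : ∃ C3 : ℝ, C3 = (Real.log (6 * C2) + κs + 1) / Real.log 2 := ⟨_, rfl⟩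
  have hC30 : 0 ≤ C3 := by rw [hC3]; positivity
  obtain ⟨C4, hC4⟩ : ∃ C4 : ℝ, C4 = C3 + 1 + g0 := ⟨_, rfl⟩
  have hC40 : 0 < C4 := by rw [hC4]; positivity
  obtain ⟨D, hD, hlog⟩ := log_pow_le_rpow (κ + k0) (1 / 2) (by norm_num)
  obtain ⟨Y0, hY0def⟩ : ∃ Y0 : ℝ, Y0 = (C4 ^ κ * D / δ ^ k0) ^ 2 := ⟨_, rfl⟩
  have hY0nn : 0 ≤ Y0 := by rw [hY0def]; positivity
  obtain ⟨V, hV⟩ : ∃ V : ℕ, V = ⌈Real.exp (C2 * Y0 ^ κs)⌉₊ := ⟨_, rfl⟩
  obtain ⟨cp, hcp⟩ : ∃ cp : ℕ, cp = (2 * ⌈2 * (((n * k0 : ℕ) : ℝ) + 1) / δ⌉₊ + 1) ^ (n * k0) :=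
    ⟨_, rfl⟩
  obtain ⟨C5, hC5⟩ : ∃ C5 : ℝ, C5 = (Real.log C2 + κs) / Real.log 2 + 1 := ⟨_, rfl⟩
  have hlC2 : 0 ≤ Real.log C2 := Real.log_nonneg hC2
  have hC50 : 0 < C5 := by rw [hC5]; positivity
  refine ⟨((V : ℝ) + 1) ^ 2 + C5 * cp, by positivity, ?_⟩
  intro Y hY p hp hpY s hs K Q hQ
  have hYp : 0 < Y := by linarith
  have hlY : 0 ≤ Real.log Y := Real.log_nonneg hY
  have hp1 : (1 : ℝ) < p := by exact_mod_cast hp.one_lt
  have hlp : 0 < Real.log p := Real.log_pos hp1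
  have hlpY : Real.log p ≤ Real.log Y := Real.log_le_log (by linarith) hpY
  -- the scale
  obtain ⟨g, hg⟩ : ∃ g : ℕ, g = ⌈C3 * (1 + Real.log Y)⌉₊ + g0 := ⟨_, rfl⟩
  have hg1 : C3 * (1 + Real.log Y) ≤ g := by
    rw [hg]; push_cast
    have := Nat.le_ceil (C3 * (1 + Real.log Y))
    have h2 : (0 : ℝ) ≤ g0 := Nat.cast_nonneg _
    linarith
  have hg2 : (g : ℝ) ≤ C4 * (1 + Real.log Y) := by
    rw [hg, hC4]; push_cast
    have := (Nat.ceil_lt_add_one (by positivity : 0 ≤ C3 * (1 + Real.log Y))).le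
    have h2 : (0 : ℝ) ≤ g0 := Nat.cast_nonneg _
    nlinarith
  have hg3 : (Real.log (6 * C2) + κs + 1) * (1 + Real.log Y) ≤ g * Real.log 2 := by
    calc (Real.log (6 * C2) + κs + 1) * (1 + Real.log Y) = C3 * (1 + Real.log Y) * Real.log 2 := by
          rw [hC3]; field_simp
      _ ≤ _ := mul_le_mul_of_nonneg_right hg1 hl20.le
  have hκ0 : (0 : ℝ) ≤ κs := Nat.cast_nonneg _
  have hYg : Y ≤ 2 ^ g := by
    have h1 : Real.log Y ≤ Real.log ((2 : ℝ) ^ g) := by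
      rw [Real.log_pow]
      nlinarith
    exact (Real.log_le_log_iff hYp (by positivity)).mp h1
  obtain ⟨E, hE⟩ : ∃ E : ℕ, E = ⌊C2 * Y ^ κs / Real.log 2⌋₊ + 1 := ⟨_, rfl⟩
  have hYκ : 1 ≤ Y ^ κs := one_le_pow₀ hY
  have hE1 : (2 * (E : ℝ)) ≤ 6 * C2 * Y ^ κs := by
    rw [hE]; push_cast
    have h1 := Nat.floor_le (by positivity : 0 ≤ C2 * Y ^ κs / Real.log 2)
    have h2 : C2 * Y ^ κs / Real.log 2 ≤ 2 * (C2 * Y ^ κs) := by
      rw [div_le_iff₀ hl20]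
      have : 0 ≤ C2 * Y ^ κs := by positivity
      nlinarith
    have h3 : 1 ≤ C2 * Y ^ κs := by nlinarith
    linarith
  have hEg : 2 * E ≤ 2 ^ g := by
    have h1 : Real.log (6 * C2 * Y ^ κs) ≤ Real.log ((2 : ℝ) ^ g) := by
      rw [Real.log_mul (by positivity) (by positivity), Real.log_pow, Real.log_pow]
      nlinarith [mul_nonneg hl6 hlY, mul_nonneg hκ0 hlY]
    have h2 := (Real.log_le_log_iff (by positivity) (by positivity)).mp h1
    have h3 : (2 * (E : ℝ)) ≤ 2 ^ g := hE1.trans h2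
    exact_mod_cast h3
  obtain ⟨M, hM⟩ : ∃ M : ℕ, M = ⌈δ * Y ^ η / Real.log p⌉₊ := ⟨_, rfl⟩
  rcases hfew g (by rw [hg]; omega) p hp (by
      have : (p : ℝ) ≤ 2 ^ g := hpY.trans hYg
      exact_mod_cast this) s hs E M hEg Q (by
      intro q hq
      obtain ⟨hq1, hq2⟩ := hQ q hq
      have hne := close_ne hδ hp hs hq1
      have hht := hheight Y hY p hp hpY s hs K q hq1
      obtain ⟨h1, h2, h3, h4, h5, h6, k, h7, h8⟩ := hq1
      have hq2E : q.2 < 2 ^ E := by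
        rw [hE]
        exact lt_two_pow_of_log (h1.trans h2) hht
      refine ⟨h1, h1.trans h2, h3, h4, ?_, h2.trans hq2E, hq2E, ?_⟩
      · intro l hl
        refine ⟨?_, hne l hl⟩
        have : (l : ℝ) ≤ 2 ^ g := (h5 l hl).trans hYg
        exact_mod_cast this
      · rw [hM]
        exact close_exp hδ hp (by omega) h7 h8 hq2) with hleft | ⟨T, hT, hTc, hTQ⟩
  · -- `Y` is bounded
    have hYY0 : Y ≤ Y0 := by
      have h1 : δ * Y ^ η / (1 + Real.log Y) ≤ M := by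
        calc δ * Y ^ η / (1 + Real.log Y) ≤ δ * Y ^ η / Real.log p := by
              apply div_le_div_of_nonneg_left (by positivity) hlp
              linarith
          _ ≤ M := by rw [hM]; exact Nat.le_ceil _
      have h2 : (δ * Y ^ η / (1 + Real.log Y)) ^ k0 ≤ (M : ℝ) ^ k0 :=
        pow_le_pow_left₀ (by positivity) h1 _
      have h3 : (M : ℝ) ^ k0 ≤ Y * (C4 * (1 + Real.log Y)) ^ κ := by
        calc (M : ℝ) ^ k0 ≤ (p : ℝ) * (g : ℝ) ^ κ := by exact_mod_cast hleft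
          _ ≤ Y * (C4 * (1 + Real.log Y)) ^ κ := by gcongr
      have h4 : δ ^ k0 * Y ^ (2 : ℕ) ≤ Y * (C4 ^ κ * (D * Y ^ ((1 : ℝ) / 2))) := by
        have h5 : Y ^ (2 : ℕ) ≤ (Y ^ η) ^ k0 := by
          rw [← Real.rpow_natCast, ← Real.rpow_natCast, ← Real.rpow_mul hYp.le]
          apply Real.rpow_le_rpow_of_exponent_le hY
          push_cast
          exact hk0η
        have hL1 : 0 < 1 + Real.log Y := by linarith
        have h6 : (δ * Y ^ η) ^ k0 ≤ (Y * (C4 * (1 + Real.log Y)) ^ κ) * (1 + Real.log Y) ^ k0 := by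
          rw [div_pow, div_le_iff₀ (by positivity)] at h2
          calc (δ * Y ^ η) ^ k0 ≤ (M : ℝ) ^ k0 * (1 + Real.log Y) ^ k0 := h2
            _ ≤ _ := mul_le_mul_of_nonneg_right h3 (by positivity)
        calc δ ^ k0 * Y ^ (2 : ℕ) ≤ δ ^ k0 * (Y ^ η) ^ k0 :=
              mul_le_mul_of_nonneg_left h5 (by positivity)
          _ = (δ * Y ^ η) ^ k0 := by rw [mul_pow]
          _ ≤ (Y * (C4 * (1 + Real.log Y)) ^ κ) * (1 + Real.log Y) ^ k0 := h6
          _ = Y * (C4 ^ κ * (1 + Real.log Y) ^ (κ + k0)) := by rw [mul_pow, pow_add]; ring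
          _ ≤ _ := by
              have h7 := hlog Y hY
              gcongr
      have h5 : Y ^ ((1 : ℝ) / 2) ≤ C4 ^ κ * D / δ ^ k0 := by
        rw [le_div_iff₀ (by positivity)]
        have h6 : Y ^ (2 : ℕ) = Y * (Y ^ ((1 : ℝ) / 2) * Y ^ ((1 : ℝ) / 2)) := by
          rw [← Real.rpow_add hYp]
          norm_num
          ring
        rw [h6] at h4
        have h7 : 0 < Y * Y ^ ((1 : ℝ) / 2) := by positivity
        have h8 : (Y * Y ^ ((1 : ℝ) / 2)) * (Y ^ ((1 : ℝ) / 2) * δ ^ k0) ≤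
            (Y * Y ^ ((1 : ℝ) / 2)) * (C4 ^ κ * D) := by
          calc (Y * Y ^ ((1 : ℝ) / 2)) * (Y ^ ((1 : ℝ) / 2) * δ ^ k0) =
                δ ^ k0 * (Y * (Y ^ ((1 : ℝ) / 2) * Y ^ ((1 : ℝ) / 2))) := by ring
            _ ≤ Y * (C4 ^ κ * (D * Y ^ ((1 : ℝ) / 2))) := h4
            _ = _ := by ring
        exact le_of_mul_le_mul_left h8 h7
      calc Y = (Y ^ ((1 : ℝ) / 2)) ^ 2 := by
            rw [← Real.rpow_natCast, ← Real.rpow_mul hYp.le]
            norm_num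
        _ ≤ (C4 ^ κ * D / δ ^ k0) ^ 2 := pow_le_pow_left₀ (by positivity) h5 _
        _ = Y0 := hY0def.symm
    have hsub : Q ⊆ (Finset.range (V + 1)) ×ˢ (Finset.range (V + 1)) := by
      intro q hq
      obtain ⟨hq1, hq2⟩ := hQ q hq
      have hht := hheight Y hY p hp hpY s hs K q hq1
      obtain ⟨h1, h2, _⟩ := hq1
      have hq2pos : (0 : ℝ) < q.2 := by exact_mod_cast (h1.trans h2)
      have h3 : (q.2 : ℝ) ≤ V := by
        rw [hV]
        refine le_trans ?_ (Nat.le_ceil _)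
        rw [← Real.exp_log hq2pos]
        apply Real.exp_le_exp.mpr
        refine hht.trans ?_
        apply mul_le_mul_of_nonneg_left _ (by linarith)
        exact pow_le_pow_left₀ hYp.le hYY0 _
      have h4 : q.2 ≤ V := by exact_mod_cast h3
      rw [Finset.mem_product, Finset.mem_range, Finset.mem_range]
      constructor <;> omega
    have h1 := Finset.card_le_card hsub
    rw [Finset.card_product, Finset.card_range] at h1
    have h2 : (Q.card : ℝ) ≤ ((V : ℝ) + 1) ^ 2 := by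
      rw [pow_two]
      exact_mod_cast h1
    have h3 : 0 ≤ C5 * (cp : ℝ) := by positivity
    have h4 : 0 ≤ ((V : ℝ) + 1) ^ 2 := by positivity
    calc (Q.card : ℝ) ≤ ((V : ℝ) + 1) ^ 2 := h2
      _ ≤ (((V : ℝ) + 1) ^ 2 + C5 * cp) * 1 := by linarith
      _ ≤ _ := mul_le_mul_of_nonneg_left (by linarith) (by positivity)
  · -- few primes: packing at every scale
    have hYη : 1 ≤ Y ^ η := Real.one_le_rpow hY hη.le
    obtain ⟨I, hI⟩ : ∃ I : ℕ, I = Nat.log 2 ⌊C2 * Y ^ κs⌋₊ := ⟨_, rfl⟩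
    have hmaps : Set.MapsTo (fun q : ℕ × ℕ => Nat.log 2 ⌊Real.log q.2 / Y ^ η⌋₊)
        (Q : Set (ℕ × ℕ)) (Finset.range (I + 1) : Set ℕ) := by
      intro q hq
      obtain ⟨hq1, hq2⟩ := hQ q hq
      have hht := hheight Y hY p hp hpY s hs K q hq1
      have hlq : 0 ≤ Real.log q.2 := le_trans (by positivity) hq2
      rw [Finset.mem_coe, Finset.mem_range, Nat.lt_succ_iff, hI]
      apply Nat.log_mono_right
      apply Nat.floor_le_floor
      calc Real.log q.2 / Y ^ η ≤ Real.log q.2 := div_le_self hlq hYη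
        _ ≤ _ := hht
    have hsum := Finset.card_eq_sum_card_fiberwise hmaps
    have hfib : ∀ i ∈ Finset.range (I + 1), (Q.filter
        (fun q : ℕ × ℕ => Nat.log 2 ⌊Real.log q.2 / Y ^ η⌋₊ = i)).card ≤ cp := by
      intro i _
      rw [hcp]
      have hHpos : 0 < 2 ^ i * Y ^ η := by positivity
      apply packing (n * k0) δ hδ (T := T) (r := p)
        (M := ⌈δ * (2 ^ i * Y ^ η) / Real.log p⌉₊) (s := s) hp hT hTc hHpos (by
          have := Nat.le_ceil (δ * (2 ^ i * Y ^ η) / Real.log p)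
          rwa [div_le_iff₀ hlp] at this)
      intro q hq
      rw [Finset.mem_filter] at hq
      obtain ⟨hqQ, hqi⟩ := hq
      obtain ⟨hq1, hq2⟩ := hQ q hqQ
      obtain ⟨h1, h2, h3, h4, h5, h6, k, h7, h8⟩ := hq1
      have hx1 : 1 ≤ Real.log q.2 / Y ^ η := by
        rw [le_div_iff₀ (by positivity), one_mul]
        exact hq2
      have hfl : ⌊Real.log q.2 / Y ^ η⌋₊ ≠ 0 := by
        have : 1 ≤ ⌊Real.log q.2 / Y ^ η⌋₊ := Nat.le_floor (by push_cast; exact hx1)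
        omega
      have hlow : (2 : ℝ) ^ i * Y ^ η ≤ Real.log q.2 := by
        have h9 := Nat.pow_log_le_self 2 hfl
        rw [hqi] at h9
        have h10 : ((2 : ℝ) ^ i) ≤ Real.log q.2 / Y ^ η := by
          calc (2 : ℝ) ^ i ≤ (⌊Real.log q.2 / Y ^ η⌋₊ : ℝ) := by exact_mod_cast h9
            _ ≤ _ := Nat.floor_le (by linarith)
        rwa [le_div_iff₀ (by positivity)] at h10
      have hupp : Real.log q.2 ≤ 2 * (2 ^ i * Y ^ η) := by
        have h9 := Nat.lt_pow_succ_log_self (by norm_num : 1 < 2) ⌊Real.log q.2 / Y ^ η⌋₊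
        rw [hqi] at h9
        have h10 : Real.log q.2 / Y ^ η < 2 ^ (i + 1) := by
          have h11 := Nat.lt_floor_add_one (Real.log q.2 / Y ^ η)
          have h12 : ((⌊Real.log q.2 / Y ^ η⌋₊ : ℝ)) + 1 ≤ 2 ^ (i + 1) := by exact_mod_cast h9
          linarith
        rw [div_lt_iff₀ (by positivity)] at h10
        rw [pow_succ] at h10
        linarith
      exact ⟨h1, h2, h3, hTQ q hqQ, hupp, close_exp hδ hp (by omega) h7 h8 hlow⟩
    have hcount : Q.card ≤ (I + 1) * cp := by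
      rw [hsum]
      calc ∑ i ∈ Finset.range (I + 1), _ ≤ ∑ _i ∈ Finset.range (I + 1), cp :=
            Finset.sum_le_sum hfib
        _ = _ := by rw [Finset.sum_const, Finset.card_range, smul_eq_mul]
    have hIb : (I : ℝ) + 1 ≤ C5 * (1 + Real.log Y) := by
      have h1 : (I : ℝ) * Real.log 2 ≤ Real.log (C2 * Y ^ κs) := by
        rw [← Real.log_pow]
        apply Real.log_le_log (by positivity)
        have hne : ⌊C2 * Y ^ κs⌋₊ ≠ 0 := by
          have : 1 ≤ ⌊C2 * Y ^ κs⌋₊ := Nat.le_floor (by push_cast; nlinarith)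
          omega
        have h2 := Nat.pow_log_le_self 2 hne
        rw [← hI] at h2
        calc (2 : ℝ) ^ I ≤ (⌊C2 * Y ^ κs⌋₊ : ℝ) := by exact_mod_cast h2
          _ ≤ _ := Nat.floor_le (by positivity)
      rw [Real.log_mul (by positivity) (by positivity), Real.log_pow] at h1
      have h2 : (I : ℝ) ≤ (Real.log C2 + κs) / Real.log 2 * (1 + Real.log Y) := by
        rw [div_mul_eq_mul_div, le_div_iff₀ hl20]
        nlinarith [mul_nonneg hlC2 hlY, mul_nonneg hκ0 hlY]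
      rw [hC5]
      nlinarith
    have h1 : (Q.card : ℝ) ≤ ((I : ℝ) + 1) * cp := by exact_mod_cast hcount
    have h2 : 0 ≤ ((V : ℝ) + 1) ^ 2 * (1 + Real.log Y) := by positivity
    calc (Q.card : ℝ) ≤ ((I : ℝ) + 1) * cp := h1
      _ ≤ (C5 * (1 + Real.log Y)) * cp := mul_le_mul_of_nonneg_right hIb (Nat.cast_nonneg _)
      _ ≤ _ := by nlinarith

/-- **few pairs with few primes are close modulo the powers of a given prime**, all heights -/
theorem padic_every (n : ℕ) (δ ε : ℝ) (hδ : 0 < δ) (hε : 0 < ε) : ∃ K C : ℝ, 0 < K ∧ 0 < C ∧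
    ∀ Y : ℝ, 1 ≤ Y → ∀ p : ℕ, p.Prime → (p : ℝ) ≤ Y → ∀ s : ℤ,
      (s = 1 ∨ s = -1) → ∀ Q : Finset (ℕ × ℕ), (∀ q ∈ Q, PadClose n δ K Y p s q) →
      (Q.card : ℝ) ≤ C * Y ^ ε := by
  classical
  obtain ⟨K, C, η, hK, hC, hη, -, hlow⟩ := padic_low n δ ε hδ hε
  obtain ⟨C', hC', hhigh⟩ := padic_high n δ η hδ hη
  obtain ⟨D, hD, hlog⟩ := log_pow_le_rpow 1 ε hε
  refine ⟨K, C + C' * D, hK, by positivity, ?_⟩
  intro Y hY p hp hpY s hs Q hQ
  have h1 := hlow Y hY p hp hpY s hs (Q.filter (fun q => Real.log q.2 ≤ Y ^ η)) (by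
    intro q hq
    rw [Finset.mem_filter] at hq
    exact ⟨hQ q hq.1, hq.2⟩)
  have h2 := hhigh Y hY p hp hpY s hs K (Q.filter (fun q => ¬ Real.log q.2 ≤ Y ^ η)) (by
    intro q hq
    rw [Finset.mem_filter] at hq
    exact ⟨hQ q hq.1, (not_le.mp hq.2).le⟩)
  have h3 := Finset.card_filter_add_card_filter_not (s := Q) (fun q => Real.log q.2 ≤ Y ^ η)
  have h4 : (Q.card : ℝ) = ((Q.filter (fun q => Real.log q.2 ≤ Y ^ η)).card : ℝ) +
      ((Q.filter (fun q => ¬ Real.log q.2 ≤ Y ^ η)).card : ℝ) := by exact_mod_cast h3.symm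
  have h5 := hlog Y hY
  rw [pow_one] at h5
  have h6 : C' * (1 + Real.log Y) ≤ C' * (D * Y ^ ε) := mul_le_mul_of_nonneg_left h5 hC'.le
  rw [h4]
  linarith

end Pool.Agent.Y913.Sm
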