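import Pool.Agent.Y913.Sm.Every
import Pool.Agent.Y913.Nb.Exc3

/-!
Pairs of integers with few prime factors whose sum or difference has a large divisor composed of
few small primes, all heights.
-/

set_option autoImplicit false

namespace Pool.Agent.Y913.Sm

open Finset Pool.Agent.Y913

/-- `m` has at most `n` prime factors, all `≤ Z` -/
def Fp (n : ℕ) (Z : ℝ) (m : ℕ) : Prop :=
  0 < m ∧ m.primeFactors.card ≤ n ∧ ∀ l ∈ m.primeFactors, (l : ℝ) ≤ Z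

/-- `m` has at most `n` prime factors, all in `S` -/
def Fs (n : ℕ) (S : Finset ℕ) (m : ℕ) : Prop :=
  0 < m ∧ m.primeFactors.card ≤ n ∧ m.primeFactors ⊆ S

lemma fp_lt_two {n : ℕ} {Y : ℝ} (hY : Y < 2) {m : ℕ} (h : Fp n Y m) : m = 1 := by
  obtain ⟨h1, h2, h3⟩ := h
  by_contra hne
  obtain ⟨l, hl⟩ := Nat.nonempty_primeFactors.mpr (by omega : 1 < m)
  have h4 := h3 l hl
  have h5 : (2 : ℝ) ≤ l := by exact_mod_cast (Nat.prime_of_mem_primeFactors hl).two_le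
  linarith

lemma Fp.prs {n : ℕ} {Y : ℝ} {q : ℕ × ℕ} (h1 : Fp n Y q.1) (h2 : Fp n Y q.2) :
    (prs q).card ≤ n + n ∧ ∀ l ∈ prs q, (l : ℝ) ≤ Y := by
  unfold Pool.Agent.Y913.prs
  rw [Nat.primeFactors_mul h1.1.ne' h2.1.ne']
  constructor
  · exact (Finset.card_union_le _ _).trans (Nat.add_le_add h1.2.1 h2.2.1)
  · intro l hl
    rcases Finset.mem_union.mp hl with h | h
    · exact h1.2.2 l h
    · exact h2.2.2 l h

/-- the exceptional pairs -/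
def ExcP (n : ℕ) (δ K Y : ℝ) (S : Finset ℕ) (q : ℕ × ℕ) : Prop :=
  0 < q.1 ∧ q.1 < q.2 ∧ Nat.Coprime q.1 q.2 ∧ Fp n Y q.1 ∧ Fp n Y q.2 ∧
    Y ^ K ≤ (q.2 : ℝ) ∧ ∃ d w : ℕ, (d * w = q.2 - q.1 ∨ d * w = q.2 + q.1) ∧
      Fs n S d ∧ (w : ℝ) ≤ (q.2 : ℝ) ^ (1 - δ)

lemma excp_cases {n : ℕ} {δ K Y : ℝ} {S : Finset ℕ} (hδ : 0 < δ) {q : ℕ × ℕ}
    (h : ExcP n δ K Y S q) :
    Near0 (n + n) (δ / 2) K Y q ∨ ∃ r : ℕ, r.Prime ∧ r ∈ S ∧ ∃ s : ℤ, (s = 1 ∨ s = -1) ∧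
      PadClose (n + n) (δ / (2 * (n + 1))) K Y r s q := by
  obtain ⟨h1, h2, h3, h4, h5, h6, d, w, h7, h8, h10⟩ := h
  obtain ⟨hc1, hc2⟩ := Fp.prs h4 h5
  have hq2 : (1 : ℝ) < q.2 := by exact_mod_cast (by omega : 1 < q.2)
  have hq20 : (0 : ℝ) < q.2 := by linarith
  by_cases hd : (d : ℝ) ≤ (q.2 : ℝ) ^ (δ / 2)
  · left
    have h11 : ((d * w : ℕ) : ℝ) ≤ (q.2 : ℝ) ^ (1 - δ / 2) := by
      push_cast
      calc (d : ℝ) * w ≤ (q.2 : ℝ) ^ (δ / 2) * (q.2 : ℝ) ^ (1 - δ) := by gcongr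
        _ = (q.2 : ℝ) ^ (1 - δ / 2) := by
            rw [← Real.rpow_add hq20]
            congr 1
            ring
    rcases h7 with h7 | h7
    · rw [h7] at h11
      exact ⟨h1, h2, h3, hc1, hc2, h6, h11⟩
    · exfalso
      rw [h7] at h11
      have h12 : (q.2 : ℝ) ^ (1 - δ / 2) ≤ (q.2 : ℝ) ^ (1 : ℝ) :=
        Real.rpow_le_rpow_of_exponent_le hq2.le (by linarith)
      rw [Real.rpow_one] at h12
      push_cast at h11
      have h13 : (0 : ℝ) < q.1 := by exact_mod_cast h1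
      linarith
  · right
    rw [not_le] at hd
    have hd1 : (1 : ℝ) < d := lt_trans (Real.one_lt_rpow hq2 (by positivity)) hd
    have hd2 : 2 ≤ d := by
      have : 1 < d := by exact_mod_cast hd1
      omega
    obtain ⟨r, hr, hrd⟩ := exists_prime_power hd2 h8.2.1
    have hrp := Nat.prime_of_mem_primeFactors hr
    obtain ⟨a, ha⟩ : ∃ a, a = d.factorization r := ⟨_, rfl⟩
    rw [← ha] at hrd
    refine ⟨r, hrp, h8.2.2 hr, ?_⟩
    have hdvd : r ^ a ∣ d := by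
      rw [ha]
      exact Nat.ordProj_dvd d r
    have hn : n ≠ 0 := by
      rintro rfl
      rw [pow_zero] at hrd
      omega
    have hn0 : (0 : ℝ) < n := by exact_mod_cast Nat.pos_of_ne_zero hn
    have hbig : (q.2 : ℝ) ^ (δ / (2 * (n + 1))) ≤ (r : ℝ) ^ a := by
      have e1 : (q.2 : ℝ) ^ (δ / 2) ≤ ((r : ℝ) ^ a) ^ n := by
        refine hd.le.trans ?_
        exact_mod_cast hrd
      have e2 : (q.2 : ℝ) ^ (δ / (2 * (n + 1))) ≤ (q.2 : ℝ) ^ (δ / (2 * n)) := by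
        apply Real.rpow_le_rpow_of_exponent_le hq2.le
        apply div_le_div_of_nonneg_left hδ.le (by positivity)
        linarith
      have e3 : (q.2 : ℝ) ^ (δ / (2 * n)) ≤ (r : ℝ) ^ a := by
        have e4 : ((q.2 : ℝ) ^ (δ / (2 * n))) ^ n ≤ ((r : ℝ) ^ a) ^ n := by
          refine le_trans (le_of_eq ?_) e1
          rw [← Real.rpow_natCast ((q.2 : ℝ) ^ (δ / (2 * n))) n, ← Real.rpow_mul hq20.le]
          congr 1
          field_simp
        exact le_of_pow_le_pow_left₀ hn (by positivity) e4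
      exact e2.trans e3
    rcases h7 with h7 | h7
    · refine ⟨1, Or.inl rfl, h1, h2, h3, hc1, hc2, h6, a, ?_, hbig⟩
      have e1 : ((d * w : ℕ) : ℤ) = (q.2 : ℤ) - 1 * q.1 := by
        rw [h7, Nat.cast_sub h2.le]
        ring
      rw [← e1]
      exact Int.natCast_dvd_natCast.mpr (hdvd.trans (Dvd.intro _ rfl))
    · refine ⟨-1, Or.inr rfl, h1, h2, h3, hc1, hc2, h6, a, ?_, hbig⟩
      have e1 : ((d * w : ℕ) : ℤ) = (q.2 : ℤ) - (-1) * q.1 := by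
        rw [h7]
        push_cast
        ring
      rw [← e1]
      exact Int.natCast_dvd_natCast.mpr (hdvd.trans (Dvd.intro _ rfl))

/-- a general count of exceptional pairs: `N1` bounds the close pairs at the infinite place,
`N2` at each prime -/
lemma excp_general (n : ℕ) (δ K K1 K2 Y N1 N2 : ℝ) (S : Finset ℕ) (hδ : 0 < δ) (hY : 1 ≤ Y)
    (hS : ∀ p ∈ S, p.Prime ∧ (p : ℝ) ≤ Y)
    (hK1 : K1 ≤ K) (hK2 : K2 ≤ K) (Rq : ℕ × ℕ → Prop)
    (h1 : ∀ Q : Finset (ℕ × ℕ), (∀ q ∈ Q, Near0 (n + n) (δ / 2) K1 Y q ∧ Rq q) →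
      (Q.card : ℝ) ≤ N1)
    (h2 : ∀ p : ℕ, p.Prime → (p : ℝ) ≤ Y → ∀ s : ℤ, (s = 1 ∨ s = -1) → ∀ Q : Finset (ℕ × ℕ),
      (∀ q ∈ Q, PadClose (n + n) (δ / (2 * (n + 1))) K2 Y p s q ∧ Rq q) → (Q.card : ℝ) ≤ N2)
    (Q : Finset (ℕ × ℕ)) (hQ : ∀ q ∈ Q, ExcP n δ K Y S q ∧ Rq q) :
    (Q.card : ℝ) ≤ N1 + 2 * S.card * N2 := by
  classical
  let QN := Q.filter (fun q => Near0 (n + n) (δ / 2) K1 Y q ∧ Rq q)
  let QP : ℕ × ℤ → Finset (ℕ × ℕ) := fun t =>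
    Q.filter (fun q => PadClose (n + n) (δ / (2 * (n + 1))) K2 Y t.1 t.2 q ∧ Rq q)
  let I : Finset (ℕ × ℤ) := S ×ˢ {1, -1}
  have hmonoK : ∀ q : ℕ × ℕ, ∀ K' : ℝ, K' ≤ K → Y ^ K ≤ (q.2 : ℝ) →
      Y ^ K' ≤ (q.2 : ℝ) := fun q K' h h' =>
    (Real.rpow_le_rpow_of_exponent_le hY h).trans h'
  have hcov : Q ⊆ QN ∪ I.biUnion QP := by
    intro q hq
    obtain ⟨hE, hR⟩ := hQ q hq
    rcases excp_cases hδ hE with h | ⟨p, hp, hpS, s, hs, h⟩
    · apply Finset.mem_union_left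
      rw [Finset.mem_filter]
      obtain ⟨a1, a2, a3, a4, a5, a6, a7⟩ := h
      exact ⟨hq, ⟨a1, a2, a3, a4, a5, hmonoK q K1 hK1 a6, a7⟩, hR⟩
    · apply Finset.mem_union_right
      rw [Finset.mem_biUnion]
      refine ⟨(p, s), ?_, ?_⟩
      · rw [Finset.mem_product]
        refine ⟨hpS, ?_⟩
        show s ∈ ({1, -1} : Finset ℤ)
        rcases hs with rfl | rfl <;> simp
      · rw [Finset.mem_filter]
        obtain ⟨a1, a2, a3, a4, a5, a6, a7⟩ := h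
        exact ⟨hq, ⟨a1, a2, a3, a4, a5, hmonoK q K2 hK2 a6, a7⟩, hR⟩
  have hN : (QN.card : ℝ) ≤ N1 := h1 QN (fun q hq => (Finset.mem_filter.mp hq).2)
  have hPt : ∀ t ∈ I, ((QP t).card : ℝ) ≤ N2 := by
    rintro ⟨p, s⟩ ht
    have h3 := Finset.mem_product.mp ht
    have hs : s = 1 ∨ s = -1 := by
      have h4 := h3.2
      simpa using h4
    apply h2 p (hS p h3.1).1 (hS p h3.1).2 s hs
    intro q hq
    exact (Finset.mem_filter.mp hq).2
  have hcard : (Q.card : ℝ) ≤ QN.card + ∑ t ∈ I, ((QP t).card : ℝ) := by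
    have h3 : Q.card ≤ QN.card + ∑ t ∈ I, (QP t).card :=
      (Finset.card_le_card hcov).trans ((Finset.card_union_le _ _).trans
        (Nat.add_le_add_left Finset.card_biUnion_le _))
    exact_mod_cast h3
  have hIcard : (I.card : ℝ) = 2 * S.card := by
    have h3 : I.card = S.card * 2 := by
      rw [Finset.card_product]
      rfl
    rw [h3]
    push_cast
    ring
  calc (Q.card : ℝ) ≤ QN.card + ∑ t ∈ I, ((QP t).card : ℝ) := hcard
    _ ≤ N1 + ∑ _t ∈ I, N2 := add_le_add hN (Finset.sum_le_sum hPt)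
    _ = N1 + I.card * N2 := by rw [Finset.sum_const, nsmul_eq_mul]
    _ = N1 + 2 * S.card * N2 := by rw [hIcard]

/-- near pairs of very large height -/
theorem near_high (n : ℕ) (δ : ℝ) (hδ : 0 < δ) : ∃ K : ℝ, 0 < K ∧ ∀ η : ℝ, 0 < η →
    ∃ C : ℝ, 0 < C ∧ ∀ Y : ℝ, 1 ≤ Y → ∀ Q : Finset (ℕ × ℕ),
      (∀ q ∈ Q, Near0 n δ K Y q ∧ Y ^ η ≤ Real.log q.2) → (Q.card : ℝ) ≤ C := by
  classical
  obtain ⟨K, C, hK, hC, hnear⟩ := near_all n δ 1 hδ one_pos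
  choose Ch κ hCh hh using fun m => arch_height m δ hδ
  refine ⟨K, hK, ?_⟩
  intro η hη
  choose D hD hlog using fun m => log_pow_le_rpow (κ m) (η / 2) (by positivity)
  obtain ⟨B, hB⟩ : ∃ B : ℝ, B = ∑ m ∈ Finset.range (n + 1), Ch m * D m + 1 := ⟨_, rfl⟩
  have hsum0 : 0 ≤ ∑ m ∈ Finset.range (n + 1), Ch m * D m :=
    Finset.sum_nonneg (fun m _ => by have := hCh m; have := hD m; positivity)
  have hB1 : 1 ≤ B := by rw [hB]; linarith
  refine ⟨C * B ^ (2 / η), by positivity, ?_⟩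
  intro Y hY Q hQ
  have hY0 : 0 < Y := by linarith
  have hBη : 0 < B ^ (2 / η) := by positivity
  rcases Q.eq_empty_or_nonempty with he | ⟨q, hq⟩
  · rw [he, Finset.card_empty]
    push_cast
    positivity
  · have h0 := hnear Y hY Q (fun q hq => (hQ q hq).1)
    rw [Real.rpow_one] at h0
    refine h0.trans (mul_le_mul_of_nonneg_left ?_ hC.le)
    obtain ⟨⟨h1, h2, h3, h4, h5, h6, h7⟩, hht⟩ := hQ q hq
    have h8 := hh (prs q).card Y hY q h1 h2 h3 rfl h5 h7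
    have h9 := hlog (prs q).card Y hY
    have h10 : Ch (prs q).card * D (prs q).card ≤ B := by
      rw [hB]
      have := Finset.single_le_sum (f := fun m => Ch m * D m)
        (fun m _ => by have := hCh m; have := hD m; positivity)
        (Finset.mem_range.mpr (by omega : (prs q).card < n + 1))
      linarith
    have h11 : Y ^ η ≤ B * Y ^ (η / 2) := by
      calc Y ^ η ≤ Real.log q.2 := hht
        _ ≤ Ch (prs q).card * (1 + Real.log Y) ^ κ (prs q).card := h8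
        _ ≤ Ch (prs q).card * (D (prs q).card * Y ^ (η / 2)) :=
            mul_le_mul_of_nonneg_left h9 (hCh _).le
        _ = (Ch (prs q).card * D (prs q).card) * Y ^ (η / 2) := by ring
        _ ≤ B * Y ^ (η / 2) := mul_le_mul_of_nonneg_right h10 (by positivity)
    have h12 : Y ^ (η / 2) ≤ B := by
      have h13 : Y ^ η = Y ^ (η / 2) * Y ^ (η / 2) := by
        rw [← Real.rpow_add hY0]
        congr 1
        ring
      rw [h13] at h11
      exact le_of_mul_le_mul_right h11 (by positivity)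
    calc Y = (Y ^ (η / 2)) ^ (2 / η) := by
          rw [← Real.rpow_mul hY0.le]
          have : η / 2 * (2 / η) = 1 := by field_simp
          rw [this, Real.rpow_one]
      _ ≤ B ^ (2 / η) := Real.rpow_le_rpow (by positivity) h12 (by positivity)

/-- **count of exceptional pairs** -/
theorem excp_count (n : ℕ) (δ ε : ℝ) (hδ : 0 < δ) (hε : 0 < ε) : ∃ K C : ℝ, 0 < K ∧ 0 < C ∧
    ∀ Y : ℝ, 1 ≤ Y → ∀ S : Finset ℕ, (∀ p ∈ S, p.Prime ∧ (p : ℝ) ≤ Y) →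
      ∀ Q : Finset (ℕ × ℕ), (∀ q ∈ Q, ExcP n δ K Y S q) →
      (Q.card : ℝ) ≤ C * (1 + S.card) * Y ^ ε := by
  classical
  obtain ⟨K1, C1, hK1, hC1, h1⟩ := near_all (n + n) (δ / 2) ε (by positivity) hε
  obtain ⟨K2, C2, hK2, hC2, h2⟩ := padic_every (n + n) (δ / (2 * (n + 1))) ε
    (by positivity) hε
  refine ⟨max K1 K2, C1 + 2 * C2, lt_max_of_lt_left hK1, by positivity, ?_⟩
  intro Y hY S hS Q hQ
  have hYε : 0 < Y ^ ε := Real.rpow_pos_of_pos (by linarith) _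
  have h3 := excp_general n δ (max K1 K2) K1 K2 Y (C1 * Y ^ ε) (C2 * Y ^ ε) S hδ hY hS
    (le_max_left _ _) (le_max_right _ _) (fun _ => True)
    (fun Q hQ => h1 Y hY Q (fun q hq => (hQ q hq).1))
    (fun p hp hpY s hs Q hQ => h2 Y hY p hp hpY s hs Q (fun q hq => (hQ q hq).1))
    Q (fun q hq => ⟨hQ q hq, trivial⟩)
  refine h3.trans ?_
  have h4 : 0 ≤ C1 * S.card * Y ^ ε + 2 * C2 * Y ^ ε := by positivity
  nlinarith

/-- **count of exceptional pairs of very large height** -/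
theorem excp_high (n : ℕ) (δ : ℝ) (hδ : 0 < δ) : ∃ K : ℝ, 0 < K ∧ ∀ η : ℝ, 0 < η →
    ∃ C : ℝ, 0 < C ∧ ∀ Y : ℝ, 1 ≤ Y → ∀ S : Finset ℕ, (∀ p ∈ S, p.Prime ∧ (p : ℝ) ≤ Y) →
      ∀ Q : Finset (ℕ × ℕ), (∀ q ∈ Q, ExcP n δ K Y S q ∧ Y ^ η ≤ Real.log q.2) →
      (Q.card : ℝ) ≤ C * (1 + S.card) * (1 + Real.log Y) := by
  classical
  obtain ⟨K1, hK1, h1'⟩ := near_high (n + n) (δ / 2) (by positivity)
  refine ⟨K1, hK1, ?_⟩
  intro η hη
  obtain ⟨C1, hC1, h1⟩ := h1' η hη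
  obtain ⟨C2, hC2, h2⟩ := padic_high (n + n) (δ / (2 * (n + 1))) η (by positivity) hη
  refine ⟨C1 + 2 * C2, by positivity, ?_⟩
  intro Y hY S hS Q hQ
  have hlY : 0 ≤ Real.log Y := Real.log_nonneg hY
  have h3 := excp_general n δ K1 K1 K1 Y C1 (C2 * (1 + Real.log Y)) S hδ hY hS
    le_rfl le_rfl (fun q => Y ^ η ≤ Real.log q.2)
    (fun Q hQ => h1 Y hY Q hQ)
    (fun p hp hpY s hs Q hQ => h2 Y hY p hp hpY s hs K1 Q hQ) Q hQ
  refine h3.trans ?_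
  have h4 : 0 ≤ C1 * S.card * (1 + Real.log Y) + C1 * Real.log Y +
    2 * C2 * (1 + Real.log Y) := by positivity
  nlinarith

end Pool.Agent.Y913.Sm
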