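import Pool.Agent.Y913.Sm.Rep

/-!
Simultaneous `p`-adic relations, VI: the extremal subspace.
-/

set_option autoImplicit false

namespace Pool.Agent.Y913.Sm

open Finset Pool.Agent.Y913 Pool.Agent.Y913.Bk

variable {σ : Type} [Fintype σ] [DecidableEq σ]

/-- the box -/
noncomputable def bx (S : ℕ) : Finset (σ → ℤ) := Fintype.piFinset (fun _ => Finset.Icc (-(S : ℤ)) S)

lemma mem_bx {S : ℕ} {s : σ → ℤ} : s ∈ bx (σ := σ) S ↔ ∀ j, |s j| ≤ S := by
  unfold bx
  rw [Fintype.mem_piFinset]
  constructor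
  · intro h j
    have := Finset.mem_Icc.mp (h j)
    exact abs_le.mpr this
  · intro h j
    exact Finset.mem_Icc.mpr (abs_le.mp (h j))

open Classical in
/-- the points of the group in a subspace and a box -/
noncomputable def pts (Γ : AddSubgroup (σ → ℤ)) (W : Submodule ℚ (σ → ℚ)) (S : ℕ) :
    Finset (σ → ℤ) := (bx S).filter (fun s => s ∈ Γ ∧ qc s ∈ W)

lemma mem_pts {Γ : AddSubgroup (σ → ℤ)} {W : Submodule ℚ (σ → ℚ)} {S : ℕ} {s : σ → ℤ} :
    s ∈ pts Γ W S ↔ (∀ j, |s j| ≤ S) ∧ s ∈ Γ ∧ qc s ∈ W := by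
  classical
  unfold pts
  rw [Finset.mem_filter, mem_bx]

lemma pts_cover (Γ : AddSubgroup (σ → ℤ)) (W : Submodule ℚ (σ → ℚ)) (h : ℕ) (hh : 1 ≤ h) :
    (pts Γ W (4 * h)).card ≤ (pts Γ W h).card * 9 ^ Fintype.card σ := by
  classical
  have hcard : (Fintype.piFinset (fun _ : σ => Finset.Icc (-4 : ℤ) 4)).card =
      9 ^ Fintype.card σ := by
    rw [Fintype.card_piFinset, Finset.prod_const, Finset.card_univ, Int.card_Icc]
    rfl
  rw [← hcard]
  apply Finset.card_le_mul_card_image_of_maps_to (f := fun s : σ → ℤ => fun j => s j / (h : ℤ))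
  · intro s hs
    have h1 := (mem_pts.mp hs).1
    rw [Fintype.mem_piFinset]
    intro j
    have h2 := abs_le.mp (h1 j)
    push_cast at h2
    have hh0 : (0 : ℤ) < h := by exact_mod_cast hh
    rw [Finset.mem_Icc]
    constructor
    · rw [Int.le_ediv_iff_mul_le hh0]
      linarith [h2.1]
    · have : s j / (h : ℤ) < 5 := by
        rw [Int.ediv_lt_iff_lt_mul hh0]
        linarith [h2.2]
      omega
  · intro b _
    rcases Finset.eq_empty_or_nonempty ((pts Γ W (4 * h)).filter
      (fun s => (fun j => s j / (h : ℤ)) = b)) with he | ⟨s0, hs0⟩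
    · rw [he, Finset.card_empty]
      exact Nat.zero_le _
    · apply Finset.card_le_card_of_injOn (fun s => s - s0)
      · intro s hs
        rw [Finset.mem_coe, Finset.mem_filter] at hs
        rw [Finset.mem_filter] at hs0
        rw [Finset.mem_coe, mem_pts]
        have h1 := mem_pts.mp hs.1
        have h2 := mem_pts.mp hs0.1
        refine ⟨?_, Γ.sub_mem h1.2.1 h2.2.1, ?_⟩
        · intro j
          have h3 : s j / (h : ℤ) = s0 j / (h : ℤ) := by
            have e1 : s j / (h : ℤ) = b j := congrFun hs.2 j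
            have e2 : s0 j / (h : ℤ) = b j := congrFun hs0.2 j
            rw [e1, e2]
          have hh0 : (0 : ℤ) < h := by exact_mod_cast hh
          have e3 := Int.mul_ediv_add_emod (s j) h
          have e4 := Int.mul_ediv_add_emod (s0 j) h
          have e5 := Int.emod_lt_of_pos (s j) hh0
          have e6 := Int.emod_lt_of_pos (s0 j) hh0
          have e7 := Int.emod_nonneg (s j) hh0.ne'
          have e8 := Int.emod_nonneg (s0 j) hh0.ne'
          rw [h3] at e3
          show |s j - s0 j| ≤ (h : ℤ)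
          rw [abs_le]
          constructor <;> linarith
        · show qc (s - s0) ∈ W
          rw [qc_sub]
          exact W.sub_mem h1.2.2 h2.2.2
      · intro s _ t _ hst
        exact sub_left_injective hst

/-- **the extremal argument** -/
theorem extremal (Γ : AddSubgroup (σ → ℤ)) (R : Submodule ℚ (σ → ℚ)) (p P Q j1 : ℕ)
    (hR1 : 1 ≤ Module.finrank ℚ R)
    (hP : 3 ^ Fintype.card σ < P) (hPQ : Q * 9 ^ Fintype.card σ ≤ P)
    (htop : p * P ^ Fintype.card σ ≤ (2 ^ j1) ^ Module.finrank ℚ R)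
    (hΓ : (2 ^ j1 + 1) ^ Fintype.card σ ≤ p * (pts Γ ⊤ (2 ^ j1)).card)
    (hstep : ∀ j ≤ j1, ∀ W : Submodule ℚ (σ → ℚ), 1 ≤ Module.finrank ℚ (W ⊓ R : Submodule ℚ _) →
      (pts Γ W (2 ^ j)).card < P * (2 ^ j) ^
        (Module.finrank ℚ W - Module.finrank ℚ (W ⊓ R : Submodule ℚ _)) ∨
      ∃ W' ≤ W, W ⊓ R ≤ W' ∧ Module.finrank ℚ W' < Module.finrank ℚ W ∧
        (pts Γ W (2 ^ j)).card ≤ Q * (2 ^ j) ^ (Module.finrank ℚ W - Module.finrank ℚ W') *
          (pts Γ W' (2 * 2 ^ j)).card) : False := by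
  classical
  let Pr : ℕ → Prop := fun j => ∃ W : Submodule ℚ (σ → ℚ),
    1 ≤ Module.finrank ℚ (W ⊓ R : Submodule ℚ _) ∧
    (2 ^ j) ^ (Module.finrank ℚ W - Module.finrank ℚ (W ⊓ R : Submodule ℚ _)) *
      P ^ Module.finrank ℚ W ≤ (pts Γ W (2 ^ j)).card
  have hP1 : 1 ≤ P := by
    have : 0 < 3 ^ Fintype.card σ := by positivity
    omega
  have hRle : Module.finrank ℚ R ≤ Fintype.card σ := by
    have := Submodule.finrank_le R
    rwa [Module.finrank_fintype_fun_eq_card] at this
  have hPr1 : Pr j1 := by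
    refine ⟨⊤, ?_, ?_⟩
    · rw [top_inf_eq]; exact hR1
    · rw [top_inf_eq, finrank_top, Module.finrank_fintype_fun_eq_card]
      by_contra hcon
      push Not at hcon
      have hp0 : 0 < p := by
        rcases Nat.eq_zero_or_pos p with h | h
        · rw [h, zero_mul] at hΓ
          have : 0 < (2 ^ j1 + 1) ^ Fintype.card σ := by positivity
          omega
        · exact h
      have h1 : (2 ^ j1 + 1) ^ Fintype.card σ < (2 ^ j1) ^ Fintype.card σ := by
        calc (2 ^ j1 + 1) ^ Fintype.card σ ≤ p * (pts Γ ⊤ (2 ^ j1)).card := hΓ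
          _ < p * ((2 ^ j1) ^ (Fintype.card σ - Module.finrank ℚ R) * P ^ Fintype.card σ) :=
              Nat.mul_lt_mul_of_pos_left hcon hp0
          _ = (2 ^ j1) ^ (Fintype.card σ - Module.finrank ℚ R) * (p * P ^ Fintype.card σ) := by
              ring
          _ ≤ (2 ^ j1) ^ (Fintype.card σ - Module.finrank ℚ R) *
              (2 ^ j1) ^ Module.finrank ℚ R := Nat.mul_le_mul_left _ htop
          _ = (2 ^ j1) ^ Fintype.card σ := by
              rw [← pow_add]
              congr 1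
              omega
      have h2 : (2 ^ j1) ^ Fintype.card σ ≤ (2 ^ j1 + 1) ^ Fintype.card σ :=
        Nat.pow_le_pow_left (by omega) _
      omega
  have hPr : ∃ j, Pr j := ⟨j1, hPr1⟩
  have hj1 : Nat.find hPr ≤ j1 := Nat.find_min' hPr hPr1
  obtain ⟨W, hW1, hW⟩ := Nat.find_spec hPr
  set j0 := Nat.find hPr with hj0
  have hWd : Module.finrank ℚ (W ⊓ R : Submodule ℚ _) ≤ Module.finrank ℚ W :=
    Submodule.finrank_mono inf_le_left
  have hj0pos : 1 ≤ j0 := by
    by_contra hcon
    have h0 : j0 = 0 := by omega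
    rw [h0, pow_zero, one_pow, one_mul] at hW
    have h1 : (pts Γ W 1).card ≤ 3 ^ Fintype.card σ := by
      calc (pts Γ W 1).card ≤ (bx (σ := σ) 1).card := Finset.card_filter_le _ _
        _ = _ := by
            unfold bx
            rw [Fintype.card_piFinset, Finset.prod_const, Finset.card_univ, Int.card_Icc]
            rfl
    have h2 : P ≤ P ^ Module.finrank ℚ W := by
      calc P = P ^ 1 := (pow_one P).symm
        _ ≤ _ := Nat.pow_le_pow_right hP1 (by omega)
    omega
  rcases hstep j0 hj1 W hW1 with h | ⟨W', hW'W, hRW', hlt, hcard⟩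
  · have h2 : P ≤ P ^ Module.finrank ℚ W := by
      calc P = P ^ 1 := (pow_one P).symm
        _ ≤ _ := Nat.pow_le_pow_right hP1 (by omega)
    have h3 : P * (2 ^ j0) ^ (Module.finrank ℚ W - Module.finrank ℚ (W ⊓ R : Submodule ℚ _)) ≤
        (2 ^ j0) ^ (Module.finrank ℚ W - Module.finrank ℚ (W ⊓ R : Submodule ℚ _)) *
          P ^ Module.finrank ℚ W := by
      rw [mul_comm]
      exact Nat.mul_le_mul_left _ h2
    omega
  · have hinf : W' ⊓ R = W ⊓ R := by
      apply le_antisymm
      · exact inf_le_inf_right R hW'W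
      · exact le_inf hRW' inf_le_right
    have hW'd : Module.finrank ℚ (W ⊓ R : Submodule ℚ _) ≤ Module.finrank ℚ W' :=
      Submodule.finrank_mono hRW'
    obtain ⟨i, hi⟩ : ∃ i, j0 = i + 1 := ⟨j0 - 1, by omega⟩
    have hcov := pts_cover Γ W' (2 ^ i) Nat.one_le_two_pow
    have e1 : 4 * 2 ^ i = 2 * 2 ^ j0 := by rw [hi, pow_succ]; ring
    rw [e1] at hcov
    have hPri : Pr i := by
      refine ⟨W', by rw [hinf]; exact hW1, ?_⟩
      rw [hinf]
      set d := Module.finrank ℚ W with hd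
      set d' := Module.finrank ℚ W' with hd'
      set ρ := Module.finrank ℚ (W ⊓ R : Submodule ℚ _) with hρ
      have hS : 0 < 2 ^ j0 := Nat.pow_pos (by norm_num)
      have h1 : (2 ^ j0) ^ (d - d') * ((2 ^ j0) ^ (d' - ρ) * P ^ d) ≤
          (2 ^ j0) ^ (d - d') * (P * (pts Γ W' (2 ^ i)).card) := by
        calc (2 ^ j0) ^ (d - d') * ((2 ^ j0) ^ (d' - ρ) * P ^ d) = (2 ^ j0) ^ (d - ρ) * P ^ d := by
              rw [← mul_assoc, ← pow_add]
              congr 2
              omega
          _ ≤ (pts Γ W (2 ^ j0)).card := hW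
          _ ≤ Q * (2 ^ j0) ^ (d - d') * (pts Γ W' (2 * 2 ^ j0)).card := hcard
          _ ≤ Q * (2 ^ j0) ^ (d - d') * ((pts Γ W' (2 ^ i)).card * 9 ^ Fintype.card σ) :=
              Nat.mul_le_mul_left _ hcov
          _ = (2 ^ j0) ^ (d - d') * ((Q * 9 ^ Fintype.card σ) * (pts Γ W' (2 ^ i)).card) := by ring
          _ ≤ (2 ^ j0) ^ (d - d') * (P * (pts Γ W' (2 ^ i)).card) :=
              Nat.mul_le_mul_left _ (Nat.mul_le_mul_right _ hPQ)
      have h2 := Nat.le_of_mul_le_mul_left h1 (Nat.pow_pos hS)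
      have h3 : P * ((2 ^ j0) ^ (d' - ρ) * P ^ d') ≤ P * (pts Γ W' (2 ^ i)).card := by
        calc P * ((2 ^ j0) ^ (d' - ρ) * P ^ d') = (2 ^ j0) ^ (d' - ρ) * P ^ (d' + 1) := by
              rw [pow_succ]; ring
          _ ≤ (2 ^ j0) ^ (d' - ρ) * P ^ d :=
              Nat.mul_le_mul_left _ (Nat.pow_le_pow_right hP1 (by omega))
          _ ≤ _ := h2
      have h4 := Nat.le_of_mul_le_mul_left h3 (by omega)
      calc (2 ^ i) ^ (d' - ρ) * P ^ d' ≤ (2 ^ j0) ^ (d' - ρ) * P ^ d' := by
            apply Nat.mul_le_mul_right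
            apply Nat.pow_le_pow_left
            apply Nat.pow_le_pow_right (by norm_num)
            omega
        _ ≤ _ := h4
    exact Nat.find_min hPr (by omega : i < j0) hPri

/-- the top level count -/
lemma pts_top (Γ : AddSubgroup (σ → ℤ)) {G : Type} [Group G] [Fintype G] [DecidableEq G]
    (φ : (σ → ℤ) → G) (hφ : ∀ s t, φ (s - t) = φ s * (φ t)⁻¹) (hΓ : ∀ s, s ∈ Γ ↔ φ s = 1)
    (S : ℕ) : (S + 1) ^ Fintype.card σ ≤ Fintype.card G * (pts Γ ⊤ S).card := by
  classical
  have hcard : (Fintype.piFinset (fun _ : σ => Finset.Icc (0 : ℤ) S)).card =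
      (S + 1) ^ Fintype.card σ := by
    rw [Fintype.card_piFinset, Finset.prod_const, Finset.card_univ, Int.card_Icc]
    congr 1
  rw [← hcard, mul_comm, ← Finset.card_univ (α := G)]
  apply Finset.card_le_mul_card_image_of_maps_to (f := φ)
  · intro s _
    exact Finset.mem_univ _
  · intro b _
    rcases Finset.eq_empty_or_nonempty ((Fintype.piFinset
      (fun _ : σ => Finset.Icc (0 : ℤ) S)).filter (fun s => φ s = b)) with he | ⟨s0, hs0⟩
    · rw [he, Finset.card_empty]
      exact Nat.zero_le _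
    · apply Finset.card_le_card_of_injOn (fun s => s - s0)
      · intro s hs
        rw [Finset.mem_coe, Finset.mem_filter, Fintype.mem_piFinset] at hs
        rw [Finset.mem_filter, Fintype.mem_piFinset] at hs0
        rw [Finset.mem_coe, mem_pts]
        refine ⟨?_, ?_, Submodule.mem_top⟩
        · intro j
          have h1 := Finset.mem_Icc.mp (hs.1 j)
          have h2 := Finset.mem_Icc.mp (hs0.1 j)
          show |s j - s0 j| ≤ (S : ℤ)
          rw [abs_le]
          constructor <;> linarith [h1.1, h1.2, h2.1, h2.2]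
        · rw [hΓ, hφ, hs.2, hs0.2, mul_inv_cancel]
      · intro s _ t _ hst
        exact sub_left_injective hst

end Pool.Agent.Y913.Sm
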