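import Mathlib

/-!
Simultaneous `p`-adic relations, II: finite differences and pigeonhole modulo prime powers.
-/

set_option autoImplicit false

namespace Pool.Agent.Y913.Sm

open Finset

variable {R : Type} [CommRing R]

/-- the difference operator -/
def dl (φ : ℤ → R) : ℤ → R := fun n => φ (n + 1) - φ n

lemma dl_zero : dl (0 : ℤ → R) = 0 := by funext n; simp [dl]

lemma dl_iter_zero (T : ℕ) : dl^[T] (0 : ℤ → R) = 0 := by
  induction T with
  | zero => rfl
  | succ T ih => rw [Function.iterate_succ_apply, dl_zero, ih]

lemma dl_add (φ ψ : ℤ → R) : dl (φ + ψ) = dl φ + dl ψ := by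
  funext n
  simp only [dl, Pi.add_apply]
  ring

lemma dl_iter_add (T : ℕ) (φ ψ : ℤ → R) : dl^[T] (φ + ψ) = dl^[T] φ + dl^[T] ψ := by
  induction T generalizing φ ψ with
  | zero => rfl
  | succ T ih => rw [Function.iterate_succ_apply, Function.iterate_succ_apply,
      Function.iterate_succ_apply, dl_add, ih]

lemma dl_smul (c : R) (φ : ℤ → R) : dl (fun n => c * φ n) = fun n => c * dl φ n := by
  funext n
  simp only [dl]
  ring

lemma dl_iter_smul (T : ℕ) (c : R) (φ : ℤ → R) :
    dl^[T] (fun n => c * φ n) = fun n => c * (dl^[T] φ) n := by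
  induction T generalizing φ with
  | zero => rfl
  | succ T ih => rw [Function.iterate_succ_apply, Function.iterate_succ_apply, dl_smul, ih]

lemma dl_iter_sum {I : Type} (s : Finset I) (T : ℕ) (φ : I → ℤ → R) :
    dl^[T] (fun n => ∑ i ∈ s, φ i n) = fun n => ∑ i ∈ s, (dl^[T] (φ i)) n := by
  classical
  induction s using Finset.induction_on with
  | empty =>
    have : (fun n : ℤ => ∑ i ∈ (∅ : Finset I), φ i n) = 0 := by funext n; simp
    rw [this, dl_iter_zero]
    funext n; simp
  | insert a s ha ih =>
    have : (fun n : ℤ => ∑ i ∈ insert a s, φ i n) = φ a + (fun n => ∑ i ∈ s, φ i n) := by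
      funext n; rw [Finset.sum_insert ha, Pi.add_apply]
    rw [this, dl_iter_add, ih]
    funext n
    rw [Finset.sum_insert ha, Pi.add_apply]

/-- a function killed by a power of the difference operator vanishes if it vanishes on an
interval -/
lemma eq_zero_of_dl (T : ℕ) (φ : ℤ → R) (h : dl^[T] φ = 0)
    (h0 : ∀ n : ℤ, 0 ≤ n → n < T → φ n = 0) : φ = 0 := by
  induction T generalizing φ with
  | zero => exact h
  | succ T ih =>
    have h1 : dl φ = 0 := by
      apply ih
      · rw [← Function.iterate_succ_apply]; exact h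
      · intro n hn hn'
        show φ (n + 1) - φ n = 0
        rw [h0 (n + 1) (by omega) (by push_cast; omega), h0 n hn (by push_cast; omega), sub_zero]
    have h2 : ∀ n, φ (n + 1) = φ n := by
      intro n
      have := congrFun h1 n
      exact sub_eq_zero.mp this
    have h3 : φ 0 = 0 := h0 0 le_rfl (by push_cast; omega)
    have h4 : ∀ n : ℕ, φ n = 0 := by
      intro n
      induction n with
      | zero => exact h3
      | succ n ih' => push_cast; rw [h2, ih']
    have h5 : ∀ n : ℕ, φ (-(n : ℤ)) = 0 := by
      intro n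
      induction n with
      | zero => simpa using h3
      | succ n ih' =>
        have := h2 (-((n : ℤ) + 1))
        rw [show -((n : ℤ) + 1) + 1 = -(n : ℤ) by ring, ih'] at this
        push_cast
        exact this.symm
    funext n
    rcases Int.eq_nat_or_neg n with ⟨k, rfl | rfl⟩
    · exact h4 k
    · exact h5 k

/-- polynomial times exponential -/
lemma dl_polyexp (m : ℕ) (C : Rˣ) (hC : ((C : R) - 1) ^ m = 0) (T : ℕ) :
    ∀ (i d : ℕ) (q : Polynomial R), (∀ k, d ≤ k → q.coeff k = 0) → d + m ≤ T + i + 1 →
      dl^[T] (fun n : ℤ => ((C : R) - 1) ^ i * (q.eval (n : R) * ((C ^ n : Rˣ) : R))) = 0 := by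
  induction T with
  | zero =>
    intro i d q hq hdm
    rcases Nat.eq_zero_or_pos d with rfl | hd
    · have : q = 0 := by
        ext k
        rw [hq k (Nat.zero_le _), Polynomial.coeff_zero]
      funext n
      simp [this]
    · have h1 : ((C : R) - 1) ^ i = 0 := by
        have : i = m + (i - m) := by omega
        rw [this, pow_add, hC, zero_mul]
      funext n
      simp [h1]
  | succ T ih =>
    intro i d q hq hdm
    rw [Function.iterate_succ_apply]
    have h1 : dl (fun n : ℤ => ((C : R) - 1) ^ i * (q.eval (n : R) * ((C ^ n : Rˣ) : R))) =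
        (fun n : ℤ => ((C : R) - 1) ^ (i + 1) *
          ((q.comp (Polynomial.X + 1)).eval (n : R) * ((C ^ n : Rˣ) : R))) +
        (fun n : ℤ => ((C : R) - 1) ^ i *
          ((q.comp (Polynomial.X + 1) - q).eval (n : R) * ((C ^ n : Rˣ) : R))) := by
      funext n
      simp only [dl, Pi.add_apply, Polynomial.eval_comp, Polynomial.eval_add, Polynomial.eval_X,
        Polynomial.eval_one, Polynomial.eval_sub]
      rw [zpow_add_one]
      push_cast
      ring
    rw [h1, dl_iter_add]
    have hnd : q = 0 ∨ q.natDegree < d := by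
      by_cases hq0 : q = 0
      · left; exact hq0
      · right
        by_contra hcon
        have := hq q.natDegree (by omega)
        exact hq0 (Polynomial.leadingCoeff_eq_zero.mp this)
    rcases hnd with hq0 | hnd
    · subst hq0
      have e1 : (fun n : ℤ => ((C : R) - 1) ^ (i + 1) *
          (((0 : Polynomial R).comp (Polynomial.X + 1)).eval (n : R) * ((C ^ n : Rˣ) : R))) = 0 := by
        funext n; simp
      have e2 : (fun n : ℤ => ((C : R) - 1) ^ i *
          (((0 : Polynomial R).comp (Polynomial.X + 1) - 0).eval (n : R) *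
            ((C ^ n : Rˣ) : R))) = 0 := by
        funext n; simp
      rw [e1, e2, dl_iter_zero, add_zero]
    have hX : (Polynomial.X + 1 : Polynomial R) = Polynomial.X + Polynomial.C 1 := by simp
    have hcd : (q.comp (Polynomial.X + 1)).natDegree ≤ q.natDegree := by
      have h2 := Polynomial.natDegree_comp_le (p := q) (q := (Polynomial.X + 1 : Polynomial R))
      have h3 : (Polynomial.X + 1 : Polynomial R).natDegree ≤ 1 := by
        refine (Polynomial.natDegree_add_le _ _).trans ?_
        rw [Polynomial.natDegree_one]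
        exact max_le Polynomial.natDegree_X_le (Nat.zero_le 1)
      exact h2.trans (by nlinarith)
    rw [ih (i + 1) d (q.comp (Polynomial.X + 1)) (by
        intro k hk
        apply Polynomial.coeff_eq_zero_of_natDegree_lt
        omega) (by omega),
      ih i (d - 1) (q.comp (Polynomial.X + 1) - q) (by
        intro k hk
        rcases Nat.lt_or_ge q.natDegree k with hk' | hk'
        · rw [Polynomial.coeff_sub, Polynomial.coeff_eq_zero_of_natDegree_lt (by omega),
            Polynomial.coeff_eq_zero_of_natDegree_lt hk', sub_zero]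
        · have hkd : k = q.natDegree := by omega
          rw [Polynomial.coeff_sub, hkd, hX]
          have h5 : (q.comp (Polynomial.X + Polynomial.C 1)).coeff q.natDegree =
              q.coeff q.natDegree := by
            rw [← Polynomial.taylor_apply]
            exact Polynomial.coeff_taylor_natDegree (1 : R) q
          rw [h5, sub_self]) (by omega), add_zero]

/-- monomial times exponential -/
lemma dl_monexp (m : ℕ) (C : Rˣ) (hC : ((C : R) - 1) ^ m = 0) (T d : ℕ) (hT : d + m ≤ T) :
    dl^[T] (fun n : ℤ => ((n : R) ^ d * ((C ^ n : Rˣ) : R))) = 0 := by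
  have h1 := dl_polyexp m C hC T 0 (d + 1) (Polynomial.X ^ d) (by
    intro k hk
    rw [Polynomial.coeff_X_pow, if_neg (by omega)]) (by omega)
  simpa using h1

/-- several variables -/
theorem eq_zero_of_box {ι : Type} [Fintype ι] [DecidableEq ι] (T : ℕ) (h : (ι → ℤ) → R)
    (hT : ∀ (i : ι) (z : ι → ℤ), dl^[T] (fun n => h (Function.update z i n)) = 0)
    (h0 : ∀ z : ι → ℤ, (∀ i, 0 ≤ z i ∧ z i < T) → h z = 0) (z : ι → ℤ) : h z = 0 := by
  have key : ∀ s : Finset ι, ∀ z : ι → ℤ, (∀ i ∉ s, 0 ≤ z i ∧ z i < T) → h z = 0 := by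
    intro s
    induction s using Finset.induction_on with
    | empty => intro z hz; exact h0 z (fun i => hz i (by simp))
    | insert a s ha ih =>
      intro z hz
      have h1 := eq_zero_of_dl T (fun n => h (Function.update z a n)) (hT a z) (by
        intro n hn hn'
        apply ih
        intro i hi
        by_cases hia : i = a
        · subst hia
          rw [Function.update_self]
          exact ⟨hn, hn'⟩
        · rw [Function.update_of_ne hia]
          exact hz i (by simp [hia, hi]))
      have h2 := congrFun h1 (z a)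
      simpa using h2
  exact key Finset.univ z (fun i hi => absurd (Finset.mem_univ i) hi)

/-- pigeonhole -/
theorem mod_siegel {I K : Type} [Fintype I] [DecidableEq I] [Fintype K] [DecidableEq K]
    [Fintype R] (H : ℕ) (c : K → I → R)
    (hpig : Fintype.card R ^ Fintype.card K < (H + 1) ^ Fintype.card I) :
    ∃ G : I → ℤ, G ≠ 0 ∧ (∀ i, |G i| ≤ H) ∧ ∀ k, ∑ i, (G i : R) * c k i = 0 := by
  classical
  let Φ : (I → Fin (H + 1)) → (K → R) := fun F k => ∑ i, ((F i : ℕ) : R) * c k i
  have hcard : Fintype.card (K → R) < Fintype.card (I → Fin (H + 1)) := by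
    rw [Fintype.card_fun, Fintype.card_fun, Fintype.card_fin]
    exact hpig
  obtain ⟨F, F', hne, hFF⟩ := Fintype.exists_ne_map_eq_of_card_lt Φ hcard
  refine ⟨fun i => ((F i : ℕ) : ℤ) - ((F' i : ℕ) : ℤ), ?_, ?_, ?_⟩
  · intro h
    apply hne
    funext u
    have := congrFun h u
    simp only [Pi.zero_apply] at this
    apply Fin.ext
    omega
  · intro u
    have h1 := (F u).isLt
    have h2 := (F' u).isLt
    show |((F u : ℕ) : ℤ) - ((F' u : ℕ) : ℤ)| ≤ (H : ℤ)
    rw [abs_le]
    constructor <;> omega
  · intro k
    have h1 := congrFun hFF k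
    simp only [Φ] at h1
    have h2 : ∑ i, ((((F i : ℕ) : ℤ) - ((F' i : ℕ) : ℤ) : ℤ) : R) * c k i =
        ∑ i, ((F i : ℕ) : R) * c k i - ∑ i, ((F' i : ℕ) : R) * c k i := by
      rw [← Finset.sum_sub_distrib]
      apply Finset.sum_congr rfl
      intro i _
      push_cast
      ring
    rw [h2, h1, sub_self]

end Pool.Agent.Y913.Sm
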