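import Pool.Agent.Y913.Sm.Vec

/-!
Simultaneous `p`-adic relations, XI: pairs congruent modulo a very high power of a prime involve
only few primes.
-/

set_option autoImplicit false

namespace Pool.Agent.Y913.Sm

open Finset Pool.Agent.Y913 Pool.Agent.Y913.Bk

/-- the simultaneous relations theorem, uniformly in the number of primes -/
lemma sim_unif (N0 k : ℕ) (hk : 1 ≤ k) : ∃ κ g0 : ℕ, 1 ≤ g0 ∧ ∀ g, g0 ≤ g →
    ∀ p : ℕ, p.Prime → p ≤ 2 ^ g → ∀ (σ : Type) [Fintype σ], Fintype.card σ ≤ N0 →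
      ∀ q : σ → ℕ, (∀ j, 1 ≤ q j ∧ q j ≤ 2 ^ g) → (∀ j, (q j).Coprime p) →
      (∀ s : σ → ℤ, uq q s = 1 → s = 0) → ∀ v : Fin k → σ → ℤ, (∀ i j, |v i j| ≤ 2 ^ g) →
      LinearIndependent ℚ (fun i => qc (v i)) → ∀ M : ℕ, (∀ i, um (p ^ M) q (v i) = 1) →
      M ^ k ≤ p * g ^ κ := by
  choose κ g0 hg0 h using fun N => sim_gen N k hk
  refine ⟨∑ N ∈ Finset.range (N0 + 1), κ N, ∑ N ∈ Finset.range (N0 + 1), g0 N, ?_, ?_⟩
  · have := Finset.single_le_sum (f := g0) (fun _ _ => Nat.zero_le _)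
      (Finset.mem_range.mpr (by omega : 0 < N0 + 1))
    have := hg0 0
    omega
  · intro g hg p hp hpg σ _ hσ q hq hqp hind v hv hli M hrel
    have h1 := Finset.single_le_sum (f := g0) (fun _ _ => Nat.zero_le _)
      (Finset.mem_range.mpr (by omega : Fintype.card σ < N0 + 1))
    have h2 := Finset.single_le_sum (f := κ) (fun _ _ => Nat.zero_le _)
      (Finset.mem_range.mpr (by omega : Fintype.card σ < N0 + 1))
    have h3 := h (Fintype.card σ) g (h1.trans hg) p hp hpg σ rfl q hq hqp hind v hv hli M hrel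
    refine h3.trans (Nat.mul_le_mul_left _ (Nat.pow_le_pow_right ?_ h2))
    have := hg0 (Fintype.card σ)
    omega

/-- pairs congruent modulo a very high power of a prime involve only few primes -/
theorem few_primes (n k0 : ℕ) (hk0 : 1 ≤ k0) : ∃ κ g0 : ℕ, 1 ≤ g0 ∧ ∀ g, g0 ≤ g → ∀ r : ℕ,
    r.Prime → r ≤ 2 ^ g → ∀ s : ℤ, (s = 1 ∨ s = -1) → ∀ (E M : ℕ), 2 * E ≤ 2 ^ g →
    ∀ Q : Finset (ℕ × ℕ), (∀ q ∈ Q, 0 < q.1 ∧ 0 < q.2 ∧ Nat.Coprime q.1 q.2 ∧
      (prs q).card ≤ n ∧ (∀ l ∈ prs q, l ≤ 2 ^ g ∧ l ≠ r) ∧ q.1 < 2 ^ E ∧ q.2 < 2 ^ E ∧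
      ((r ^ M : ℕ) : ℤ) ∣ (q.2 : ℤ) - s * q.1) → M ^ k0 ≤ r * g ^ κ ∨
      ∃ T : Finset ℕ, (∀ l ∈ T, l.Prime ∧ l ≠ r) ∧ T.card ≤ n * k0 ∧ ∀ q ∈ Q, prs q ⊆ T := by
  classical
  obtain ⟨κ, g0, hg0, hsim⟩ := sim_unif (n * k0) k0 hk0
  refine ⟨κ, g0, hg0, ?_⟩
  intro g hg r hr hrg s hs E M hE Q hQ
  obtain ⟨T0, hT0⟩ : ∃ T0, T0 = Q.biUnion prs := ⟨_, rfl⟩
  have hqT0 : ∀ q ∈ Q, prs q ⊆ T0 := by
    intro q hq
    rw [hT0]
    exact Finset.subset_biUnion_of_mem prs hq
  obtain ⟨Q', hQ'Q, hli, hspan⟩ := exists_pivot (V := {l // l ∈ T0} → ℚ) Nat.prime_two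
    (fun q : ℕ × ℕ => qc (vec T0 q)) Q
  have hprs : ∀ q ∈ Q, ∀ l ∈ prs q, l.Prime ∧ l ≠ r := by
    intro q hq l hl
    refine ⟨?_, ((hQ q hq).2.2.2.2.1 l hl).2⟩
    unfold prs at hl
    exact Nat.prime_of_mem_primeFactors hl
  rcases Nat.lt_or_ge Q'.card k0 with hlt | hge
  · -- few independent vectors: few primes
    right
    refine ⟨Q'.biUnion prs, ?_, ?_, ?_⟩
    · intro l hl
      obtain ⟨q, hq, hlq⟩ := Finset.mem_biUnion.mp hl
      exact hprs q (hQ'Q hq) l hlq
    · calc (Q'.biUnion prs).card ≤ ∑ q ∈ Q', (prs q).card := Finset.card_biUnion_le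
        _ ≤ ∑ _q ∈ Q', n := Finset.sum_le_sum (fun q hq => (hQ q (hQ'Q hq)).2.2.2.1)
        _ = Q'.card * n := by rw [Finset.sum_const, smul_eq_mul]
        _ ≤ n * k0 := by rw [mul_comm]; exact Nat.mul_le_mul_left _ hlt.le
    · intro q hq l hl
      by_contra hnot
      obtain ⟨Δ, c, hΔ, hc⟩ := hspan q hq
      have hlT0 : l ∈ T0 := hqT0 q hq hl
      have h1 := congrFun hc ⟨l, hlT0⟩
      rw [Finset.sum_apply] at h1
      have h0 : ∀ q' ∈ Q', vec T0 q' ⟨l, hlT0⟩ = 0 := by
        intro q' hq'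
        have hl' : l ∉ prs q' := fun h => hnot (Finset.mem_biUnion.mpr ⟨q', hq', h⟩)
        have hpos := hQ q' (hQ'Q hq')
        unfold prs at hl'
        rw [Nat.primeFactors_mul hpos.1.ne' hpos.2.1.ne', Finset.mem_union, not_or] at hl'
        unfold vec
        have e1 : q'.1.factorization l = 0 := by
          rw [← Finsupp.notMem_support_iff, Nat.support_factorization]
          exact hl'.1
        have e2 : q'.2.factorization l = 0 := by
          rw [← Finsupp.notMem_support_iff, Nat.support_factorization]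
          exact hl'.2
        show (q'.2.factorization l : ℤ) - (q'.1.factorization l : ℤ) = 0
        rw [e1, e2, sub_self]
      rw [Finset.sum_eq_zero (by
        intro q' hq'
        rw [Pi.smul_apply]
        show c q' • (((vec T0 q') ⟨l, hlT0⟩ : ℤ) : ℚ) = 0
        rw [h0 q' hq', Int.cast_zero, smul_zero])] at h1
      rw [Pi.smul_apply, zsmul_eq_mul] at h1
      have hΔ0 : (Δ : ℚ) ≠ 0 := by
        intro h
        apply hΔ
        have : Δ = 0 := by exact_mod_cast h
        rw [this]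
        exact dvd_zero _
      have h2 : vec T0 q ⟨l, hlT0⟩ = 0 := by
        rcases mul_eq_zero.mp h1 with h | h
        · exact absurd h hΔ0
        · have h3 : ((vec T0 q ⟨l, hlT0⟩ : ℤ) : ℚ) = 0 := h
          exact_mod_cast h3
      have hpos := hQ q hq
      have h3 : (q.2.factorization l : ℤ) - (q.1.factorization l : ℤ) = 0 := h2
      have h4 := fact_one_zero hpos.2.2.1 l
      have h5 : q.1.factorization l = 0 ∧ q.2.factorization l = 0 := by
        rcases h4 with h | h <;> constructor <;> omega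
      unfold prs at hl
      rw [Nat.primeFactors_mul hpos.1.ne' hpos.2.1.ne', Finset.mem_union] at hl
      rcases hl with h | h
      · rw [← Nat.support_factorization, Finsupp.mem_support_iff] at h
        exact h h5.1
      · rw [← Nat.support_factorization, Finsupp.mem_support_iff] at h
        exact h h5.2
  · -- many independent vectors
    left
    obtain ⟨Q2, hQ2Q', hQ2c⟩ := Finset.exists_subset_card_eq hge
    have hQ2Q : Q2 ⊆ Q := hQ2Q'.trans hQ'Q
    let e : Fin k0 ≃ {q // q ∈ Q2} := (Fintype.equivFinOfCardEq (by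
      rw [Fintype.card_coe, hQ2c])).symm
    obtain ⟨T, hT⟩ : ∃ T, T = Q2.biUnion prs := ⟨_, rfl⟩
    have hqT : ∀ q ∈ Q2, prs q ⊆ T := by
      intro q hq
      rw [hT]
      exact Finset.subset_biUnion_of_mem prs hq
    have hTr : ∀ l ∈ T, l.Prime ∧ l ≠ r := by
      intro l hl
      rw [hT] at hl
      obtain ⟨q, hq, hlq⟩ := Finset.mem_biUnion.mp hl
      exact hprs q (hQ2Q hq) l hlq
    have hTc : T.card ≤ n * k0 := by
      calc T.card ≤ ∑ q ∈ Q2, (prs q).card := by rw [hT]; exact Finset.card_biUnion_le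
        _ ≤ ∑ _q ∈ Q2, n := Finset.sum_le_sum (fun q hq => (hQ q (hQ2Q hq)).2.2.2.1)
        _ = n * k0 := by rw [Finset.sum_const, smul_eq_mul, hQ2c, mul_comm]
    have hli2 : LinearIndependent ℚ (fun i : Fin k0 => qc (vec T0 (e i).1)) := by
      have h1 : LinearIndependent ℚ
          ((fun j : {j // j ∈ Q'} => qc (vec T0 j.1)) ∘
            (fun i : Fin k0 => (⟨(e i).1, hQ2Q' (e i).2⟩ : {j // j ∈ Q'}))) := by
        apply hli.comp
        intro i i' h
        simp only [Subtype.mk.injEq] at h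
        exact e.injective (Subtype.ext h)
      exact h1
    refine hsim g hg r hr hrg {l // l ∈ T} (by rw [Fintype.card_coe]; exact hTc) (pT T) ?_ ?_
      (uq_indep (fun l hl => (hTr l hl).1)) (fun i => (2 : ℤ) • vec T (e i).1) ?_ ?_ M ?_
    · intro j
      have hj : j.1 ∈ Q2.biUnion prs := by rw [← hT]; exact j.2
      obtain ⟨q, hq, hlq⟩ := Finset.mem_biUnion.mp hj
      exact ⟨(hTr j.1 j.2).1.one_lt.le, ((hQ q (hQ2Q hq)).2.2.2.2.1 _ hlq).1⟩
    · intro j
      exact (Nat.coprime_primes (hTr j.1 j.2).1 hr).mpr (hTr j.1 j.2).2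
    · intro i j
      obtain ⟨h1, h2, h3, h4, h5, h6, h7, h8⟩ := hQ (e i).1 (hQ2Q (e i).2)
      have hf : ∀ m : ℕ, 0 < m → m < 2 ^ E → m.factorization j.1 < E := by
        intro m hm hmE
        have h9 : j.1 ^ m.factorization j.1 ≤ m := Nat.ordProj_le _ hm.ne'
        have h10 : 2 ^ m.factorization j.1 ≤ j.1 ^ m.factorization j.1 :=
          Nat.pow_le_pow_left (hTr j.1 j.2).1.two_le _
        exact (Nat.pow_lt_pow_iff_right (by norm_num : 1 < 2)).mp
          (lt_of_le_of_lt (h10.trans h9) hmE)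
      have ha := hf _ h1 h6
      have hb := hf _ h2 h7
      have hE' : (2 : ℤ) * E ≤ 2 ^ g := by exact_mod_cast hE
      show |(2 : ℤ) * vec T (e i).1 j| ≤ 2 ^ g
      unfold vec
      rw [abs_le]
      constructor <;> omega
    · have h1 : LinearIndependent ℚ (fun i : Fin k0 => qc (vec T (e i).1)) := by
        rw [Fintype.linearIndependent_iff]
        intro c hc
        apply Fintype.linearIndependent_iff.mp hli2 c
        funext l
        rw [Finset.sum_apply, Pi.zero_apply]
        by_cases hl : l.1 ∈ T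
        · have h2 := congrFun hc ⟨l.1, hl⟩
          rw [Finset.sum_apply] at h2
          exact h2
        · apply Finset.sum_eq_zero
          intro i _
          have hl' : l.1 ∉ prs (e i).1 := fun h => hl (hqT _ (e i).2 h)
          have hpos := hQ (e i).1 (hQ2Q (e i).2)
          unfold prs at hl'
          rw [Nat.primeFactors_mul hpos.1.ne' hpos.2.1.ne', Finset.mem_union, not_or] at hl'
          have e1 : (e i).1.1.factorization l.1 = 0 := by
            rw [← Finsupp.notMem_support_iff, Nat.support_factorization]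
            exact hl'.1
          have e2 : (e i).1.2.factorization l.1 = 0 := by
            rw [← Finsupp.notMem_support_iff, Nat.support_factorization]
            exact hl'.2
          rw [Pi.smul_apply]
          have h3 : qc (vec T0 (e i).1) l = 0 := by
            show (((((e i).1.2.factorization l.1 : ℕ) : ℤ) -
              (((e i).1.1.factorization l.1 : ℕ) : ℤ) : ℤ) : ℚ) = 0
            rw [e1, e2]
            simp
          rw [h3, smul_zero]
      have h2 := h1.units_smul (fun _ => Units.mk0 (2 : ℚ) (by norm_num))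
      convert h2 using 1
      funext i
      rw [Pi.smul_apply', qc_zsmul]
      rfl
    · intro i
      obtain ⟨h1, h2, h3, h4, h5, h6, h7, h8⟩ := hQ (e i).1 (hQ2Q (e i).2)
      rw [um_zsmul]
      have h9 := um_vec hr hTr h1 h2 h3 (hqT _ (e i).2) h8
      rw [← Units.val_inj]
      have h10 : ((um (r ^ M) (pT T) (vec T (e i).1)) ^ (2 : ℤ) : (ZMod (r ^ M))ˣ) =
          (um (r ^ M) (pT T) (vec T (e i).1)) ^ 2 := by norm_cast
      rw [h10, Units.val_pow_eq_pow_val, h9, Units.val_one]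
      rcases hs with rfl | rfl
      · simp
      · simp

end Pool.Agent.Y913.Sm
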