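import Pool.Agent.Y913.Sm.Core
import Pool.Agent.Y913.Bk.Weak

/-!
Simultaneous `p`-adic relations, IX: the theorem.
-/

set_option autoImplicit false

namespace Pool.Agent.Y913.Sm

open Finset Pool.Agent.Y913 Pool.Agent.Y913.Bk

/-- parameters -/
def pL (N k g : ℕ) : ℕ := (k * N + 4) * g

/-- parameters -/
def pD (N k g : ℕ) : ℕ := 4 * (1 + 4 * N * pL N k g) ^ N + 1

/-- parameters -/
def pG (N k g : ℕ) : ℕ := 2 * (N + 1) * pD N k g

/-- parameters -/
def pP (N k g : ℕ) : ℕ := 3 ^ N + 2 ^ ((N + 2) * (N + 1)) * pD N k g * pG N k g ^ N +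
  2 ^ ((N + 2) * (N + 1)) * pG N k g ^ N * 9 ^ N + 1

lemma polyB_pL (N k : ℕ) : PolyB (fun g => pL N k g) := (PolyB.const (k * N + 4)).mul PolyB.id

lemma polyB_pD (N k : ℕ) : PolyB (fun g => pD N k g) :=
  ((PolyB.const 4).mul (((PolyB.const 1).add ((PolyB.const (4 * N)).mul
    (polyB_pL N k))).pow N)).add (PolyB.const 1)

lemma polyB_pG (N k : ℕ) : PolyB (fun g => pG N k g) :=
  (PolyB.const (2 * (N + 1))).mul (polyB_pD N k)

lemma polyB_pP (N k : ℕ) : PolyB (fun g => pP N k g) :=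
  (((PolyB.const (3 ^ N)).add (((PolyB.const (2 ^ ((N + 2) * (N + 1)))).mul (polyB_pD N k)).mul
    ((polyB_pG N k).pow N))).add (((PolyB.const (2 ^ ((N + 2) * (N + 1)))).mul
    ((polyB_pG N k).pow N)).mul (PolyB.const (9 ^ N)))).add (PolyB.const 1)

lemma exists_pow_ge (x k : ℕ) (hk : 1 ≤ k) : ∃ j : ℕ, x ≤ (2 ^ j) ^ k ∧
    (2 ^ j) ^ k ≤ 2 ^ k * (x + 1) := by
  have hex : ∃ j : ℕ, x ≤ (2 ^ j) ^ k := by
    refine ⟨x, ?_⟩
    calc x ≤ 2 ^ x := (Nat.lt_two_pow_self).le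
      _ = (2 ^ x) ^ 1 := (pow_one _).symm
      _ ≤ (2 ^ x) ^ k := Nat.pow_le_pow_right Nat.one_le_two_pow hk
  classical
  refine ⟨Nat.find hex, Nat.find_spec hex, ?_⟩
  rcases Nat.eq_zero_or_pos (Nat.find hex) with h | h
  · rw [h, pow_zero, one_pow]
    exact Nat.mul_pos (Nat.pow_pos (by norm_num)) (by omega)
  · have h1 := Nat.find_min hex (by omega : Nat.find hex - 1 < Nat.find hex)
    push Not at h1
    have h2 : 2 ^ Nat.find hex = 2 * 2 ^ (Nat.find hex - 1) := by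
      rw [← pow_succ']
      congr 1
      omega
    rw [h2, mul_pow]
    apply Nat.mul_le_mul_left
    omega

/-- **simultaneous relations**: if `k` independent monomials in `N` primes are `1` modulo `p^M`,
then `M ^ k ≤ p * (log)^κ` -/
theorem sim_gen (N k : ℕ) (hk : 1 ≤ k) : ∃ κ g0 : ℕ, 1 ≤ g0 ∧ ∀ g, g0 ≤ g →
    ∀ p : ℕ, p.Prime → p ≤ 2 ^ g → ∀ (σ : Type) [Fintype σ], Fintype.card σ = N →
      ∀ q : σ → ℕ, (∀ j, 1 ≤ q j ∧ q j ≤ 2 ^ g) → (∀ j, (q j).Coprime p) →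
      (∀ s : σ → ℤ, uq q s = 1 → s = 0) → ∀ v : Fin k → σ → ℤ, (∀ i j, |v i j| ≤ 2 ^ g) →
      LinearIndependent ℚ (fun i => qc (v i)) → ∀ M : ℕ, (∀ i, um (p ^ M) q (v i) = 1) →
      M ^ k ≤ p * g ^ κ := by
  classical
  obtain ⟨ck, hck⟩ : ∃ ck, 4 * k + 1 ≤ 2 ^ ck := ⟨4 * k + 1, (Nat.lt_two_pow_self).le⟩
  obtain ⟨cN, hcN⟩ : ∃ cN, N * 2 * (N + 1) ≤ 2 ^ cN := ⟨N * 2 * (N + 1), (Nat.lt_two_pow_self).le⟩
  obtain ⟨g1, hg1⟩ := ((polyB_pP N k).pow N).le_two_pow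
  obtain ⟨g2, hg2⟩ := (polyB_pG N k).le_two_pow
  -- the polynomial in the bound
  have hU : PolyB (fun g => 2 ^ k * (2 * pP N k g ^ N) *
      ((g + ck) * k + 4 * (N * pL N k g * pG N k g) + 2) ^ k) :=
    ((PolyB.const (2 ^ k)).mul ((PolyB.const 2).mul ((polyB_pP N k).pow N))).mul
      ((((((PolyB.id).add (PolyB.const ck)).mul (PolyB.const k)).add
        ((PolyB.const 4).mul (((PolyB.const N).mul (polyB_pL N k)).mul (polyB_pG N k)))).add
          (PolyB.const 2)).pow k)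
  obtain ⟨κ, g3, hg3⟩ := hU
  refine ⟨κ, g1 + g2 + g3 + (ck * k * N + k + cN + 2), by omega, ?_⟩
  intro g hg p hp hpg σ _ hσ q hq hqp hind v hv hli M hrel
  have : Fact p.Prime := ⟨hp⟩
  have hP1 : 1 ≤ pP N k g := Nat.le_add_left 1 _
  have hPN1 : 1 ≤ pP N k g ^ N := Nat.one_le_pow _ _ hP1
  obtain ⟨j1, hj1, hj1'⟩ := exists_pow_ge (p * pP N k g ^ N) k hk
  obtain ⟨U, hUdef⟩ : ∃ U, U = (g + ck) * k + 4 * (N * pL N k g * pG N k g) + 2 := ⟨_, rfl⟩
  have hUb : (2 ^ j1 * U) ^ k ≤ p * g ^ κ := by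
    have h1 := hg3 g (by omega)
    simp only at h1
    rw [← hUdef] at h1
    calc (2 ^ j1 * U) ^ k = (2 ^ j1) ^ k * U ^ k := by rw [mul_pow]
      _ ≤ (2 ^ k * (p * pP N k g ^ N + 1)) * U ^ k := Nat.mul_le_mul_right _ hj1'
      _ ≤ (2 ^ k * (p * (2 * pP N k g ^ N))) * U ^ k := by
          apply Nat.mul_le_mul_right
          apply Nat.mul_le_mul_left
          have := Nat.mul_pos hp.pos hPN1
          nlinarith
      _ = p * (2 ^ k * (2 * pP N k g ^ N) * U ^ k) := by ring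
      _ ≤ p * g ^ κ := Nat.mul_le_mul_left _ h1
  by_contra hcon
  push Not at hcon
  have hMU : 2 ^ j1 * U < M := by
    by_contra h
    push Not at h
    have := Nat.pow_le_pow_left h k
    omega
  have h2j1 : 1 ≤ 2 ^ j1 := Nat.one_le_two_pow
  have hM2 : 2 ≤ M := by
    have : 2 ≤ U := by omega
    nlinarith
  have h4kB : 4 * k * 2 ^ g + 1 ≤ 2 ^ (g + ck) := by
    have h2g : 1 ≤ 2 ^ g := Nat.one_le_two_pow
    calc 4 * k * 2 ^ g + 1 ≤ (4 * k + 1) * 2 ^ g := by nlinarith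
      _ ≤ 2 ^ ck * 2 ^ g := Nat.mul_le_mul_right _ hck
      _ = 2 ^ (g + ck) := by rw [← pow_add, add_comm]
  have hPg : pP N k g ^ N ≤ 2 ^ g := hg1 g (by omega)
  have hGg : pG N k g ≤ 2 ^ g := hg2 g (by omega)
  have hj1g : 2 ^ j1 ≤ 2 ^ (k + 1 + 2 * g) := by
    calc 2 ^ j1 = (2 ^ j1) ^ 1 := (pow_one _).symm
      _ ≤ (2 ^ j1) ^ k := Nat.pow_le_pow_right h2j1 hk
      _ ≤ 2 ^ k * (p * pP N k g ^ N + 1) := hj1'
      _ ≤ 2 ^ k * (2 ^ g * 2 ^ g + 1) := by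
          apply Nat.mul_le_mul_left
          exact Nat.add_le_add_right (Nat.mul_le_mul hpg hPg) 1
      _ ≤ 2 ^ k * (2 * (2 ^ g * 2 ^ g)) := by
          apply Nat.mul_le_mul_left
          have : 0 < 2 ^ g * 2 ^ g := by positivity
          omega
      _ = 2 ^ (k + 1 + 2 * g) := by
          rw [← pow_add, ← pow_succ', ← pow_add]
          congr 1
          omega
  refine sim_core (k := k) (p := p) (M := M) (B := 2 ^ g) (X := 2 ^ g) hM2 hk q hq hqp hind v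
    (fun i j => by exact_mod_cast hv i j) hli hrel (pL N k g) (pD N k g) (pG N k g) j1
    ((g + ck) * k) (pP N k g) ?_ ?_ ?_ ?_ ?_ ?_ ?_ ?_ ?_ ?_ ?_ ?_ ?_
  · unfold pL
    exact Nat.mul_pos (by omega) (by omega)
  · calc (4 * k * 2 ^ g + 1) ^ k ≤ (2 ^ (g + ck)) ^ k := Nat.pow_le_pow_left h4kB _
      _ = 2 ^ ((g + ck) * k) := by rw [← pow_mul]
      _ < 2 ^ ((g + ck) * k + 1) := Nat.pow_lt_pow_right (by norm_num) (by omega)
      _ ≤ p ^ ((g + ck) * k + 1) := Nat.pow_le_pow_left hp.two_le _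
  · rw [hσ]
    unfold pD
    omega
  · rw [hσ]; rfl
  · rw [hσ]
    refine le_trans ?_ hMU.le
    rw [hUdef]
    calc (g + ck) * k + 4 * (N * pL N k g * (2 ^ j1 * pG N k g)) ≤
          2 ^ j1 * ((g + ck) * k) + 4 * (N * pL N k g * (2 ^ j1 * pG N k g)) := by
            apply Nat.add_le_add_right
            exact Nat.le_mul_of_pos_left _ (by omega)
      _ = 2 ^ j1 * ((g + ck) * k + 4 * (N * pL N k g * pG N k g)) := by ring
      _ ≤ _ := Nat.mul_le_mul_left _ (by omega)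
  · rw [hσ]
    calc N * (2 * ((4 * k * 2 ^ g + 1) ^ k) ^ N) * ((N + 1) * 2 ^ j1) =
          (N * 2 * (N + 1)) * (((4 * k * 2 ^ g + 1) ^ k) ^ N * 2 ^ j1) := by ring
      _ ≤ 2 ^ cN * (((2 ^ (g + ck)) ^ k) ^ N * 2 ^ (k + 1 + 2 * g)) :=
          Nat.mul_le_mul hcN (Nat.mul_le_mul
            (Nat.pow_le_pow_left (Nat.pow_le_pow_left h4kB _) _) hj1g)
      _ = 2 ^ (cN + ((g + ck) * k * N + (k + 1 + 2 * g))) := by
          rw [← pow_mul, ← pow_mul, ← pow_add, ← pow_add]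
          congr 2
          ring
      _ ≤ 2 ^ pL N k g := by
          apply Nat.pow_le_pow_right (by norm_num)
          unfold pL
          have e1 : (g + ck) * k * N = k * N * g + ck * k * N := by ring
          rw [e1, add_mul]
          omega
  · apply Nat.pow_le_pow_right (by norm_num)
    unfold pL
    exact Nat.le_mul_of_pos_left _ (by omega)
  · calc 2 ^ j1 * pG N k g ≤ 2 ^ (k + 1 + 2 * g) * 2 ^ g := Nat.mul_le_mul hj1g hGg
      _ = 2 ^ (k + 1 + 2 * g + g) := by rw [← pow_add]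
      _ ≤ 2 ^ pL N k g := by
          apply Nat.pow_le_pow_right (by norm_num)
          unfold pL
          have : 0 ≤ k * N * g := Nat.zero_le _
          rw [add_mul]
          omega
  · calc pD N k g ≤ pG N k g := by
          unfold pG
          exact Nat.le_mul_of_pos_left _ (by omega)
      _ ≤ 2 ^ g := hGg
      _ ≤ 2 ^ pL N k g := by
          apply Nat.pow_le_pow_right (by norm_num)
          unfold pL
          exact Nat.le_mul_of_pos_left _ (by omega)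
  · rw [hσ]
    exact Nat.lt_succ_of_le ((Nat.le_add_right _ _).trans (Nat.le_add_right _ _))
  · rw [hσ]
    exact Nat.lt_succ_of_le ((Nat.le_add_left _ _).trans (Nat.le_add_right _ _))
  · rw [hσ]
    exact (Nat.le_add_left _ _).trans (Nat.le_add_right _ _)
  · rw [hσ]
    exact hj1

end Pool.Agent.Y913.Sm
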