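import Pool.Agent.Y913.Bk.Siegel
import Pool.Agent.Y913.Bk.LinAlg

/-!
Simultaneous `p`-adic relations, IV: integral bases at `p` and small relations.
-/

set_option autoImplicit false

namespace Pool.Agent.Y913.Sm

open Finset Pool.Agent.Y913.Bk

/-- a `p`-integral basis among finitely many generators -/
theorem exists_pivot {V : Type} [AddCommGroup V] [Module ℚ V] {ι : Type} [DecidableEq ι]
    {p : ℕ} (hp : p.Prime) (x : ι → V) (J0 : Finset ι) :
    ∃ J ⊆ J0, LinearIndependent ℚ (fun j : {j // j ∈ J} => x j.1) ∧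
      ∀ i ∈ J0, ∃ (Δ : ℤ) (c : ι → ℤ), ¬ (p : ℤ) ∣ Δ ∧ Δ • x i = ∑ j ∈ J, c j • x j := by
  classical
  let Q : ℕ → Prop := fun n => ∃ J ⊆ J0, J.card = n ∧
    ∀ i ∈ J0, ∃ (Δ : ℤ) (c : ι → ℤ), ¬ (p : ℤ) ∣ Δ ∧ Δ • x i = ∑ j ∈ J, c j • x j
  have hpI : Prime (p : ℤ) := Nat.prime_iff_prime_int.mp hp
  have hQ : ∃ n, Q n := by
    refine ⟨J0.card, J0, Finset.Subset.refl _, rfl, fun i hi => ⟨1, Pi.single i 1, ?_, ?_⟩⟩
    · intro h
      exact hpI.not_isUnit (isUnit_of_dvd_one h)
    · rw [Finset.sum_eq_single i]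
      · simp
      · intro j _ hj
        simp [hj]
      · intro h; exact absurd hi h
  obtain ⟨J, hJ0, hJn, hJ⟩ := Nat.find_spec hQ
  refine ⟨J, hJ0, ?_, hJ⟩
  by_contra hdep
  have hdep' : ¬ LinearIndependent ℤ (fun j : {j // j ∈ J} => x j.1) := by
    intro h
    exact hdep ((LinearIndependent.iff_fractionRing (R := ℤ) (K := ℚ)).mp h)
  obtain ⟨a, ha, i0, hai0⟩ := Fintype.not_linearIndependent_iff.mp hdep'
  obtain ⟨a', ha', hgcd⟩ := Finset.extract_gcd a (s := Finset.univ) ⟨i0, Finset.mem_univ _⟩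
  have hg0 : Finset.univ.gcd a ≠ 0 := by
    intro h
    have := ha' i0 (Finset.mem_univ _)
    rw [h, zero_mul] at this
    exact hai0 this
  have hrel : ∑ j, a' j • x j.1 = 0 := by
    have h1 : (Finset.univ.gcd a) • ∑ j, a' j • x j.1 = 0 := by
      rw [Finset.smul_sum, ← ha]
      apply Finset.sum_congr rfl
      intro j _
      rw [ha' j (Finset.mem_univ _), mul_smul]
    have h2 : ((Finset.univ.gcd a : ℤ) : ℚ) • ∑ j, a' j • x j.1 = 0 := by
      rw [Int.cast_smul_eq_zsmul]
      exact h1
    rcases smul_eq_zero.mp h2 with h | h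
    · exact absurd (by exact_mod_cast h) hg0
    · exact h
  obtain ⟨j0, hj0⟩ : ∃ j0, ¬ (p : ℤ) ∣ a' j0 := by
    by_contra hcon
    push Not at hcon
    have h1 : (p : ℤ) ∣ Finset.univ.gcd a' := Finset.dvd_gcd (fun j _ => hcon j)
    rw [hgcd] at h1
    exact hpI.not_isUnit (isUnit_of_dvd_one h1)
  -- extend the relation
  let b : ι → ℤ := fun i => if h : i ∈ J then a' ⟨i, h⟩ else 0
  have hb : ∑ j ∈ J, b j • x j = 0 := by
    rw [← Finset.sum_coe_sort J (fun j => b j • x j), ← hrel]
    apply Finset.sum_congr rfl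
    intro j _
    simp only [b]
    rw [dif_pos j.2]
  have hbj0 : ¬ (p : ℤ) ∣ b j0.1 := by
    simp only [b]
    rw [dif_pos j0.2]
    exact hj0
  have hmin := Nat.find_min' hQ (m := J.card - 1) ⟨J.erase j0.1,
    (Finset.erase_subset _ _).trans hJ0, Finset.card_erase_of_mem j0.2, by
      intro i hi
      obtain ⟨Δ, c, hΔ, hc⟩ := hJ i hi
      refine ⟨b j0.1 * Δ, fun j => b j0.1 * c j - c j0.1 * b j, ?_, ?_⟩
      · intro h
        rcases hpI.dvd_or_dvd h with h | h
        · exact hbj0 h
        · exact hΔ h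
      · have h1 : ∑ j ∈ J, (b j0.1 * c j - c j0.1 * b j) • x j = (b j0.1 * Δ) • x i := by
          rw [mul_smul, hc, Finset.smul_sum]
          have h2 : ∑ j ∈ J, (b j0.1 * c j - c j0.1 * b j) • x j =
              ∑ j ∈ J, b j0.1 • c j • x j - c j0.1 • ∑ j ∈ J, b j • x j := by
            rw [Finset.smul_sum, ← Finset.sum_sub_distrib]
            apply Finset.sum_congr rfl
            intro j _
            rw [sub_smul, mul_smul, mul_smul]
          rw [h2, hb, smul_zero, sub_zero]
        rw [← h1, ← Finset.add_sum_erase J _ j0.2]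
        rw [mul_comm (b j0.1), sub_self, zero_smul, zero_add]⟩
  have hpos : 0 < J.card := Finset.card_pos.mpr ⟨j0.1, j0.2⟩
  omega

/-- Siegel's lemma: a nonzero combination with prescribed zeros -/
theorem small_comb {σ : Type} [Fintype σ] [DecidableEq σ] {k : ℕ} (v : Fin k → σ → ℤ) (B : ℕ)
    (hv : ∀ i j, |v i j| ≤ B) (L : Finset σ) (hL : L.card < k) :
    ∃ c : Fin k → ℤ, c ≠ 0 ∧ (∀ i, |c i| ≤ ((4 * k * B + 1) ^ (k - 1) : ℕ)) ∧
      ∀ l ∈ L, ∑ i, c i * v i l = 0 := by
  classical
  set H : ℕ := (4 * k * B + 1) ^ (k - 1) with hH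
  have hH1 : 1 ≤ H := Nat.one_le_pow _ _ (by omega)
  obtain ⟨c, hc0, hcH, hc⟩ := real_siegel (I := Fin k) (K := {l // l ∈ L}) H 2 B (by norm_num)
    (fun l i => (v i l.1 : ℝ)) (by
      intro l i
      have := hv i l.1
      exact_mod_cast this) (by
      rw [Fintype.card_coe, Fintype.card_fin]
      have h1 : 2 * (k * H * B * 2) + 1 ≤ (4 * k * B + 1) * H := by
        nlinarith
      calc (2 * (k * H * B * 2) + 1) ^ L.card ≤ ((4 * k * B + 1) * H) ^ L.card :=
            Nat.pow_le_pow_left h1 _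
        _ ≤ ((4 * k * B + 1) * H) ^ (k - 1) :=
            Nat.pow_le_pow_right (Nat.mul_pos (by omega) hH1) (by omega)
        _ = H * H ^ (k - 1) := by rw [mul_pow, ← hH]
        _ = H ^ k := by
            rw [← pow_succ']
            congr 1
            omega
        _ < (H + 1) ^ k := Nat.pow_lt_pow_left (by omega) (by omega))
  refine ⟨c, hc0, hcH, ?_⟩
  intro l hl
  have h1 := hc ⟨l, hl⟩
  have h2 : |((∑ i, c i * v i l : ℤ) : ℝ)| ≤ 1 / ((2 : ℕ) : ℝ) := by
    push_cast
    exact h1
  by_contra hne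
  have h3 : (1 : ℝ) ≤ |((∑ i, c i * v i l : ℤ) : ℝ)| := by
    rw [← Int.cast_abs]
    exact_mod_cast Int.one_le_abs hne
  push_cast at h2 h3
  norm_num at h2
  linarith

/-- the data of the first step -/
theorem step_one {σ : Type} [Fintype σ] [DecidableEq σ] {k : ℕ} {p : ℕ} (hp : p.Prime)
    (v : Fin k → σ → ℤ) (B : ℕ) (hv : ∀ i j, |v i j| ≤ B)
    (hli : LinearIndependent ℚ (fun i => qc (v i))) :
    ∃ (J : Finset σ) (y : σ → σ → ℤ) (c : σ → Fin k → ℤ) (g : σ → ℤ),
      LinearIndependent ℚ (fun j : {j // j ∈ J} =>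
        (Submodule.span ℚ (Set.range (fun i => qc (v i)))).mkQ (Pi.single j.1 (1 : ℚ))) ∧
      (∀ i ∉ J, ∀ l, l ∉ J → l ≠ i → y i l = 0) ∧
      (∀ i ∉ J, ¬ (p : ℤ) ∣ y i i) ∧
      (∀ i ∉ J, 1 ≤ g i ∧ g i ≤ ((4 * k * B + 1) ^ k : ℕ)) ∧
      (∀ i ∉ J, ∀ l, g i * y i l = ∑ b, c i b * v b l) ∧
      (∀ i ∉ J, ∀ l, |y i l| ≤ ((4 * k * B + 1) ^ k : ℕ)) := by
  classical
  set R := Submodule.span ℚ (Set.range (fun i => qc (v i))) with hR
  have hpI : Prime (p : ℤ) := Nat.prime_iff_prime_int.mp hp
  obtain ⟨J, -, hJli, hJ⟩ := exists_pivot hp (fun j : σ => R.mkQ (Pi.single j (1 : ℚ))) Finset.univ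
  have hRk : Module.finrank ℚ R = k := by
    rw [hR, finrank_span_eq_card hli, Fintype.card_fin]
  have hVk : Module.finrank ℚ ((σ → ℚ) ⧸ R) + k = Fintype.card σ := by
    have := R.finrank_quotient_add_finrank
    rw [hRk, Module.finrank_fintype_fun_eq_card] at this
    exact this
  have hspan : Submodule.span ℚ (Set.range (fun j : {j // j ∈ J} =>
      R.mkQ (Pi.single j.1 (1 : ℚ)))) = ⊤ := by
    rw [eq_top_iff]
    rintro w -
    obtain ⟨z, rfl⟩ := R.mkQ_surjective w
    have h1 : z = ∑ i, z i • (Pi.single i (1 : ℚ) : σ → ℚ) := by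
      funext l
      rw [Finset.sum_apply, Finset.sum_eq_single l]
      · simp
      · intro j _ hj
        simp [hj.symm]
      · intro h; exact absurd (Finset.mem_univ l) h
    rw [h1, map_sum]
    apply Submodule.sum_mem
    intro i _
    rw [map_smul]
    apply Submodule.smul_mem
    obtain ⟨Δ, c, hΔ, hc⟩ := hJ i (Finset.mem_univ _)
    have hΔ0 : (Δ : ℚ) ≠ 0 := by
      intro h
      apply hΔ
      have : Δ = 0 := by exact_mod_cast h
      rw [this]
      exact dvd_zero _
    have h2 : R.mkQ (Pi.single i (1 : ℚ)) = (Δ : ℚ)⁻¹ • ∑ j ∈ J, (c j : ℚ) •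
        R.mkQ (Pi.single j (1 : ℚ)) := by
      rw [eq_inv_smul_iff₀ hΔ0, Int.cast_smul_eq_zsmul, hc]
      apply Finset.sum_congr rfl
      intro j _
      rw [Int.cast_smul_eq_zsmul]
    rw [h2]
    apply Submodule.smul_mem
    apply Submodule.sum_mem
    intro j hj
    apply Submodule.smul_mem
    exact Submodule.subset_span ⟨⟨j, hj⟩, rfl⟩
  have hJcard : J.card + k = Fintype.card σ := by
    have h1 := finrank_span_eq_card hJli
    rw [hspan, finrank_top, Fintype.card_coe] at h1
    omega
  have key : ∀ i : σ, ∃ (y : σ → ℤ) (c : Fin k → ℤ) (g : ℤ), i ∉ J →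
      (∀ l, l ∉ J → l ≠ i → y l = 0) ∧ ¬ (p : ℤ) ∣ y i ∧
      (1 ≤ g ∧ g ≤ ((4 * k * B + 1) ^ k : ℕ)) ∧ (∀ l, g * y l = ∑ b, c b * v b l) ∧
      (∀ l, |y l| ≤ ((4 * k * B + 1) ^ k : ℕ)) := by
    intro i
    by_cases hi : i ∈ J
    · exact ⟨0, 0, 0, fun h => absurd hi h⟩
    have hLc : (Finset.univ \ insert i J).card < k := by
      rw [Finset.card_sdiff_of_subset (Finset.subset_univ _), Finset.card_univ,
        Finset.card_insert_of_notMem hi]
      have h1 : (insert i J).card ≤ Fintype.card σ := Finset.card_le_univ _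
      rw [Finset.card_insert_of_notMem hi] at h1
      omega
    obtain ⟨c, hc0, hcH, hcL⟩ := small_comb v B hv (Finset.univ \ insert i J) hLc
    have hk1 : 1 ≤ k := by omega
    set x : σ → ℤ := fun l => ∑ b, c b * v b l with hx
    have hqx : qc x = ∑ b, (c b : ℚ) • qc (v b) := by
      funext l
      simp only [qc, hx, Finset.sum_apply, Pi.smul_apply, smul_eq_mul]
      push_cast
      rfl
    have hx0 : x ≠ 0 := by
      intro h
      apply hc0
      have h1 : ∑ b, (c b : ℚ) • qc (v b) = 0 := by rw [← hqx, h, qc_zero]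
      have h2 := Fintype.linearIndependent_iff.mp hli (fun b => (c b : ℚ)) h1
      funext b
      exact_mod_cast h2 b
    have hxR : qc x ∈ R := by
      rw [hqx]
      apply Submodule.sum_mem
      intro b _
      exact Submodule.smul_mem _ _ (Submodule.subset_span ⟨b, rfl⟩)
    have hxb : ∀ l, |x l| ≤ ((4 * k * B + 1) ^ k : ℕ) := by
      intro l
      calc |x l| ≤ ∑ b, |c b * v b l| := Finset.abs_sum_le_sum_abs _ _
        _ ≤ ∑ _b : Fin k, (((4 * k * B + 1) ^ (k - 1) : ℕ) : ℤ) * B := by
            apply Finset.sum_le_sum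
            intro b _
            rw [abs_mul]
            exact mul_le_mul (hcH b) (hv b l) (abs_nonneg _) (by positivity)
        _ = ((k * ((4 * k * B + 1) ^ (k - 1) * B) : ℕ) : ℤ) := by
            rw [Finset.sum_const, Finset.card_univ, Fintype.card_fin, nsmul_eq_mul]
            push_cast
            ring
        _ ≤ (((4 * k * B + 1) ^ k : ℕ) : ℤ) := by
            have h1 : (4 * k * B + 1) ^ k = (4 * k * B + 1) ^ (k - 1) * (4 * k * B + 1) := by
              rw [← pow_succ]
              congr 1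
              omega
            have h2 : k * ((4 * k * B + 1) ^ (k - 1) * B) ≤ (4 * k * B + 1) ^ k := by
              rw [h1]
              have : k * ((4 * k * B + 1) ^ (k - 1) * B) =
                  (4 * k * B + 1) ^ (k - 1) * (k * B) := by ring
              rw [this]
              apply Nat.mul_le_mul_left
              nlinarith
            exact_mod_cast h2
    obtain ⟨l0, hl0⟩ : ∃ l, x l ≠ 0 := by
      by_contra h
      push Not at h
      exact hx0 (funext h)
    obtain ⟨y, hy, hgcd⟩ := Finset.extract_gcd x (s := Finset.univ) ⟨l0, Finset.mem_univ _⟩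
    set g : ℤ := Finset.univ.gcd x with hg
    have hg0 : g ≠ 0 := by
      intro h
      have := hy l0 (Finset.mem_univ _)
      rw [h, zero_mul] at this
      exact hl0 this
    have hgnn : 0 ≤ g := by
      have h1 : normalize g = g := by
        rw [hg]
        exact Finset.normalize_gcd
      exact Int.nonneg_of_normalize_eq_self h1
    have hg1 : 1 ≤ g := by omega
    have hgq : (g : ℚ) ≠ 0 := by exact_mod_cast hg0
    have hyR : qc y ∈ R := by
      have h1 : qc y = (g : ℚ)⁻¹ • qc x := by
        rw [eq_inv_smul_iff₀ hgq]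
        funext l
        simp only [Pi.smul_apply, smul_eq_mul, qc]
        rw [hy l (Finset.mem_univ _)]
        push_cast
        rfl
      rw [h1]
      exact Submodule.smul_mem _ _ hxR
    have hyz : ∀ l, l ∉ J → l ≠ i → y l = 0 := by
      intro l hl hli'
      have h1 : x l = 0 := hcL l (by simp [hl, hli'])
      rw [hy l (Finset.mem_univ _)] at h1
      rcases mul_eq_zero.mp h1 with h | h
      · exact absurd h hg0
      · exact h
    refine ⟨y, c, g, fun _ => ⟨hyz, ?_, ⟨hg1, ?_⟩, ?_, ?_⟩⟩
    · intro hpy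
      obtain ⟨Δ, d, hΔ, hd⟩ := hJ i (Finset.mem_univ _)
      -- compare the two relations
      have h1 : ∑ j ∈ J, (y i * d j + Δ * y j) • R.mkQ (Pi.single j (1 : ℚ)) = 0 := by
        have h2 : R.mkQ (qc y) = 0 := by
          rw [Submodule.mkQ_apply, Submodule.Quotient.mk_eq_zero]
          exact hyR
        have h3 : qc y = y i • (Pi.single i (1 : ℚ) : σ → ℚ) +
            ∑ j ∈ J, y j • (Pi.single j (1 : ℚ) : σ → ℚ) := by
          funext l
          rw [Pi.add_apply, Finset.sum_apply]
          by_cases hl : l ∈ J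
          · have hli' : l ≠ i := fun h => hi (h ▸ hl)
            rw [Finset.sum_eq_single l]
            · simp [qc, hli']
            · intro j _ hj
              simp [hj.symm]
            · intro h; exact absurd hl h
          · rw [Finset.sum_eq_zero (by
              intro j hj
              have : l ≠ j := fun h => hl (h ▸ hj)
              simp [this])]
            by_cases hli' : l = i
            · subst hli'
              simp [qc]
            · simp [qc, hli', hyz l hl hli']
        rw [h3, map_add, map_zsmul, map_sum] at h2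
        have h4 : Δ • (y i • R.mkQ (Pi.single i (1 : ℚ)) +
            ∑ j ∈ J, R.mkQ (y j • (Pi.single j (1 : ℚ) : σ → ℚ))) = 0 := by rw [h2, smul_zero]
        rw [smul_add, smul_comm Δ (y i), hd, Finset.smul_sum, Finset.smul_sum,
          ← Finset.sum_add_distrib] at h4
        rw [← h4]
        apply Finset.sum_congr rfl
        intro j _
        rw [add_smul, mul_smul, mul_smul, map_zsmul]
      have h5 := Fintype.linearIndependent_iff.mp hJli (fun j => ((y i * d j.1 + Δ * y j.1 : ℤ) : ℚ))
        (by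
          rw [Finset.sum_coe_sort J (fun j => ((y i * d j + Δ * y j : ℤ) : ℚ) •
            R.mkQ (Pi.single j (1 : ℚ))), ← h1]
          apply Finset.sum_congr rfl
          intro j _
          rw [Int.cast_smul_eq_zsmul])
      have h6 : ∀ l, (p : ℤ) ∣ y l := by
        intro l
        by_cases hl : l ∈ J
        · have h7 : y i * d l + Δ * y l = 0 := by exact_mod_cast h5 ⟨l, hl⟩
          have h8 : (p : ℤ) ∣ Δ * y l := by
            have : Δ * y l = - (y i * d l) := by linear_combination h7
            rw [this]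
            exact (hpy.mul_right _).neg_right
          rcases hpI.dvd_or_dvd h8 with h | h
          · exact absurd h hΔ
          · exact h
        · by_cases hli' : l = i
          · rw [hli']; exact hpy
          · rw [hyz l hl hli']
            exact dvd_zero _
      have h7 : (p : ℤ) ∣ Finset.univ.gcd y := Finset.dvd_gcd (fun j _ => h6 j)
      rw [hgcd] at h7
      exact hpI.not_isUnit (isUnit_of_dvd_one h7)
    · have h1 := hxb l0
      have h2 := hy l0 (Finset.mem_univ _)
      have h3 : y l0 ≠ 0 := by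
        intro h
        rw [h, mul_zero] at h2
        exact hl0 h2
      have h4 := Int.one_le_abs h3
      rw [h2, abs_mul, abs_of_nonneg hgnn] at h1
      nlinarith
    · intro l
      rw [← hy l (Finset.mem_univ _)]
    · intro l
      have h1 := hxb l
      have h2 := hy l (Finset.mem_univ _)
      rw [h2, abs_mul, abs_of_nonneg hgnn] at h1
      have := abs_nonneg (y l)
      nlinarith
  choose y c g hkey using key
  exact ⟨J, y, c, g, hJli, fun i hi => (hkey i hi).1, fun i hi => (hkey i hi).2.1,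
    fun i hi => (hkey i hi).2.2.1, fun i hi => (hkey i hi).2.2.2.1,
    fun i hi => (hkey i hi).2.2.2.2⟩

end Pool.Agent.Y913.Sm
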