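import Pool.Agent.Y913.Sm.Zero
import Pool.Agent.Y913.Sm.Fd
import Pool.Agent.Y913.KeyP

/-!
Simultaneous `p`-adic relations, III: Schneider's method.
-/

set_option autoImplicit false

namespace Pool.Agent.Y913.Sm

open Finset Pool.Agent.Y913

/-- the square of the monomial, as a real number -/
noncomputable def uq {σ : Type} [Fintype σ] (q : σ → ℕ) (s : σ → ℤ) : ℝ :=
  ∏ j, (q j : ℝ) ^ (2 * s j)

lemma uq_pos {σ : Type} [Fintype σ] {q : σ → ℕ} (hq : ∀ j, 1 ≤ q j) (s : σ → ℤ) :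
    0 < uq q s := by
  apply Finset.prod_pos
  intro j _
  have : (0 : ℝ) < q j := by exact_mod_cast (hq j)
  positivity

lemma uq_add {σ : Type} [Fintype σ] {q : σ → ℕ} (hq : ∀ j, 1 ≤ q j) (s t : σ → ℤ) :
    uq q (s + t) = uq q s * uq q t := by
  unfold uq
  rw [← Finset.prod_mul_distrib]
  apply Finset.prod_congr rfl
  intro j _
  have : (q j : ℝ) ≠ 0 := by exact_mod_cast (by have := hq j; omega : q j ≠ 0)
  rw [Pi.add_apply, mul_add, zpow_add₀ this]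

/-- numerator -/
def nu {σ : Type} [Fintype σ] (q : σ → ℕ) (s : σ → ℤ) : ℕ := ∏ j, q j ^ (s j).toNat

lemma nu_coprime {σ : Type} [Fintype σ] {q : σ → ℕ} {M : ℕ} (hqM : ∀ j, (q j).Coprime M)
    (s : σ → ℤ) : (nu q s).Coprime M :=
  Nat.Coprime.prod_left (fun j _ => Nat.Coprime.pow_left _ (hqM j))

lemma nu_pos {σ : Type} [Fintype σ] {q : σ → ℕ} (hq : ∀ j, 1 ≤ q j) (s : σ → ℤ) :
    1 ≤ nu q s := Nat.one_le_iff_ne_zero.mpr (Finset.prod_ne_zero_iff.mpr (fun j _ => by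
      have := hq j
      exact pow_ne_zero _ (by omega)))

lemma nu_le {σ : Type} [Fintype σ] {q : σ → ℕ} {X S : ℕ} (hq : ∀ j, 1 ≤ q j ∧ q j ≤ X)
    (s : σ → ℤ) (hs : ∀ j, |s j| ≤ S) : nu q s ≤ X ^ (Fintype.card σ * S) := by
  unfold nu
  calc ∏ j, q j ^ (s j).toNat ≤ ∏ _j : σ, X ^ S := by
        apply Finset.prod_le_prod
        · intro j _; exact Nat.zero_le _
        · intro j _
          have h1 := hq j
          have h2 := hs j
          have h3 : (s j).toNat ≤ S := by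
            have := le_abs_self (s j)
            omega
          calc q j ^ (s j).toNat ≤ X ^ (s j).toNat := Nat.pow_le_pow_left h1.2 _
            _ ≤ X ^ S := Nat.pow_le_pow_right (by omega) h3
    _ = _ := by rw [Finset.prod_const, Finset.card_univ, ← pow_mul, mul_comm]

lemma uq_eq {σ : Type} [Fintype σ] {q : σ → ℕ} (hq : ∀ j, 1 ≤ q j) (s : σ → ℤ) :
    uq q s * ((nu q (-s) : ℕ) : ℝ) ^ 2 = ((nu q s : ℕ) : ℝ) ^ 2 := by
  unfold uq nu
  push_cast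
  rw [← Finset.prod_pow, ← Finset.prod_pow, ← Finset.prod_mul_distrib]
  apply Finset.prod_congr rfl
  intro j _
  have h0 : (q j : ℝ) ≠ 0 := by exact_mod_cast (by have := hq j; omega : q j ≠ 0)
  rw [← pow_mul, ← pow_mul, ← zpow_natCast, ← zpow_natCast, ← zpow_add₀ h0]
  congr 1
  simp only [Pi.neg_apply]
  push_cast
  omega

/-- the monomial modulo `M` -/
noncomputable def um {σ : Type} [Fintype σ] (M : ℕ) (q : σ → ℕ) (s : σ → ℤ) : (ZMod M)ˣ :=
  ∏ j, (ud M (q j)) ^ (s j)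

lemma um_add {σ : Type} [Fintype σ] (M : ℕ) (q : σ → ℕ) (s t : σ → ℤ) :
    um M q (s + t) = um M q s * um M q t := by
  unfold um
  rw [← Finset.prod_mul_distrib]
  apply Finset.prod_congr rfl
  intro j _
  rw [Pi.add_apply, zpow_add]

lemma um_zsmul {σ : Type} [Fintype σ] (M : ℕ) (q : σ → ℕ) (s : σ → ℤ) (k : ℤ) :
    um M q (k • s) = (um M q s) ^ k := by
  unfold um
  rw [← Finset.prod_zpow]
  apply Finset.prod_congr rfl
  intro j _
  rw [Pi.smul_apply, smul_eq_mul, mul_comm, zpow_mul]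

lemma um_eq {σ : Type} [Fintype σ] {M : ℕ} {q : σ → ℕ} (hqM : ∀ j, (q j).Coprime M)
    (s : σ → ℤ) : um M q s * ud M (nu q (-s)) = ud M (nu q s) := by
  unfold um nu
  rw [ud_prod _ _ (fun j _ => Nat.Coprime.pow_left _ (hqM j)),
    ud_prod _ _ (fun j _ => Nat.Coprime.pow_left _ (hqM j)), ← Finset.prod_mul_distrib]
  apply Finset.prod_congr rfl
  intro j _
  have hp : ∀ k : ℕ, ud M (q j ^ k) = (ud M (q j)) ^ k := by
    intro k
    rw [← Units.val_inj, ud_coe (Nat.Coprime.pow_left _ (hqM j)), Units.val_pow_eq_pow_val,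
      ud_coe (hqM j)]
    push_cast
    rfl
  rw [hp, hp, ← zpow_natCast, ← zpow_natCast, ← zpow_add]
  congr 1
  simp only [Pi.neg_apply]
  omega

variable {σ ι : Type} [Fintype σ] [Fintype ι] [DecidableEq σ] [DecidableEq ι]

/-- the auxiliary function -/
noncomputable def hfun {N D0 D1 : ℕ} (G : ((ι → Fin D0) × Fin D1) → ℤ) (C : ι → (ZMod N)ˣ)
    (z : ι → ℤ) : ZMod N :=
  ∑ i, (G i : ZMod N) * (∏ k, ((z k : ZMod N) ^ (i.1 k : ℕ) *
    (((C k ^ (i.2 : ℕ)) ^ (z k) : (ZMod N)ˣ) : ZMod N)))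

theorem hfun_zero (N m D0 D1 T : ℕ) (G : ((ι → Fin D0) × Fin D1) → ℤ) (C : ι → (ZMod N)ˣ)
    (hC : ∀ k, ∀ μ : ℕ, (((C k ^ μ : (ZMod N)ˣ) : ZMod N) - 1) ^ m = 0) (hT : D0 + m ≤ T)
    (h0 : ∀ z : ι → ℤ, (∀ i, 0 ≤ z i ∧ z i < T) → hfun G C z = 0) (z : ι → ℤ) :
    hfun G C z = 0 := by
  apply eq_zero_of_box T (hfun G C) _ h0
  intro a z
  have h1 : (fun n => hfun G C (Function.update z a n)) = fun n : ℤ => ∑ i : (ι → Fin D0) × Fin D1,
      ((G i : ZMod N) * (∏ k ∈ Finset.univ.erase a, ((z k : ZMod N) ^ (i.1 k : ℕ) *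
        (((C k ^ (i.2 : ℕ)) ^ (z k) : (ZMod N)ˣ) : ZMod N)))) *
      (((n : ZMod N)) ^ (i.1 a : ℕ) * (((C a ^ (i.2 : ℕ)) ^ n : (ZMod N)ˣ) : ZMod N)) := by
    funext n
    unfold hfun
    apply Finset.sum_congr rfl
    intro i _
    rw [← Finset.mul_prod_erase _ _ (Finset.mem_univ a), Function.update_self]
    have h2 : ∏ k ∈ Finset.univ.erase a, (((Function.update z a n k : ℤ) : ZMod N) ^ (i.1 k : ℕ) *
        (((C k ^ (i.2 : ℕ)) ^ (Function.update z a n k) : (ZMod N)ˣ) : ZMod N)) =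
        ∏ k ∈ Finset.univ.erase a, ((z k : ZMod N) ^ (i.1 k : ℕ) *
        (((C k ^ (i.2 : ℕ)) ^ (z k) : (ZMod N)ˣ) : ZMod N)) := by
      apply Finset.prod_congr rfl
      intro k hk
      rw [Function.update_of_ne (Finset.ne_of_mem_erase hk)]
    rw [h2]
    ring
  rw [h1, dl_iter_sum]
  funext n
  rw [Pi.zero_apply]
  apply Finset.sum_eq_zero
  intro i _
  rw [dl_iter_smul, dl_monexp m (C a ^ (i.2 : ℕ)) (hC a _) T (i.1 a) (by
    have := (i.1 a).isLt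
    omega)]
  simp

omit [DecidableEq σ] in
/-- **Schneider's method**: vanishing at small points -/
theorem schneider (p m D0 D1 T H X S F : ℕ) [Fact p.Prime] (hD1 : 1 ≤ D1)
    (C : ι → (ZMod (p ^ m))ˣ) (hC : ∀ k, ((p : ℕ) : ZMod (p ^ m)) ∣ ((C k : ZMod (p ^ m)) - 1))
    (hT : D0 + m ≤ T)
    (hpig : (p ^ m) ^ (T ^ Fintype.card ι) < (H + 1) ^ (D0 ^ Fintype.card ι * D1))
    (f : (σ → ℤ) →+ (ι → ℤ)) (q : σ → ℕ) (hq : ∀ j, 1 ≤ q j ∧ q j ≤ X)
    (hqp : ∀ j, (q j).Coprime p) (hF : 1 ≤ F) (hX : 1 ≤ X)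
    (hsize : (D0 ^ Fintype.card ι * D1) * (H * (F ^ (Fintype.card ι * D0) *
      ((X ^ (Fintype.card σ * S)) ^ 2) ^ D1)) < p ^ m) :
    ∃ G : ((ι → Fin D0) × Fin D1) → ℤ, G ≠ 0 ∧ ∀ s : σ → ℤ, (∀ j, |s j| ≤ S) →
      (∀ i, |f s i| ≤ F) → (um (p ^ m) q s) ^ 2 = ∏ i, (C i) ^ (f s i) →
      ∑ i, (G i : ℝ) * ((∏ k, ((f s k : ℤ) : ℝ) ^ (i.1 k : ℕ)) * (uq q s) ^ (i.2 : ℕ)) = 0 := by
  classical
  have hp : p.Prime := Fact.out
  have : NeZero (p ^ m) := ⟨pow_ne_zero _ hp.ne_zero⟩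
  have hqM : ∀ j, (q j).Coprime (p ^ m) := fun j => Nat.Coprime.pow_right _ (hqp j)
  have hCμ : ∀ k, ∀ μ : ℕ, (((C k ^ μ : (ZMod (p ^ m))ˣ) : ZMod (p ^ m)) - 1) ^ m = 0 := by
    intro k μ
    have h1 : ((p : ℕ) : ZMod (p ^ m)) ∣ (((C k ^ μ : (ZMod (p ^ m))ˣ) : ZMod (p ^ m)) - 1) := by
      rw [Units.val_pow_eq_pow_val]
      exact (hC k).trans (sub_one_dvd_pow_sub_one _ _)
    obtain ⟨x, hx⟩ := h1
    rw [hx, mul_pow]
    have : ((p : ℕ) : ZMod (p ^ m)) ^ m = 0 := by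
      rw [← Nat.cast_pow, ZMod.natCast_self]
    rw [this, zero_mul]
  obtain ⟨G, hG0, hGH, hG⟩ := mod_siegel (R := ZMod (p ^ m)) H
    (fun (z : ι → Fin T) (i : (ι → Fin D0) × Fin D1) =>
      ∏ k, ((((z k : ℕ) : ℤ) : ZMod (p ^ m)) ^ (i.1 k : ℕ) *
    (((C k ^ (i.2 : ℕ)) ^ (((z k : ℕ) : ℤ)) : (ZMod (p ^ m))ˣ) : ZMod (p ^ m)))) (by
      rw [ZMod.card, Fintype.card_fun, Fintype.card_fin, Fintype.card_prod, Fintype.card_fun,
        Fintype.card_fin, Fintype.card_fin]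
      exact hpig)
  refine ⟨G, hG0, ?_⟩
  have hh := hfun_zero (p ^ m) m D0 D1 T G C hCμ hT (by
    intro z hz
    have h1 := hG (fun k => ⟨(z k).toNat, by have := hz k; omega⟩)
    have h2 : ∀ k, (((z k).toNat : ℕ) : ℤ) = z k := fun k => Int.toNat_of_nonneg (hz k).1
    unfold hfun
    rw [← h1]
    apply Finset.sum_congr rfl
    intro i _
    congr 1
    apply Finset.prod_congr rfl
    intro k _
    simp only [h2])
  intro s hs hfs hrep
  have hqpos : ∀ j, 1 ≤ q j := fun j => (hq j).1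
  set x : ℕ := nu q s with hx
  set y : ℕ := nu q (-s) with hy
  have hxc : x.Coprime (p ^ m) := nu_coprime hqM s
  have hyc : y.Coprime (p ^ m) := nu_coprime hqM (-s)
  -- the integer
  set V : ℤ := ∑ i : (ι → Fin D0) × Fin D1, G i * ((∏ k, (f s k) ^ (i.1 k : ℕ)) *
    (((x : ℤ) ^ 2) ^ (i.2 : ℕ) * ((y : ℤ) ^ 2) ^ (D1 - 1 - (i.2 : ℕ)))) with hV
  have hVdvd : ((p ^ m : ℕ) : ℤ) ∣ V := by
    rw [← ZMod.intCast_zmod_eq_zero_iff_dvd]
    have h1 : ((V : ℤ) : ZMod (p ^ m)) = ((y : ZMod (p ^ m)) ^ 2) ^ (D1 - 1) * hfun G C (f s) := by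
      rw [hV, hfun, Finset.mul_sum]
      push_cast
      apply Finset.sum_congr rfl
      intro i _
      have h2 : ((x : ℕ) : ZMod (p ^ m)) ^ 2 =
          ((∏ k, (C k) ^ (f s k) : (ZMod (p ^ m))ˣ) : ZMod (p ^ m)) * (y : ZMod (p ^ m)) ^ 2 := by
        rw [← hrep]
        have h3 := congrArg (fun w : (ZMod (p ^ m))ˣ => ((w : ZMod (p ^ m))) ^ 2) (um_eq hqM s)
        simp only [Units.val_mul] at h3
        rw [ud_coe hxc, ud_coe hyc] at h3
        rw [← h3, Units.val_pow_eq_pow_val]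
        ring
      have h4 : ∏ k, ((((f s k : ℤ)) : ZMod (p ^ m)) ^ (i.1 k : ℕ) *
          (((C k ^ (i.2 : ℕ)) ^ (f s k) : (ZMod (p ^ m))ˣ) : ZMod (p ^ m))) =
          (∏ k, (((f s k : ℤ)) : ZMod (p ^ m)) ^ (i.1 k : ℕ)) *
          ((∏ k, (C k) ^ (f s k) : (ZMod (p ^ m))ˣ) : ZMod (p ^ m)) ^ (i.2 : ℕ) := by
        rw [Finset.prod_mul_distrib]
        congr 1
        rw [← Units.val_pow_eq_pow_val, ← Finset.prod_pow, ← Units.coe_prod]
        congr 1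
        apply Finset.prod_congr rfl
        intro k _
        rw [← zpow_natCast, ← zpow_natCast, ← zpow_mul, ← zpow_mul, mul_comm]
      rw [h4]
      have h5 : D1 - 1 = (i.2 : ℕ) + (D1 - 1 - (i.2 : ℕ)) := by
        have := i.2.isLt
        omega
      conv_rhs => rw [h5, pow_add]
      rw [h2]
      ring
    rw [h1, hh, mul_zero]
  have hVabs : |V| < ((p ^ m : ℕ) : ℤ) := by
    have hx2 : ((x : ℤ)) ^ 2 ≤ (((X ^ (Fintype.card σ * S)) ^ 2 : ℕ) : ℤ) := by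
      have := nu_le hq s hs
      exact_mod_cast Nat.pow_le_pow_left this 2
    have hy2 : ((y : ℤ)) ^ 2 ≤ (((X ^ (Fintype.card σ * S)) ^ 2 : ℕ) : ℤ) := by
      have := nu_le hq (-s) (fun j => by rw [Pi.neg_apply, abs_neg]; exact hs j)
      exact_mod_cast Nat.pow_le_pow_left this 2
    set Z : ℤ := (((X ^ (Fintype.card σ * S)) ^ 2 : ℕ) : ℤ) with hZ
    have hZ1 : 1 ≤ Z := by
      rw [hZ]
      exact_mod_cast Nat.one_le_pow _ _ (Nat.one_le_pow _ _ hX)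
    have hterm : ∀ i : (ι → Fin D0) × Fin D1, |G i * ((∏ k, (f s k) ^ (i.1 k : ℕ)) *
        (((x : ℤ) ^ 2) ^ (i.2 : ℕ) * ((y : ℤ) ^ 2) ^ (D1 - 1 - (i.2 : ℕ))))| ≤
        H * ((F : ℤ) ^ (Fintype.card ι * D0) * Z ^ D1) := by
      intro i
      rw [abs_mul]
      apply mul_le_mul (hGH i) _ (abs_nonneg _) (by positivity)
      rw [abs_mul]
      apply mul_le_mul _ _ (abs_nonneg _) (by positivity)
      · rw [Finset.abs_prod]
        calc ∏ k, |(f s k) ^ (i.1 k : ℕ)| ≤ ∏ _k : ι, (F : ℤ) ^ D0 := by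
              apply Finset.prod_le_prod
              · intro k _; exact abs_nonneg _
              · intro k _
                rw [abs_pow]
                calc |f s k| ^ (i.1 k : ℕ) ≤ (F : ℤ) ^ (i.1 k : ℕ) :=
                      pow_le_pow_left₀ (abs_nonneg _) (hfs k) _
                  _ ≤ (F : ℤ) ^ D0 := pow_le_pow_right₀ (by exact_mod_cast hF)
                      (i.1 k).isLt.le
          _ = _ := by rw [Finset.prod_const, Finset.card_univ, ← pow_mul, mul_comm D0]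
      · rw [abs_of_nonneg (by positivity)]
        calc ((x : ℤ) ^ 2) ^ (i.2 : ℕ) * ((y : ℤ) ^ 2) ^ (D1 - 1 - (i.2 : ℕ)) ≤
              Z ^ (i.2 : ℕ) * Z ^ (D1 - 1 - (i.2 : ℕ)) := by
              apply mul_le_mul
              · exact pow_le_pow_left₀ (by positivity) hx2 _
              · exact pow_le_pow_left₀ (by positivity) hy2 _
              · positivity
              · positivity
          _ = Z ^ ((i.2 : ℕ) + (D1 - 1 - (i.2 : ℕ))) := by rw [pow_add]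
          _ ≤ Z ^ D1 := pow_le_pow_right₀ hZ1 (by have := i.2.isLt; omega)
    calc |V| ≤ ∑ i : (ι → Fin D0) × Fin D1, |G i * ((∏ k, (f s k) ^ (i.1 k : ℕ)) *
        (((x : ℤ) ^ 2) ^ (i.2 : ℕ) * ((y : ℤ) ^ 2) ^ (D1 - 1 - (i.2 : ℕ))))| :=
          Finset.abs_sum_le_sum_abs _ _
      _ ≤ ∑ _i : (ι → Fin D0) × Fin D1, H * ((F : ℤ) ^ (Fintype.card ι * D0) * Z ^ D1) :=
          Finset.sum_le_sum (fun i _ => hterm i)
      _ = (((D0 ^ Fintype.card ι * D1) * (H * (F ^ (Fintype.card ι * D0) *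
          ((X ^ (Fintype.card σ * S)) ^ 2) ^ D1)) : ℕ) : ℤ) := by
          rw [Finset.sum_const, Finset.card_univ, Fintype.card_prod, Fintype.card_fun,
            Fintype.card_fin, Fintype.card_fin, nsmul_eq_mul, hZ]
          push_cast
          ring
      _ < _ := by exact_mod_cast hsize
  have hV0 : V = 0 := Int.eq_zero_of_abs_lt_dvd hVdvd hVabs
  have hy0 : ((y : ℕ) : ℝ) ≠ 0 := by
    have := nu_pos hqpos (-s)
    exact_mod_cast (by omega : y ≠ 0)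
  have h1 : ((V : ℤ) : ℝ) = (((y : ℝ)) ^ 2) ^ (D1 - 1) *
      ∑ i, (G i : ℝ) * ((∏ k, ((f s k : ℤ) : ℝ) ^ (i.1 k : ℕ)) * (uq q s) ^ (i.2 : ℕ)) := by
    rw [hV, Finset.mul_sum]
    push_cast
    apply Finset.sum_congr rfl
    intro i _
    have h2 := uq_eq hqpos s
    rw [← hx, ← hy] at h2
    rw [← h2]
    have h5 : D1 - 1 = (i.2 : ℕ) + (D1 - 1 - (i.2 : ℕ)) := by
      have := i.2.isLt
      omega
    conv_rhs => rw [h5, pow_add]
    ring
  rw [hV0, Int.cast_zero] at h1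
  rcases mul_eq_zero.mp h1.symm with h | h
  · exact absurd h (pow_ne_zero _ (pow_ne_zero _ hy0))
  · exact h

end Pool.Agent.Y913.Sm
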