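import Pool.Agent.Y913.Sm.Piv
import Pool.Agent.Y913.Sm.Schn
import Pool.Agent.Y913.Lte

/-!
Simultaneous `p`-adic relations, V: the representation of the monomials on a subspace.
-/

set_option autoImplicit false

namespace Pool.Agent.Y913.Sm

open Finset Pool.Agent.Y913 Pool.Agent.Y913.Bk

variable {σ : Type} [Fintype σ] [DecidableEq σ]

/-- linear forms on integer vectors -/
def fz (a : σ → σ → ℤ) : (σ → ℤ) →+ (σ → ℤ) where
  toFun s := fun j => ∑ l, a j l * s l
  map_zero' := by funext j; simp
  map_add' s t := by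
    funext j
    simp only [Pi.add_apply, mul_add, Finset.sum_add_distrib]

/-- linear forms on rational vectors -/
def fq (a : σ → σ → ℤ) (j : σ) : (σ → ℚ) →ₗ[ℚ] ℚ where
  toFun x := ∑ l, (a j l : ℚ) * x l
  map_add' s t := by
    simp only [Pi.add_apply, mul_add, Finset.sum_add_distrib]
  map_smul' c s := by
    simp only [Pi.smul_apply, smul_eq_mul, RingHom.id_apply, Finset.mul_sum]
    apply Finset.sum_congr rfl
    intro l _
    ring

omit [DecidableEq σ] in
lemma fz_apply (a : σ → σ → ℤ) (s : σ → ℤ) (j : σ) : fz a s j = ∑ l, a j l * s l := rfl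

omit [DecidableEq σ] in
lemma fq_qc (a : σ → σ → ℤ) (s : σ → ℤ) (j : σ) : fq a j (qc s) = ((fz a s j : ℤ) : ℚ) := by
  rw [fz_apply]
  show ∑ l, (a j l : ℚ) * (qc s) l = _
  push_cast
  rfl

omit [DecidableEq σ] in
lemma um_sum (M : ℕ) (q : σ → ℕ) {ι : Type} (t : Finset ι) (x : ι → σ → ℤ) :
    um M q (∑ i ∈ t, x i) = ∏ i ∈ t, um M q (x i) := by
  classical
  induction t using Finset.induction_on with
  | empty => simp [um]
  | insert a t ha ih => rw [Finset.sum_insert ha, Finset.prod_insert ha, um_add, ih]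

omit [DecidableEq σ] in
lemma red_um {p m M : ℕ} (h : m ≤ M) {q : σ → ℕ} (hqp : ∀ j, (q j).Coprime p) (s : σ → ℤ) :
    red p h (um (p ^ M) q s) = um (p ^ m) q s := by
  unfold um
  rw [map_prod]
  apply Finset.prod_congr rfl
  intro j _
  rw [map_zpow]
  congr 1
  rw [← Units.val_inj, ud_coe (Nat.Coprime.pow_right _ (hqp j))]
  unfold red
  rw [ZMod.unitsMap_val, ud_coe (Nat.Coprime.pow_right _ (hqp j)),
    ZMod.cast_natCast (pow_dvd_pow p h)]

lemma dvd_of_red {p M : ℕ} (hp : p.Prime) (h : 1 ≤ M) (x : (ZMod (p ^ M))ˣ)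
    (hx : red p h x = 1) : ((p : ℕ) : ZMod (p ^ M)) ∣ (x : ZMod (p ^ M)) - 1 := by
  have : NeZero (p ^ M) := ⟨pow_ne_zero _ hp.ne_zero⟩
  rw [red_eq_one_iff] at hx
  obtain ⟨t, ht⟩ := hx
  refine ⟨(t : ZMod (p ^ M)), ?_⟩
  have h1 := congrArg (fun z : ℤ => (z : ZMod (p ^ M))) ht
  push_cast at h1
  rw [ZMod.natCast_zmod_val, pow_one] at h1
  exact h1

/-- sum of the pivots -/
lemma rel_identity (J : Finset σ) (y : σ → σ → ℤ)
    (hy0 : ∀ i ∉ J, ∀ l, l ∉ J → l ≠ i → y i l = 0) :
    ∃ (Dd : ℤ) (b : σ → ℤ) (a : σ → σ → ℤ), Dd = ∏ i ∈ Jᶜ, y i i ∧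
      (∀ i, b i = ∏ i' ∈ Jᶜ.erase i, y i' i') ∧
      (∀ j l, a j l = (if j = l then Dd else 0) - (if l ∈ J then 0 else b l * y l j)) ∧
      ∀ x : σ → ℚ, (Dd : ℚ) • x = ∑ j ∈ J, (fq a j x) • (Pi.single j (1 : ℚ) : σ → ℚ) +
        ∑ i ∈ Jᶜ, ((b i : ℚ) * x i) • qc (y i) := by
  classical
  refine ⟨_, fun i => ∏ i' ∈ Jᶜ.erase i, y i' i',
    fun j l => (if j = l then ∏ i ∈ Jᶜ, y i i else 0) -
      (if l ∈ J then 0 else (∏ i' ∈ Jᶜ.erase l, y i' i') * y l j), rfl, fun _ => rfl,
    fun _ _ => rfl, ?_⟩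
  intro x
  funext l
  rw [Pi.smul_apply, smul_eq_mul, Pi.add_apply, Finset.sum_apply, Finset.sum_apply]
  have hform : ∀ j, fq (fun j l => (if j = l then ∏ i ∈ Jᶜ, y i i else 0) -
      (if l ∈ J then 0 else (∏ i' ∈ Jᶜ.erase l, y i' i') * y l j)) j x =
      ((∏ i ∈ Jᶜ, y i i : ℤ) : ℚ) * x j -
        ∑ i ∈ Jᶜ, ((∏ i' ∈ Jᶜ.erase i, y i' i' : ℤ) : ℚ) * x i * (y i j : ℚ) := by
    intro j
    show ∑ l, (((if j = l then ∏ i ∈ Jᶜ, y i i else 0) -
      (if l ∈ J then 0 else (∏ i' ∈ Jᶜ.erase l, y i' i') * y l j) : ℤ) : ℚ) * x l = _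
    have h1 : ∀ l, (((if j = l then ∏ i ∈ Jᶜ, y i i else 0) -
        (if l ∈ J then 0 else (∏ i' ∈ Jᶜ.erase l, y i' i') * y l j) : ℤ) : ℚ) * x l =
        (if j = l then ((∏ i ∈ Jᶜ, y i i : ℤ) : ℚ) * x l else 0) -
        (if l ∈ Jᶜ then ((∏ i' ∈ Jᶜ.erase l, y i' i' : ℤ) : ℚ) * x l * (y l j : ℚ) else 0) := by
      intro l
      by_cases h2 : j = l
      · by_cases h3 : l ∈ J
        · simp [h2, h3]
        · simp only [h2, h3, Finset.mem_compl, if_true, if_false, not_false_eq_true]
          push_cast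
          ring
      · by_cases h3 : l ∈ J
        · simp [h2, h3]
        · simp only [h2, h3, Finset.mem_compl, if_true, if_false, not_false_eq_true]
          push_cast
          ring
    rw [Finset.sum_congr rfl (fun l _ => h1 l), Finset.sum_sub_distrib, Finset.sum_ite_eq,
      if_pos (Finset.mem_univ j), ← Finset.sum_filter, Finset.filter_mem_eq_inter,
      Finset.univ_inter]
  by_cases hl : l ∈ J
  · rw [Finset.sum_eq_single l (by
      intro j _ hj
      simp [hj.symm]) (fun h => absurd hl h), hform]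
    simp only [Pi.smul_apply, Pi.single_eq_same, smul_eq_mul, mul_one, qc]
    ring
  · rw [Finset.sum_eq_zero (by
      intro j hj
      have : l ≠ j := fun h => hl (h ▸ hj)
      simp [this]), zero_add, Finset.sum_eq_single l]
    · simp only [Pi.smul_apply, smul_eq_mul, qc]
      rw [← Finset.mul_prod_erase Jᶜ (fun i => y i i) (Finset.mem_compl.mpr hl)]
      push_cast
      ring
    · intro i hi hil
      simp only [Pi.smul_apply, smul_eq_mul, qc]
      rw [hy0 i (Finset.mem_compl.mp hi) l hl (fun h => hil h.symm)]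
      simp
    · intro h
      exact absurd (Finset.mem_compl.mpr hl) h

omit [DecidableEq σ] in
/-- **representation of the monomials on a subspace** -/
theorem rep_data {k p M B : ℕ} (hp : p.Prime) (hM : 2 ≤ M) (q : σ → ℕ)
    (hqp : ∀ j, (q j).Coprime p) (v : Fin k → σ → ℤ) (hv : ∀ i j, |v i j| ≤ B)
    (hli : LinearIndependent ℚ (fun i => qc (v i))) (hrel : ∀ i, um (p ^ M) q (v i) = 1) :
    ∃ (J : Finset σ) (a : σ → σ → ℤ),
      (∀ j l, |a j l| ≤ 2 * (((4 * k * B + 1) ^ k) ^ Fintype.card σ : ℕ)) ∧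
      (∀ x : σ → ℚ, (∀ j ∈ J, fq a j x = 0) ↔
        x ∈ Submodule.span ℚ (Set.range (fun i => qc (v i)))) ∧
      ∀ W : Submodule ℚ (σ → ℚ), ∃ J' ⊆ J,
        LinearIndependent ℚ (fun j : {j // j ∈ J'} => (fq a j.1).comp W.subtype) ∧
        (∀ x ∈ W, (∀ j ∈ J', fq a j x = 0) →
          x ∈ Submodule.span ℚ (Set.range (fun i => qc (v i)))) ∧
        ∀ m ν : ℕ, ν + m ≤ M → (4 * k * B + 1) ^ k < p ^ (ν + 1) →
          ∃ C : {j // j ∈ J'} → (ZMod (p ^ m))ˣ,
            (∀ j, ((p : ℕ) : ZMod (p ^ m)) ∣ ((C j : ZMod (p ^ m)) - 1)) ∧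
            ∀ s : σ → ℤ, qc s ∈ W → um (p ^ 1) q s = 1 →
              (um (p ^ m) q s) ^ 2 = ∏ j, (C j) ^ (fz a s j.1) := by
  classical
  have : NeZero (p ^ M) := ⟨pow_ne_zero _ hp.ne_zero⟩
  have hpI : Prime (p : ℤ) := Nat.prime_iff_prime_int.mp hp
  obtain ⟨J, y, c, g, hJli, hy0, hyp, hg, hgy, hyb⟩ := step_one hp v B hv hli
  set R := Submodule.span ℚ (Set.range (fun i => qc (v i))) with hR
  set Y : ℕ := (4 * k * B + 1) ^ k with hY
  have hY1 : 1 ≤ Y := Nat.one_le_pow _ _ (by omega)
  obtain ⟨Dd, b, a, hDd, hb, ha, hid⟩ := rel_identity J y hy0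
  have hpDd : ¬ (p : ℤ) ∣ Dd := by
    rw [hDd]
    intro h
    obtain ⟨i, hi, hdvd⟩ := (hpI.dvd_finsetProd_iff _).mp h
    exact hyp i (Finset.mem_compl.mp hi) hdvd
  have hDd0 : (Dd : ℚ) ≠ 0 := by
    intro h
    apply hpDd
    have : Dd = 0 := by exact_mod_cast h
    rw [this]
    exact dvd_zero _
  have hyR : ∀ i ∉ J, qc (y i) ∈ R := by
    intro i hi
    have hg0 : (g i : ℚ) ≠ 0 := by
      have := (hg i hi).1
      exact_mod_cast (by omega : g i ≠ 0)
    have h1 : qc (y i) = (g i : ℚ)⁻¹ • ∑ b, (c i b : ℚ) • qc (v b) := by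
      rw [eq_inv_smul_iff₀ hg0]
      funext l
      simp only [Pi.smul_apply, smul_eq_mul, qc, Finset.sum_apply]
      have := hgy i hi l
      exact_mod_cast this
    rw [h1]
    apply Submodule.smul_mem
    apply Submodule.sum_mem
    intro b _
    exact Submodule.smul_mem _ _ (Submodule.subset_span ⟨b, rfl⟩)
  have hprodle : ∀ T : Finset σ, T ⊆ Jᶜ → |∏ i ∈ T, y i i| ≤ ((Y ^ T.card : ℕ) : ℤ) := by
    intro T hT
    rw [Finset.abs_prod]
    calc ∏ i ∈ T, |y i i| ≤ ∏ _i ∈ T, (Y : ℤ) := by
          apply Finset.prod_le_prod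
          · intro i _; exact abs_nonneg _
          · intro i hi
            exact hyb i (Finset.mem_compl.mp (hT hi)) i
      _ = _ := by rw [Finset.prod_const]; push_cast; rfl
  have hkernel : ∀ x : σ → ℚ, (∀ j ∈ J, fq a j x = 0) ↔ x ∈ R := by
    intro x
    have hrest : ∑ i ∈ Jᶜ, ((b i : ℚ) * x i) • qc (y i) ∈ R := by
      apply Submodule.sum_mem
      intro i hi
      exact Submodule.smul_mem _ _ (hyR i (Finset.mem_compl.mp hi))
    constructor
    · intro h
      have h1 := hid x
      rw [Finset.sum_eq_zero (by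
        intro j hj
        rw [h j hj, zero_smul]), zero_add] at h1
      have h2 : x = (Dd : ℚ)⁻¹ • ((Dd : ℚ) • x) := by
        rw [smul_smul, inv_mul_cancel₀ hDd0, one_smul]
      rw [h2, h1]
      exact Submodule.smul_mem _ _ hrest
    · intro h
      have h1 : ∑ j ∈ J, (fq a j x) • (Pi.single j (1 : ℚ) : σ → ℚ) ∈ R := by
        have h2 : ∑ j ∈ J, (fq a j x) • (Pi.single j (1 : ℚ) : σ → ℚ) =
            (Dd : ℚ) • x - ∑ i ∈ Jᶜ, ((b i : ℚ) * x i) • qc (y i) := by
          rw [hid x]
          abel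
        rw [h2]
        exact R.sub_mem (Submodule.smul_mem _ _ h) hrest
      have h2 : ∑ j : {j // j ∈ J}, (fq a j.1 x) • R.mkQ (Pi.single j.1 (1 : ℚ)) = 0 := by
        rw [Finset.sum_coe_sort J (fun j => (fq a j x) • R.mkQ (Pi.single j (1 : ℚ)))]
        have h3 : R.mkQ (∑ j ∈ J, (fq a j x) • (Pi.single j (1 : ℚ) : σ → ℚ)) = 0 := by
          rw [Submodule.mkQ_apply, Submodule.Quotient.mk_eq_zero]
          exact h1
        rw [map_sum] at h3
        rw [← h3]
        apply Finset.sum_congr rfl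
        intro j _
        rw [map_smul]
      intro j hj
      exact Fintype.linearIndependent_iff.mp hJli (fun j => fq a j.1 x) h2 ⟨j, hj⟩
  refine ⟨J, a, ?_, hkernel, ?_⟩
  · intro j l
    rw [ha]
    have hcardJ : (Jᶜ : Finset σ).card ≤ Fintype.card σ := Finset.card_le_univ _
    have hYN : ((Y ^ (Jᶜ : Finset σ).card : ℕ) : ℤ) ≤ ((Y ^ Fintype.card σ : ℕ) : ℤ) := by
      exact_mod_cast Nat.pow_le_pow_right hY1 hcardJ
    have h1 : |(if j = l then Dd else 0)| ≤ ((Y ^ Fintype.card σ : ℕ) : ℤ) := by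
      split_ifs
      · rw [hDd]
        exact (hprodle _ (Finset.Subset.refl _)).trans hYN
      · simp
    have h2 : |(if l ∈ J then 0 else b l * y l j)| ≤ ((Y ^ Fintype.card σ : ℕ) : ℤ) := by
      split_ifs with hl
      · simp
      · rw [abs_mul, hb]
        have h3 := hprodle (Jᶜ.erase l) (Finset.erase_subset _ _)
        have h4 := hyb l hl j
        have hlc : l ∈ Jᶜ := Finset.mem_compl.mpr hl
        rw [Finset.card_erase_of_mem hlc] at h3
        calc |∏ i' ∈ Jᶜ.erase l, y i' i'| * |y l j| ≤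
              ((Y ^ ((Jᶜ : Finset σ).card - 1) : ℕ) : ℤ) * (Y : ℤ) :=
              mul_le_mul h3 h4 (abs_nonneg _) (by positivity)
          _ = ((Y ^ (Jᶜ : Finset σ).card : ℕ) : ℤ) := by
              have h5 : 0 < (Jᶜ : Finset σ).card := Finset.card_pos.mpr ⟨l, hlc⟩
              have h6 : Y ^ (Jᶜ : Finset σ).card = Y ^ ((Jᶜ : Finset σ).card - 1) * Y := by
                rw [← pow_succ]
                congr 1
                omega
              rw [h6]
              push_cast
              ring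
          _ ≤ _ := hYN
    calc |(if j = l then Dd else 0) - (if l ∈ J then 0 else b l * y l j)| ≤
          |(if j = l then Dd else 0)| + |(if l ∈ J then 0 else b l * y l j)| := abs_sub _ _
      _ ≤ _ := by linarith
  · intro W
    obtain ⟨J', hJ'J, hJ'li, hJ'⟩ := exists_pivot hp (fun j : σ => (fq a j).comp W.subtype) J
    refine ⟨J', hJ'J, hJ'li, ?_, ?_⟩
    · intro x hx h0
      rw [← hkernel]
      intro j hj
      obtain ⟨Δ, d, hΔ, hd⟩ := hJ' j hj
      have hΔ0 : (Δ : ℚ) ≠ 0 := by
        intro h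
        apply hΔ
        have : Δ = 0 := by exact_mod_cast h
        rw [this]
        exact dvd_zero _
      have h1 := congrArg (fun F : W →ₗ[ℚ] ℚ => F ⟨x, hx⟩) hd
      simp only [LinearMap.smul_apply, LinearMap.comp_apply, Submodule.subtype_apply,
        LinearMap.sum_apply] at h1
      rw [Finset.sum_eq_zero (by
        intro l hl
        rw [h0 l hl, smul_zero])] at h1
      rw [zsmul_eq_mul] at h1
      rcases mul_eq_zero.mp h1 with h | h
      · exact absurd h hΔ0
      · exact h
    · intro m ν hνm hν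
      have hΔall : ∀ j : σ, ∃ (Δ : ℤ) (d : σ → ℤ), j ∈ J → (¬ (p : ℤ) ∣ Δ ∧
          Δ • ((fq a j).comp W.subtype) = ∑ l ∈ J', d l • ((fq a l).comp W.subtype)) := by
        intro j
        by_cases hj : j ∈ J
        · obtain ⟨Δ, d, h1, h2⟩ := hJ' j hj
          exact ⟨Δ, d, fun _ => ⟨h1, h2⟩⟩
        · exact ⟨0, 0, fun h => absurd h hj⟩
      choose Δ d hΔd using hΔall
      set Δt : ℤ := ∏ j ∈ J, Δ j with hΔt
      have hpΔt : ¬ (p : ℤ) ∣ Δt := by
        intro h
        obtain ⟨i, hi, hdvd⟩ := (hpI.dvd_finsetProd_iff _).mp h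
        exact (hΔd i hi).1 hdvd
      let e : σ → σ → ℤ := fun j l => (∏ j' ∈ J.erase j, Δ j') * d j l
      have hfe : ∀ s : σ → ℤ, qc s ∈ W → ∀ j ∈ J, Δt * fz a s j = ∑ l ∈ J', e j l * fz a s l := by
        intro s hs j hj
        have h1 := congrArg (fun F : W →ₗ[ℚ] ℚ => F ⟨qc s, hs⟩) (hΔd j hj).2
        simp only [LinearMap.smul_apply, LinearMap.comp_apply, Submodule.subtype_apply,
          LinearMap.sum_apply, fq_qc, zsmul_eq_mul] at h1
        have h2 : Δ j * fz a s j = ∑ l ∈ J', d j l * fz a s l := by exact_mod_cast h1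
        rw [hΔt, ← Finset.mul_prod_erase J Δ hj]
        simp only [e]
        calc Δ j * (∏ j' ∈ J.erase j, Δ j') * fz a s j =
              (∏ j' ∈ J.erase j, Δ j') * (Δ j * fz a s j) := by ring
          _ = _ := by
              rw [h2, Finset.mul_sum]
              apply Finset.sum_congr rfl
              intro l _
              ring
      -- the exponent
      have hcop : IsCoprime (((p : ℤ) - 1) * (Dd * Δt)) ((p : ℤ) ^ M) := by
        apply IsCoprime.pow_right
        rw [isCoprime_comm, (Nat.prime_iff_prime_int.mp hp).coprime_iff_not_dvd]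
        intro h
        rcases hpI.dvd_or_dvd h with h | h
        · have h1 : (p : ℤ) ∣ 1 := by
            have := dvd_sub (dvd_refl (p : ℤ)) h
            simpa using this
          exact hpI.not_isUnit (isUnit_of_dvd_one h1)
        · rcases hpI.dvd_or_dvd h with h | h
          · exact hpDd h
          · exact hpΔt h
      obtain ⟨t, w, htw⟩ := hcop
      set E : ℤ := 2 * (((p : ℤ) - 1) * t) with hE
      -- the height of the units
      obtain ⟨h0, hh1, hh2, hhM, hφ⟩ : ∃ h0, 1 ≤ h0 ∧ (p = 2 → 2 ≤ h0) ∧ h0 ≤ M ∧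
          ((p ^ h0).totient : ℤ) ∣ 2 * ((p : ℤ) - 1) := by
        by_cases h2 : p = 2
        · refine ⟨2, by norm_num, fun _ => le_rfl, hM, ?_⟩
          subst h2
          norm_num
          have : Nat.totient 4 = 2 := by decide
          rw [this]
          norm_num
        · refine ⟨1, le_rfl, fun h => absurd h h2, by omega, ?_⟩
          rw [pow_one, Nat.totient_prime hp]
          rw [Nat.cast_sub hp.one_le]
          push_cast
          exact dvd_mul_left _ _
      have hredE : ∀ x : (ZMod (p ^ M))ˣ, red p hhM (x ^ E) = 1 := by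
        intro x
        rw [map_zpow, hE]
        obtain ⟨r, hr⟩ := hφ
        have h1 : 2 * (((p : ℤ) - 1) * t) = ((p ^ h0).totient : ℤ) * (r * t) := by
          linear_combination t * hr
        rw [h1, zpow_mul, zpow_natCast, ZMod.pow_totient, one_zpow]
      have hredE1 : ∀ x : (ZMod (p ^ M))ˣ, red p (by omega : 1 ≤ M) (x ^ E) = 1 := by
        intro x
        rw [← red_red hh1 hhM, hredE, map_one]
      have hmM : m ≤ M := by omega
      have hMpos : 1 ≤ M := by omega
      -- the constants
      let w0 : σ → σ → ℤ := fun l j => if j ∈ J then e j l else 0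
      refine ⟨fun l => red p hmM ((um (p ^ M) q (w0 l.1)) ^ E), ?_, ?_⟩
      · intro l
        have h1 := dvd_of_red hp hMpos _ (hredE1 (um (p ^ M) q (w0 l.1)))
        have h2 := map_dvd (ZMod.castHom (pow_dvd_pow p hmM) (ZMod (p ^ m))) h1
        rw [map_natCast, map_sub, map_one] at h2
        have h3 : ((red p hmM ((um (p ^ M) q (w0 l.1)) ^ E) : (ZMod (p ^ m))ˣ) : ZMod (p ^ m)) =
            (ZMod.castHom (pow_dvd_pow p hmM) (ZMod (p ^ m)))
              (((um (p ^ M) q (w0 l.1)) ^ E : (ZMod (p ^ M))ˣ) : ZMod (p ^ M)) := by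
          unfold red
          rw [ZMod.unitsMap_val, ZMod.castHom_apply]
        rw [h3]
        exact h2
      · intro s hsW hs1
        -- the relation vectors
        have hz : ∀ i ∉ J, red p hmM ((um (p ^ M) q (y i)) ^ E) = 1 := by
          intro i hi
          have hg1 := (hg i hi).1
          have h1 : (um (p ^ M) q (y i)) ^ (g i) = 1 := by
            rw [← um_zsmul]
            have h2 : g i • y i = ∑ b, c i b • v b := by
              funext l
              rw [Pi.smul_apply, smul_eq_mul, hgy i hi l, Finset.sum_apply]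
              rfl
            rw [h2, um_sum]
            apply Finset.prod_eq_one
            intro b _
            rw [um_zsmul, hrel, one_zpow]
          have h2 : ((um (p ^ M) q (y i)) ^ E) ^ ((g i).toNat) = 1 := by
            rw [← zpow_natCast, Int.toNat_of_nonneg (by omega), ← zpow_mul, mul_comm, zpow_mul, h1,
              one_zpow]
          have h3 : ((um (p ^ M) q (y i)) ^ E) ^ (p ^ M) = 1 :=
            pow_eq_one_of_dvd hp _ (dvd_of_red hp hMpos _ (hredE1 _))
          have h4 := pow_gcd_eq_one.mpr ⟨h2, h3⟩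
          obtain ⟨v', hv'M, hv'⟩ := (Nat.dvd_prime_pow hp).mp
            (Nat.gcd_dvd_right (g i).toNat (p ^ M))
          have h5 : p ^ v' ≤ Y := by
            have h6 : (g i).toNat.gcd (p ^ M) ≤ (g i).toNat := Nat.gcd_le_left _ (by omega)
            have h7 := (hg i hi).2
            rw [hv'] at h6
            omega
          have h6 : v' ≤ ν := by
            have := lt_of_le_of_lt h5 hν
            have := (Nat.pow_lt_pow_iff_right hp.one_lt).mp this
            omega
          rw [hv'] at h4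
          have h7 : ((um (p ^ M) q (y i)) ^ E) ^ (p ^ ν) = 1 := by
            obtain ⟨r, hr⟩ := pow_dvd_pow p h6
            rw [hr, pow_mul, h4, one_pow]
          exact red_eq_one_of_pow hp hh1 hh2 hhM hνm _ (hredE _) h7
        -- the main identity
        have hv1 : (Dd * Δt) • s = ∑ l ∈ J', fz a s l • w0 l +
            ∑ i ∈ Jᶜ, (Δt * (b i * s i)) • y i := by
          apply qc_inj
          have h1 : qc ((Dd * Δt) • s) = (Δt : ℚ) • ((Dd : ℚ) • qc s) := by
            rw [qc_zsmul, smul_smul]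
            congr 1
            push_cast
            ring
          rw [h1, hid (qc s), qc_add]
          funext l
          rw [Pi.smul_apply, Pi.add_apply, Pi.add_apply, smul_eq_mul, mul_add]
          congr 1
          · rw [Finset.sum_apply]
            simp only [qc, Finset.sum_apply, Pi.smul_apply, smul_eq_mul, w0]
            by_cases hl : l ∈ J
            · rw [Finset.sum_eq_single l (by
                intro j _ hj
                simp [hj.symm]) (fun h => absurd hl h)]
              have h2 := hfe s hsW l hl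
              rw [fq_qc]
              simp only [Pi.single_eq_same, mul_one, hl, if_true]
              have h4 : (Δt : ℚ) * ((fz a s l : ℤ) : ℚ) = ((Δt * fz a s l : ℤ) : ℚ) := by
                push_cast
                rfl
              rw [h4, h2]
              push_cast
              apply Finset.sum_congr rfl
              intro x _
              ring
            · rw [Finset.sum_eq_zero (by
                intro j hj
                have : l ≠ j := fun h => hl (h ▸ hj)
                simp [this])]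
              simp [hl]
          · rw [Finset.sum_apply]
            simp only [qc, Finset.sum_apply, Pi.smul_apply, smul_eq_mul]
            push_cast
            rw [Finset.mul_sum]
            apply Finset.sum_congr rfl
            intro i _
            ring
        have hv2 : (um (p ^ M) q ((Dd * Δt) • s)) ^ E = (um (p ^ M) q (∑ l ∈ J', fz a s l • w0 l +
            ∑ i ∈ Jᶜ, (Δt * (b i * s i)) • y i)) ^ E := by rw [hv1]
        rw [um_zsmul, um_add, um_sum, um_sum, mul_zpow] at hv2
        have hleft : ((um (p ^ M) q s) ^ (Dd * Δt)) ^ E = (um (p ^ M) q s) ^ 2 := by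
          rw [← zpow_mul]
          have h1 : Dd * Δt * E = 2 + ((p ^ M : ℕ) : ℤ) * (-2 * w) := by
            rw [hE]
            push_cast
            linear_combination 2 * htw
          have h2 : (um (p ^ M) q s) ^ (p ^ M) = 1 := by
            apply pow_eq_one_of_dvd hp
            apply dvd_of_red hp hMpos
            rw [red_um hMpos hqp]
            exact hs1
          rw [h1, zpow_add, zpow_mul, zpow_natCast, h2, one_zpow, mul_one]
          norm_cast
        rw [hleft] at hv2
        have hv3 := congrArg (red p hmM) hv2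
        rw [map_pow, red_um hmM hqp, map_mul] at hv3
        rw [hv3]
        have h8 : red p hmM ((∏ i ∈ Jᶜ, um (p ^ M) q ((Δt * (b i * s i)) • y i)) ^ E) = 1 := by
          rw [map_zpow, map_prod, ← Finset.prod_zpow]
          apply Finset.prod_eq_one
          intro i hi
          rw [um_zsmul, map_zpow, ← zpow_mul, mul_comm, zpow_mul, ← map_zpow,
            hz i (Finset.mem_compl.mp hi), one_zpow]
        rw [h8, mul_one, Finset.prod_coe_sort J'
          (fun l => (red p hmM ((um (p ^ M) q (w0 l)) ^ E)) ^ (fz a s l)), ← Finset.prod_zpow,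
          map_prod]
        apply Finset.prod_congr rfl
        intro l _
        rw [um_zsmul, ← zpow_mul, mul_comm, zpow_mul, map_zpow]

end Pool.Agent.Y913.Sm
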