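import Pool.Agent.Y913.Sm.Par
import Pool.Agent.Y913.Local

/-!
Simultaneous `p`-adic relations, X: pairs of integers as exponent vectors; packing.
-/

set_option autoImplicit false

namespace Pool.Agent.Y913.Sm

open Finset Pool.Agent.Y913 Pool.Agent.Y913.Bk

/-- the primes of a finite set -/
def pT (T : Finset ℕ) : {l // l ∈ T} → ℕ := fun l => l.1

/-- the exponent vector of a pair -/
def vec (T : Finset ℕ) (q : ℕ × ℕ) : {l // l ∈ T} → ℤ :=
  fun l => (q.2.factorization l.1 : ℤ) - (q.1.factorization l.1 : ℤ)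

lemma fact_nu {T : Finset ℕ} (hT : ∀ l ∈ T, l.Prime) (s : {l // l ∈ T} → ℤ)
    (l0 : {l // l ∈ T}) : (nu (pT T) s).factorization l0.1 = (s l0).toNat := by
  classical
  unfold nu
  rw [Nat.factorization_prod (fun l _ => pow_ne_zero _ (hT l.1 l.2).ne_zero)]
  rw [Finsupp.finsetSum_apply, Finset.sum_eq_single l0]
  · show ((l0.1 ^ (s l0).toNat).factorization) l0.1 = _
    rw [(hT _ l0.2).factorization_pow, Finsupp.single_eq_same]
  · intro l _ hl
    show ((l.1 ^ (s l).toNat).factorization) l0.1 = _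
    rw [(hT _ l.2).factorization_pow, Finsupp.single_eq_of_ne]
    intro h
    exact hl (Subtype.ext h.symm)
  · intro h; exact absurd (Finset.mem_univ l0) h

lemma eq_zero_of_nu {T : Finset ℕ} (hT : ∀ l ∈ T, l.Prime) (s : {l // l ∈ T} → ℤ)
    (h : nu (pT T) s = nu (pT T) (-s)) : s = 0 := by
  funext l
  have h1 := fact_nu hT s l
  have h2 := fact_nu hT (-s) l
  rw [h, h2] at h1
  simp only [Pi.neg_apply] at h1
  show s l = 0
  omega

lemma uq_indep {T : Finset ℕ} (hT : ∀ l ∈ T, l.Prime) (s : {l // l ∈ T} → ℤ)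
    (h : uq (pT T) s = 1) : s = 0 := by
  apply eq_zero_of_nu hT
  have h1 := uq_eq (q := pT T) (fun j => (hT j.1 j.2).one_lt.le) s
  rw [h, one_mul] at h1
  have h2 : (nu (pT T) (-s)) ^ 2 = (nu (pT T) s) ^ 2 := by exact_mod_cast h1
  exact (Nat.pow_left_injective (by norm_num : (2 : ℕ) ≠ 0) h2).symm

lemma fact_one_zero {q : ℕ × ℕ} (hcop : Nat.Coprime q.1 q.2) (l : ℕ) :
    q.1.factorization l = 0 ∨ q.2.factorization l = 0 := by
  by_contra h
  push Not at h
  have h1 : l ∈ q.1.primeFactors := by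
    rw [← Nat.support_factorization, Finsupp.mem_support_iff]
    exact h.1
  have h2 : l ∈ q.2.primeFactors := by
    rw [← Nat.support_factorization, Finsupp.mem_support_iff]
    exact h.2
  exact Finset.disjoint_left.mp hcop.disjoint_primeFactors h1 h2

lemma prod_fact {T : Finset ℕ} {m : ℕ} (hm : m ≠ 0) (h : m.primeFactors ⊆ T) :
    ∏ l : {l // l ∈ T}, l.1 ^ m.factorization l.1 = m := by
  rw [Finset.prod_coe_sort T (fun l => l ^ m.factorization l)]
  conv_rhs => rw [← Nat.prod_factorization_pow_eq_self hm]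
  rw [Finsupp.prod, Nat.support_factorization]
  symm
  apply Finset.prod_subset h
  intro l _ hl
  have : m.factorization l = 0 := by
    rw [← Finsupp.notMem_support_iff, Nat.support_factorization]
    exact hl
  rw [this, pow_zero]

lemma nu_vec {T : Finset ℕ} {q : ℕ × ℕ} (h1 : 0 < q.1) (h2 : 0 < q.2)
    (hcop : Nat.Coprime q.1 q.2) (hT : prs q ⊆ T) :
    nu (pT T) (vec T q) = q.2 ∧ nu (pT T) (-(vec T q)) = q.1 := by
  unfold prs at hT
  have hT1 : q.1.primeFactors ⊆ T :=
    (Nat.primeFactors_mono (Dvd.intro _ rfl) (by positivity)).trans hT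
  have hT2 : q.2.primeFactors ⊆ T :=
    (Nat.primeFactors_mono (Dvd.intro_left _ rfl) (by positivity)).trans hT
  constructor
  · conv_rhs => rw [← prod_fact h2.ne' hT2]
    apply Finset.prod_congr rfl
    intro l _
    show l.1 ^ ((q.2.factorization l.1 : ℤ) - (q.1.factorization l.1 : ℤ)).toNat = _
    congr 1
    rcases fact_one_zero hcop l.1 with h | h <;> omega
  · conv_rhs => rw [← prod_fact h1.ne' hT1]
    apply Finset.prod_congr rfl
    intro l _
    show l.1 ^ (-((q.2.factorization l.1 : ℤ) - (q.1.factorization l.1 : ℤ))).toNat = _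
    congr 1
    rcases fact_one_zero hcop l.1 with h | h <;> omega

lemma prime_coprime_pow {r l M : ℕ} (hr : r.Prime) (hl : l.Prime) (h : l ≠ r) :
    l.Coprime (r ^ M) := Nat.Coprime.pow_right _ ((Nat.coprime_primes hl hr).mpr h)

/-- the congruence for the exponent vector -/
lemma um_vec {T : Finset ℕ} {r M : ℕ} (hr : r.Prime) (hT : ∀ l ∈ T, l.Prime ∧ l ≠ r) {s : ℤ}
    {q : ℕ × ℕ} (h1 : 0 < q.1) (h2 : 0 < q.2) (hcop : Nat.Coprime q.1 q.2) (hTq : prs q ⊆ T)
    (hdvd : ((r ^ M : ℕ) : ℤ) ∣ (q.2 : ℤ) - s * q.1) :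
    ((um (r ^ M) (pT T) (vec T q) : (ZMod (r ^ M))ˣ) : ZMod (r ^ M)) = (s : ZMod (r ^ M)) := by
  have hqM : ∀ j, (pT T j).Coprime (r ^ M) := fun j =>
    prime_coprime_pow hr (hT j.1 j.2).1 (hT j.1 j.2).2
  obtain ⟨e1, e2⟩ := nu_vec h1 h2 hcop hTq
  have h3 := um_eq hqM (vec T q)
  have hc1 := nu_coprime hqM (-(vec T q))
  have hc2 := nu_coprime hqM (vec T q)
  have h4 := congrArg (fun w : (ZMod (r ^ M))ˣ => (w : ZMod (r ^ M))) h3
  simp only [Units.val_mul] at h4
  rw [ud_coe hc1, ud_coe hc2, e1, e2] at h4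
  have h5 : ((q.2 : ℤ) : ZMod (r ^ M)) = ((s * q.1 : ℤ) : ZMod (r ^ M)) := by
    rw [← sub_eq_zero, ← Int.cast_sub, ZMod.intCast_zmod_eq_zero_iff_dvd]
    exact hdvd
  push_cast at h5
  rw [h5] at h4
  have hu : IsUnit ((q.1 : ℕ) : ZMod (r ^ M)) := by
    rw [e2] at hc1
    exact (ZMod.isUnit_iff_coprime _ _).mpr hc1
  exact hu.mul_right_cancel h4

lemma nu_le_exp {T : Finset ℕ} (hT : ∀ l ∈ T, l.Prime) (y : {l // l ∈ T} → ℤ) (b : ℝ)
    (hy : ∀ l, |(y l : ℝ)| * Real.log l.1 ≤ b) :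
    Real.log (nu (pT T) y) ≤ T.card * b := by
  unfold nu
  push_cast
  rw [Real.log_prod (fun l _ => by
    have := (hT l.1 l.2).pos
    have h2 : (0 : ℝ) < (pT T l : ℝ) := by exact_mod_cast this
    positivity)]
  calc ∑ l : {l // l ∈ T}, Real.log ((pT T l : ℝ) ^ (y l).toNat) ≤
        ∑ _l : {l // l ∈ T}, b := by
        apply Finset.sum_le_sum
        intro l _
        rw [Real.log_pow]
        have h1 : (1 : ℝ) ≤ l.1 := by exact_mod_cast (hT l.1 l.2).one_lt.le
        have h2 : 0 ≤ Real.log (l.1 : ℝ) := Real.log_nonneg h1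
        have h3 : (((y l).toNat : ℕ) : ℝ) ≤ |(y l : ℝ)| := by
          have h4 : (((y l).toNat : ℕ) : ℤ) ≤ |y l| := by
            rcases le_total 0 (y l) with h | h
            · rw [Int.toNat_of_nonneg h]; exact le_abs_self _
            · have : (y l).toNat = 0 := by omega
              rw [this]; simp
          exact_mod_cast h4
        exact (mul_le_mul_of_nonneg_right h3 h2).trans (hy l)
    _ = _ := by
        rw [Finset.sum_const, Finset.card_univ, Fintype.card_coe, nsmul_eq_mul]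

/-- **packing**: pairs composed of few primes, of comparable heights, congruent modulo the same
high power of a prime -/
theorem packing (t : ℕ) (δ : ℝ) (hδ : 0 < δ) {T : Finset ℕ} {r M : ℕ} (hr : r.Prime)
    (hT : ∀ l ∈ T, l.Prime ∧ l ≠ r) (htT : T.card ≤ t) {H : ℝ} (hH : 0 < H)
    (hM : δ * H ≤ M * Real.log r) {s : ℤ} (Q : Finset (ℕ × ℕ))
    (hQ : ∀ q ∈ Q, 0 < q.1 ∧ q.1 < q.2 ∧ Nat.Coprime q.1 q.2 ∧ prs q ⊆ T ∧
      Real.log q.2 ≤ 2 * H ∧ ((r ^ M : ℕ) : ℤ) ∣ (q.2 : ℤ) - s * q.1) :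
    Q.card ≤ (2 * ⌈2 * ((t : ℝ) + 1) / δ⌉₊ + 1) ^ t := by
  classical
  obtain ⟨B0, hB0⟩ : ∃ B0 : ℕ, B0 = ⌈2 * ((t : ℝ) + 1) / δ⌉₊ := ⟨_, rfl⟩
  have hB0' : 2 * ((t : ℝ) + 1) / δ ≤ B0 := by rw [hB0]; exact Nat.le_ceil _
  rw [← hB0]
  have hT' : ∀ l ∈ T, l.Prime := fun l hl => (hT l hl).1
  have ht1 : (0 : ℝ) < (t : ℝ) + 1 := by positivity
  let Φ : ℕ × ℕ → {l // l ∈ T} → ℤ := fun q l =>
    ⌊(vec T q l : ℝ) * Real.log l.1 * (((t : ℝ) + 1) / (δ * H))⌋
  have hcard : (Fintype.piFinset (fun _ : {l // l ∈ T} =>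
      Finset.Icc (-(B0 : ℤ)) B0)).card ≤ (2 * B0 + 1) ^ t := by
    rw [Fintype.card_piFinset, Finset.prod_const, Finset.card_univ, Int.card_Icc,
      Fintype.card_coe]
    have : ((B0 : ℤ) + 1 - -(B0 : ℤ)).toNat = 2 * B0 + 1 := by omega
    rw [this]
    exact Nat.pow_le_pow_right (by omega) htT
  refine le_trans ?_ hcard
  apply Finset.card_le_card_of_injOn Φ
  · intro q hq
    obtain ⟨h1, h2, h3, h4, h5, h6⟩ := hQ q hq
    rw [Finset.mem_coe, Fintype.mem_piFinset]
    intro l
    have hl1 : (1 : ℝ) ≤ l.1 := by exact_mod_cast (hT' l.1 l.2).one_lt.le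
    have hll : 0 ≤ Real.log (l.1 : ℝ) := Real.log_nonneg hl1
    have hbound : |(vec T q l : ℝ)| * Real.log l.1 ≤ 2 * H := by
      have hf : ∀ m : ℕ, 0 < m → m ≤ q.2 →
          (m.factorization l.1 : ℝ) * Real.log l.1 ≤ 2 * H := by
        intro m hm hmq
        have h7 : l.1 ^ m.factorization l.1 ≤ m := Nat.ordProj_le _ hm.ne'
        have h8 : Real.log ((l.1 : ℝ) ^ m.factorization l.1) ≤ Real.log q.2 := by
          apply Real.log_le_log (by positivity)
          exact_mod_cast h7.trans hmq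
        rw [Real.log_pow] at h8
        linarith
      have ha := hf q.1 h1 h2.le
      have hb := hf q.2 (h1.trans h2) le_rfl
      unfold vec
      rcases fact_one_zero h3 l.1 with h | h
      · rw [h]
        push_cast
        rw [sub_zero, abs_of_nonneg (Nat.cast_nonneg _)]
        exact hb
      · rw [h]
        push_cast
        rw [zero_sub, abs_neg, abs_of_nonneg (Nat.cast_nonneg _)]
        exact ha
    have hval : |(vec T q l : ℝ) * Real.log l.1 * (((t : ℝ) + 1) / (δ * H))| ≤ B0 := by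
      rw [abs_mul, abs_mul, abs_of_nonneg hll,
        abs_of_nonneg (by positivity : 0 ≤ ((t : ℝ) + 1) / (δ * H))]
      calc |(vec T q l : ℝ)| * Real.log l.1 * (((t : ℝ) + 1) / (δ * H)) ≤
            (2 * H) * (((t : ℝ) + 1) / (δ * H)) :=
            mul_le_mul_of_nonneg_right hbound (by positivity)
        _ = 2 * ((t : ℝ) + 1) / δ := by field_simp
        _ ≤ B0 := hB0'
    have hval' := abs_le.mp hval
    rw [Finset.mem_Icc]
    constructor
    · rw [Int.le_floor]
      push_cast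
      exact hval'.1
    · have : ((Φ q l : ℤ) : ℝ) ≤ B0 := (Int.floor_le _).trans hval'.2
      exact_mod_cast this
  · intro q hq q' hq' hΦ
    obtain ⟨h1, h2, h3, h4, h5, h6⟩ := hQ q hq
    obtain ⟨h1', h2', h3', h4', h5', h6'⟩ := hQ q' hq'
    obtain ⟨y, hy⟩ : ∃ y, y = vec T q - vec T q' := ⟨_, rfl⟩
    have hyb : ∀ l, |(y l : ℝ)| * Real.log l.1 ≤ δ * H / ((t : ℝ) + 1) := by
      intro l
      have hl1 : (1 : ℝ) ≤ l.1 := by exact_mod_cast (hT' l.1 l.2).one_lt.le
      have hll : 0 ≤ Real.log (l.1 : ℝ) := Real.log_nonneg hl1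
      have h7 := Int.abs_sub_lt_one_of_floor_eq_floor (congrFun hΦ l)
      have h8 : (vec T q l : ℝ) * Real.log l.1 * (((t : ℝ) + 1) / (δ * H)) -
          (vec T q' l : ℝ) * Real.log l.1 * (((t : ℝ) + 1) / (δ * H)) =
          (y l : ℝ) * Real.log l.1 * (((t : ℝ) + 1) / (δ * H)) := by
        rw [hy]
        simp only [Pi.sub_apply]
        push_cast
        ring
      rw [h8, abs_mul, abs_mul, abs_of_nonneg hll,
        abs_of_nonneg (by positivity : 0 ≤ ((t : ℝ) + 1) / (δ * H))] at h7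
      rw [le_div_iff₀ ht1]
      rw [← mul_div_assoc, div_lt_one (by positivity)] at h7
      exact h7.le
    have hnegy : ∀ l, |((-y) l : ℝ)| * Real.log l.1 ≤ δ * H / ((t : ℝ) + 1) := by
      intro l
      simp only [Pi.neg_apply, Int.cast_neg, abs_neg]
      exact hyb l
    have hy0 : y = 0 := by
      by_contra hne
      have hqM : ∀ j, (pT T j).Coprime (r ^ M) := fun j =>
        prime_coprime_pow hr (hT j.1 j.2).1 (hT j.1 j.2).2
      have h7 : um (r ^ M) (pT T) y = 1 := by
        have e1 : vec T q = y + vec T q' := by rw [hy]; abel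
        have h8 : um (r ^ M) (pT T) (vec T q) = um (r ^ M) (pT T) y *
            um (r ^ M) (pT T) (vec T q') := by rw [e1, um_add]
        have h9 : um (r ^ M) (pT T) (vec T q) = um (r ^ M) (pT T) (vec T q') := by
          rw [← Units.val_inj, um_vec hr hT h1 (h1.trans h2) h3 h4 h6,
            um_vec hr hT h1' (h1'.trans h2') h3' h4' h6']
        rw [h9] at h8
        exact (mul_eq_right.mp h8.symm)
      have h8 := um_eq hqM y
      rw [h7, one_mul] at h8
      have h9 : ((ud (r ^ M) (nu (pT T) (-y)) : (ZMod (r ^ M))ˣ) : ZMod (r ^ M)) =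
          ((ud (r ^ M) (nu (pT T) y) : (ZMod (r ^ M))ˣ) : ZMod (r ^ M)) := by rw [h8]
      rw [ud_coe (nu_coprime hqM _), ud_coe (nu_coprime hqM _)] at h9
      have h10 : ((r ^ M : ℕ) : ℤ) ∣ (nu (pT T) y : ℤ) - (nu (pT T) (-y) : ℤ) := by
        rw [← ZMod.intCast_zmod_eq_zero_iff_dvd]
        push_cast
        rw [h9, sub_self]
      have h11 : (nu (pT T) y : ℤ) - (nu (pT T) (-y) : ℤ) ≠ 0 := by
        intro h
        apply hne
        apply eq_zero_of_nu hT'
        omega
      have h12 := Int.le_of_dvd (abs_pos.mpr h11) ((dvd_abs _ _).mpr h10)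
      have hpos : ∀ z : {l // l ∈ T} → ℤ, 1 ≤ nu (pT T) z :=
        nu_pos (fun j => (hT' j.1 j.2).one_lt.le)
      have h13 : r ^ M ≤ max (nu (pT T) y) (nu (pT T) (-y)) := by
        have e1 := hpos y
        have e2 := hpos (-y)
        have : |(nu (pT T) y : ℤ) - (nu (pT T) (-y) : ℤ)| ≤
            ((max (nu (pT T) y) (nu (pT T) (-y)) : ℕ) : ℤ) := by
          rw [abs_le]
          push_cast
          constructor
          · have := le_max_right (nu (pT T) y : ℤ) (nu (pT T) (-y) : ℤ)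
            linarith [(by exact_mod_cast e1 : (1 : ℤ) ≤ nu (pT T) y)]
          · have := le_max_left (nu (pT T) y : ℤ) (nu (pT T) (-y) : ℤ)
            linarith [(by exact_mod_cast e2 : (1 : ℤ) ≤ nu (pT T) (-y))]
        exact_mod_cast h12.trans this
      have hr1 : (1 : ℝ) < r := by exact_mod_cast hr.one_lt
      have h14 : (M : ℝ) * Real.log r ≤ T.card * (δ * H / ((t : ℝ) + 1)) := by
        rcases le_total (nu (pT T) y) (nu (pT T) (-y)) with h | h
        · rw [max_eq_right h] at h13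
          have h15 := nu_le_exp hT' (-y) _ hnegy
          refine le_trans ?_ h15
          rw [← Real.log_pow]
          apply Real.log_le_log (by positivity)
          exact_mod_cast h13
        · rw [max_eq_left h] at h13
          have h15 := nu_le_exp hT' y _ hyb
          refine le_trans ?_ h15
          rw [← Real.log_pow]
          apply Real.log_le_log (by positivity)
          exact_mod_cast h13
      have h16 : (T.card : ℝ) * (δ * H / ((t : ℝ) + 1)) < δ * H := by
        have h17 : (T.card : ℝ) ≤ t := by exact_mod_cast htT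
        rw [← mul_div_assoc, div_lt_iff₀ ht1]
        have h18 : 0 < δ * H := by positivity
        nlinarith
      linarith
    have hvec : vec T q = vec T q' := by
      rw [hy] at hy0
      exact sub_eq_zero.mp hy0
    obtain ⟨e1, e2⟩ := nu_vec h1 (h1.trans h2) h3 h4
    obtain ⟨e1', e2'⟩ := nu_vec h1' (h1'.trans h2') h3' h4'
    rw [hvec] at e1 e2
    exact Prod.ext (e2.symm.trans e2') (e1.symm.trans e1')

end Pool.Agent.Y913.Sm
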