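import Pool.Agent.Y913.Bk.Obstruct

/-!
Simultaneous `p`-adic relations, I: the zero estimate for the points `(f(s), u(s))` of a product of
additive groups with the multiplicative group.
-/

set_option autoImplicit false

namespace Pool.Agent.Y913.Sm

open Finset MvPolynomial Pool.Agent.H364R2 Pool.Agent.H301R2.ZG Pool.Agent.Y913.Bk

/-- polynomials times a decaying exponential -/
lemma tendsto_eval_mul_pow (q : Polynomial ℂ) (r : ℝ) (h0 : 0 ≤ r) (h1 : r < 1) :
    Filter.Tendsto (fun n : ℕ => Polynomial.eval (n : ℂ) q * (r : ℂ) ^ n) Filter.atTop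
      (nhds 0) := by
  have h2 : ∀ n : ℕ, Polynomial.eval (n : ℂ) q * (r : ℂ) ^ n =
      ∑ i ∈ Finset.range (q.natDegree + 1), q.coeff i * ((n : ℂ) ^ i * (r : ℂ) ^ n) := by
    intro n
    rw [Polynomial.eval_eq_sum_range, Finset.sum_mul]
    apply Finset.sum_congr rfl
    intro i _
    ring
  simp_rw [h2]
  have h3 : Filter.Tendsto (fun n : ℕ => ∑ i ∈ Finset.range (q.natDegree + 1),
      q.coeff i * ((n : ℂ) ^ i * (r : ℂ) ^ n)) Filter.atTop
      (nhds (∑ _i ∈ Finset.range (q.natDegree + 1), (0 : ℂ))) := by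
    apply tendsto_finsetSum
    intro i _
    have h4 : Filter.Tendsto (fun n : ℕ => ((n : ℝ) ^ i * r ^ n)) Filter.atTop (nhds 0) :=
      tendsto_pow_const_mul_const_pow_of_lt_one i h0 h1
    have h5 : Filter.Tendsto (fun n : ℕ => (((n : ℝ) ^ i * r ^ n : ℝ) : ℂ)) Filter.atTop
        (nhds ((0 : ℝ) : ℂ)) := (Complex.continuous_ofReal.tendsto 0).comp h4
    have h6 := h5.const_mul (q.coeff i)
    rw [Complex.ofReal_zero, mul_zero] at h6
    refine h6.congr ?_
    intro n
    push_cast
    ring
  simpa using h3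

lemma eq_zero_of_tendsto (q : Polynomial ℂ)
    (h : Filter.Tendsto (fun n : ℕ => Polynomial.eval (n : ℂ) q) Filter.atTop (nhds 0)) :
    q = 0 := by
  by_contra hq
  by_cases hd : 0 < q.degree
  · have h1 : Filter.Tendsto (fun n : ℕ => ‖((n : ℂ))‖) Filter.atTop Filter.atTop := by
      have : (fun n : ℕ => ‖((n : ℂ))‖) = fun n : ℕ => (n : ℝ) := by
        funext n
        simp
      rw [this]
      exact tendsto_natCast_atTop_atTop
    have h2 := q.tendsto_norm_atTop hd h1
    have h3 := h.norm
    rw [norm_zero] at h3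
    exact not_tendsto_nhds_of_tendsto_atTop h2 _ h3
  · have h1 : q = Polynomial.C (q.coeff 0) := Polynomial.eq_C_of_degree_le_zero (not_lt.mp hd)
    rw [h1] at h
    simp only [Polynomial.eval_C] at h
    have h2 := tendsto_nhds_unique h tendsto_const_nhds
    apply hq
    rw [h1, ← h2, Polynomial.C_0]

/-- **exponential polynomials** -/
theorem expoly (h : Polynomial (Polynomial ℂ)) (α : ℝ) (hα : 1 < α)
    (hz : ∀ n : ℕ, Polynomial.eval ((α : ℂ) ^ n)
      (h.map (Polynomial.evalRingHom (n : ℂ))) = 0) : h = 0 := by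
  by_contra hne
  obtain ⟨d, hd⟩ : ∃ d, d = h.natDegree := ⟨_, rfl⟩
  have hlead : h.coeff d ≠ 0 := by
    rw [hd]
    exact Polynomial.leadingCoeff_ne_zero.mpr hne
  apply hlead
  apply eq_zero_of_tendsto
  have hα0 : (α : ℂ) ≠ 0 := by exact_mod_cast (by linarith : α ≠ 0)
  have h1 : ∀ n : ℕ, Polynomial.eval (n : ℂ) (h.coeff d) =
      - ∑ μ ∈ Finset.range d, Polynomial.eval (n : ℂ) (h.coeff μ) *
        (((α ^ (d - μ))⁻¹ : ℝ) : ℂ) ^ n := by
    intro n
    have h2 := hz n
    rw [Polynomial.eval_eq_sum_range' (n := d + 1) (by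
      refine lt_of_le_of_lt Polynomial.natDegree_map_le ?_
      omega), Finset.sum_range_succ] at h2
    simp only [Polynomial.coeff_map, Polynomial.coe_evalRingHom] at h2
    have h3 : (((α : ℂ) ^ n) ^ d) ≠ 0 := pow_ne_zero _ (pow_ne_zero _ hα0)
    have h4 : Polynomial.eval (n : ℂ) (h.coeff d) * ((α : ℂ) ^ n) ^ d =
        - ∑ μ ∈ Finset.range d, Polynomial.eval (n : ℂ) (h.coeff μ) * ((α : ℂ) ^ n) ^ μ := by
      linear_combination h2
    have h5 : Polynomial.eval (n : ℂ) (h.coeff d) =
        (Polynomial.eval (n : ℂ) (h.coeff d) * ((α : ℂ) ^ n) ^ d) / ((α : ℂ) ^ n) ^ d := by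
      field_simp
    rw [h5, h4, neg_div, Finset.sum_div]
    congr 1
    apply Finset.sum_congr rfl
    intro μ hμ
    have hμd : μ < d := Finset.mem_range.mp hμ
    rw [mul_div_assoc]
    congr 1
    have e1 : ((α : ℂ) ^ n) ^ d = ((α : ℂ) ^ n) ^ μ * ((α : ℂ) ^ n) ^ (d - μ) := by
      rw [← pow_add]
      congr 1
      omega
    rw [e1]
    push_cast
    have h6 : ((α : ℂ) ^ n) ^ μ ≠ 0 := pow_ne_zero _ (pow_ne_zero _ hα0)
    rw [div_mul_eq_div_div, div_self h6, one_div, inv_pow, ← pow_mul, ← pow_mul, mul_comm n]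
  have h2 : Filter.Tendsto (fun n : ℕ => - ∑ μ ∈ Finset.range d,
      Polynomial.eval (n : ℂ) (h.coeff μ) * (((α ^ (d - μ))⁻¹ : ℝ) : ℂ) ^ n) Filter.atTop
      (nhds (- ∑ _μ ∈ Finset.range d, (0 : ℂ))) := by
    apply Filter.Tendsto.neg
    apply tendsto_finsetSum
    intro μ hμ
    have hμd : μ < d := Finset.mem_range.mp hμ
    apply tendsto_eval_mul_pow
    · positivity
    · apply inv_lt_one_of_one_lt₀
      exact one_lt_pow₀ hα (by omega)
  simp only [Finset.sum_const_zero, neg_zero] at h2
  refine h2.congr ?_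
  intro n
  exact (h1 n).symm

variable {σ ι : Type} [Fintype σ] [Fintype ι]

/-- the points -/
noncomputable def zs (f : (σ → ℤ) →+ (ι → ℤ)) (u : (σ → ℤ) → ℝ) (s : σ → ℤ) : Option ι → ℂ :=
  fun j => j.elim ((u s : ℝ) : ℂ) (fun i => (f s i : ℂ))

omit [Fintype σ] [Fintype ι] in
lemma zs_none (f : (σ → ℤ) →+ (ι → ℤ)) (u : (σ → ℤ) → ℝ) (s : σ → ℤ) :
    zs f u s none = ((u s : ℝ) : ℂ) := rfl

omit [Fintype σ] [Fintype ι] in
lemma zs_some (f : (σ → ℤ) →+ (ι → ℤ)) (u : (σ → ℤ) → ℝ) (s : σ → ℤ) (i : ι) :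
    zs f u s (some i) = (f s i : ℂ) := rfl

variable (f : (σ → ℤ) →+ (ι → ℤ)) {u : (σ → ℤ) → ℝ} (hu0 : ∀ s, 0 < u s)
  (hua : ∀ s t, u (s + t) = u s * u t)

omit [Fintype σ] in
include hu0 hua in
lemma u_zero : u 0 = 1 := by
  have h1 := hua 0 0
  rw [add_zero] at h1
  have h2 := hu0 0
  have h3 : u 0 * (u 0 - 1) = 0 := by linear_combination -h1
  rcases mul_eq_zero.mp h3 with h | h
  · linarith
  · linarith

omit [Fintype σ] in
include hu0 hua in
lemma u_neg (s : σ → ℤ) : u (-s) = (u s)⁻¹ := by
  have h1 := hua s (-s)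
  rw [add_neg_cancel, u_zero hu0 hua] at h1
  exact eq_inv_of_mul_eq_one_right h1.symm

omit [Fintype σ] [Fintype ι] in
include hua in
lemma gmul_zs (s t : σ → ℤ) : gmul ad (zs f u s) (zs f u t) = zs f u (s + t) := by
  funext j
  rcases j with _ | i
  · simp only [gmul, ad, Option.isSome_none, Bool.false_eq_true, if_false, zs_none]
    rw [hua]
    push_cast
    rfl
  · simp only [gmul, ad, Option.isSome_some, if_true, zs_some]
    rw [map_add]
    push_cast [Pi.add_apply]
    rfl

omit [Fintype σ] [Fintype ι] in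
include hu0 hua in
lemma zs_zero : zs f u 0 = gone ad := by
  funext j
  rcases j with _ | i
  · simp [zs_none, gone, ad, u_zero hu0 hua]
  · simp [zs_some, gone, ad]

omit [Fintype σ] [Fintype ι] in
include hu0 in
lemma isG_zs (s : σ → ℤ) : IsG ad (zs f u s) := by
  intro j hj
  rcases j with _ | i
  · rw [zs_none]
    exact_mod_cast (hu0 s).ne'
  · simp [ad] at hj

omit [Fintype σ] [Fintype ι] in
include hu0 hua in
lemma ginv_zs (s : σ → ℤ) : ginv ad (zs f u s) = zs f u (-s) := by
  funext j
  rcases j with _ | i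
  · simp only [ginv, ad, Option.isSome_none, Bool.false_eq_true, if_false, zs_none]
    rw [u_neg hu0 hua]
    push_cast
    rfl
  · simp only [ginv, ad, Option.isSome_some, if_true, zs_some]
    rw [map_neg]
    push_cast [Pi.neg_apply]
    rfl

omit [Fintype σ] [Fintype ι] in
include hu0 hua in
lemma prodG_zs (ss : List (σ → ℤ)) :
    prodG ad (ss.map (zs f u)) = zs f u ss.sum := by
  induction ss with
  | nil => simp [prodG, zs_zero f hu0 hua]
  | cons s ss ih =>
    unfold prodG at ih ⊢
    rw [List.map_cons, List.foldr_cons, ih, gmul_zs f hua, List.sum_cons]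

/-- stabiliser of an ideal among the points -/
noncomputable def Kz (P : Ideal (MvPolynomial (Option ι) ℂ)) : AddSubgroup (σ → ℤ) where
  carrier := {s | trI ad (zs f u s) P = P}
  zero_mem' := by
    show trI ad (zs f u 0) P = P
    rw [zs_zero f hu0 hua, trI_gone]
  add_mem' := by
    intro s t hs ht
    show trI ad (zs f u (s + t)) P = P
    rw [← gmul_zs f hua, ← trI_trI, ht, hs]
  neg_mem' := by
    intro s hs
    show trI ad (zs f u (-s)) P = P
    have hs' : trI ad (zs f u s) P = P := hs
    conv_lhs => rw [← hs']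
    rw [trI_trI, gmul_zs f hua, neg_add_cancel, zs_zero f hu0 hua, trI_gone]

omit [Fintype σ] [Fintype ι] in
lemma mem_Kz {P : Ideal (MvPolynomial (Option ι) ℂ)} {s : σ → ℤ} :
    s ∈ Kz f hu0 hua P ↔ trI ad (zs f u s) P = P := Iff.rfl

omit [Fintype σ] [Fintype ι] in
include hu0 hua in
lemma zs_mem_ZP {P : Ideal (MvPolynomial (Option ι) ℂ)} (hone : gone ad ∈ ZP ad P)
    {s : σ → ℤ} (hs : s ∈ Kz f hu0 hua P) : zs f u s ∈ ZP ad P := by
  have h1 : zs f u s ∈ ZP ad (trI ad (zs f u s) P) := by
    rw [mem_ZP_trI ad (isG_zs f hu0 s) (isG_zs f hu0 s), gmul_ginv ad (isG_zs f hu0 s)]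
    exact hone
  rwa [(mem_Kz f hu0 hua).mp hs] at h1

omit [Fintype σ] in
/-- independent coordinates -/
theorem indep_of_stab [DecidableEq ι] {P : Ideal (MvPolynomial (Option ι) ℂ)}
    (hone : gone ad ∈ ZP ad P) (hu1 : ∀ s, u s = 1 → s = 0)
    (hK : Kz f hu0 hua P ≠ ⊥) :
    ∃ I : Finset ι, I.card = Module.finrank ℚ (Submodule.span ℚ
        (qc '' ((Kz f hu0 hua P).map f : Set (ι → ℤ)))) ∧
      Indep P ((insert none (I.image some) : Finset (Option ι)) : Set (Option ι)) := by
  classical
  obtain ⟨K, hKdef⟩ : ∃ K, K = Kz f hu0 hua P := ⟨_, rfl⟩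
  rw [← hKdef] at hK ⊢
  obtain ⟨V, hV⟩ : ∃ V, V = Submodule.span ℚ (qc '' ((K.map f : AddSubgroup (ι → ℤ)) :
    Set (ι → ℤ))) := ⟨_, rfl⟩
  rw [← hV]
  obtain ⟨I, hI, hIV⟩ := exists_coords V
  refine ⟨I, hI, ?_⟩
  -- a stabilising point with large multiplicative coordinate
  obtain ⟨t, htK, htu⟩ : ∃ t ∈ K, 1 < u t := by
    obtain ⟨t, htK, ht0⟩ : ∃ t, t ∈ K ∧ t ≠ 0 := by
      obtain ⟨t, ht⟩ := AddSubgroup.ne_bot_iff_exists_ne_zero.mp hK
      exact ⟨t.1, t.2, fun h => ht (Subtype.ext h)⟩
    rcases lt_trichotomy (u t) 1 with h | h | h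
    · refine ⟨-t, K.neg_mem htK, ?_⟩
      rw [u_neg hu0 hua]
      exact (one_lt_inv₀ (hu0 t)).mpr h
    · exact absurd (hu1 t h) ht0
    · exact ⟨t, htK, h⟩
  -- the restriction to the coordinates in `I`
  let R : V →ₗ[ℚ] ({i // i ∈ I} → ℚ) :=
    (LinearMap.funLeft ℚ ℚ (fun i : {i // i ∈ I} => i.1)).comp V.subtype
  have hRinj : Function.Injective R := by
    rw [← LinearMap.ker_eq_bot, LinearMap.ker_eq_bot']
    intro v hv
    apply Subtype.ext
    apply hIV _ v.2
    intro j hj
    exact congrFun hv ⟨j, hj⟩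
  have hRsurj : Function.Surjective R := by
    rw [← LinearMap.injective_iff_surjective_of_finrank_eq_finrank]
    · exact hRinj
    · rw [Module.finrank_fintype_fun_eq_card, Fintype.card_coe, hI]
  choose v hv using fun i : {i // i ∈ I} => hRsurj (Pi.single i 1)
  obtain ⟨N, hN, hw⟩ := exists_mul_mem_fin (K.map f) (fun i => (v i : ι → ℚ))
    (fun i => by rw [← hV]; exact (v i).2)
  choose w hwK hwv using hw
  have hw' : ∀ i, ∃ s ∈ K, f s = w i := fun i => by
    obtain ⟨s, hs, h⟩ := (AddSubgroup.mem_map).mp (hwK i)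
    exact ⟨s, hs, h⟩
  choose s hsK hsw using hw'
  have hwu : ∀ i j : {i // i ∈ I}, w i j.1 = if i = j then (N : ℤ) else 0 := by
    intro i j
    have h1 : qc (w i) j.1 = ((N : ℚ) • (v i : ι → ℚ)) j.1 := by rw [hwv i]
    have h2 : (v i : ι → ℚ) j.1 = (Pi.single i 1 : {i // i ∈ I} → ℚ) j := by
      rw [← hv i]
      rfl
    rw [Pi.smul_apply, h2, Pi.single_apply, smul_eq_mul] at h1
    have h3 : ((w i j.1 : ℤ) : ℚ) = ((if i = j then (N : ℤ) else 0 : ℤ) : ℚ) := by
      show qc (w i) j.1 = _
      rw [h1]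
      by_cases hij : i = j
      · subst hij; simp
      · have hji : ¬ j = i := fun h => hij h.symm
        simp [hij, hji]
    exact_mod_cast h3
  intro g hg hgP
  -- all multiplicative coordinates are allowed
  have hfib : ∀ s ∈ K, ∀ z : ℂ,
      eval (fun j : Option ι => j.elim z (fun i => (f s i : ℂ))) g = 0 := by
    intro s hs z
    let h : Polynomial (Polynomial ℂ) := aeval (fun j : Option ι => j.elim
      (Polynomial.C (Polynomial.C ((u s : ℝ) : ℂ)) * Polynomial.X)
      (fun i => Polynomial.C (Polynomial.C (f s i : ℂ) +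
        Polynomial.C (f t i : ℂ) * Polynomial.X))) g
    have hev : ∀ a b : ℂ, Polynomial.eval b (h.map (Polynomial.evalRingHom a)) =
        eval (fun j : Option ι => j.elim (((u s : ℝ) : ℂ) * b)
          (fun i => (f s i : ℂ) + (f t i : ℂ) * a)) g := by
      intro a b
      have e0 : Polynomial.eval b (h.map (Polynomial.evalRingHom a)) =
          ((Polynomial.evalRingHom b).comp (Polynomial.mapRingHom (Polynomial.evalRingHom a))) h :=
        rfl
      rw [e0]
      simp only [h]
      rw [aeval_def, eval₂_comp_left]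
      have e1 : (fun j : Option ι => (((Polynomial.evalRingHom b).comp
          (Polynomial.mapRingHom (Polynomial.evalRingHom a)))) (j.elim
          (Polynomial.C (Polynomial.C ((u s : ℝ) : ℂ)) * Polynomial.X)
          (fun i => Polynomial.C (Polynomial.C (f s i : ℂ) +
            Polynomial.C (f t i : ℂ) * Polynomial.X)))) =
          (fun j : Option ι => j.elim (((u s : ℝ) : ℂ) * b)
            (fun i => (f s i : ℂ) + (f t i : ℂ) * a)) := by
        funext j
        rcases j with _ | i
        · simp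
        · simp
      have e2 : ((Polynomial.evalRingHom b).comp
          (Polynomial.mapRingHom (Polynomial.evalRingHom a))).comp
          (algebraMap ℂ (Polynomial (Polynomial ℂ))) = RingHom.id ℂ := by
        ext c
        rw [RingHom.comp_apply, IsScalarTower.algebraMap_apply ℂ (Polynomial ℂ)
          (Polynomial (Polynomial ℂ))]
        simp
      rw [e2]
      unfold MvPolynomial.eval
      rw [← e1]
      rfl
    have hh0 : h = 0 := by
      apply expoly h (u t) htu
      intro n
      rw [hev]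
      have hsn : s + n • t ∈ K := K.add_mem hs (K.nsmul_mem htK n)
      have hun : u (s + n • t) = u s * (u t) ^ n := by
        rw [hua]
        congr 1
        induction n with
        | zero => simp [u_zero hu0 hua]
        | succ n ih =>
          have ih' := ih (K.add_mem hs (K.nsmul_mem htK n))
          rw [succ_nsmul, hua, ih', pow_succ]
      have h3 := (zs_mem_ZP f hu0 hua hone (s := s + n • t) (by rw [← hKdef]; exact hsn)).2 g hgP
      rw [← h3]
      congr 2
      funext j
      rcases j with _ | i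
      · rw [zs_none, hun]
        push_cast
        rfl
      · rw [zs_some]
        simp only [Option.elim_some]
        rw [map_add, map_nsmul, Pi.add_apply, Pi.smul_apply]
        simp only [nsmul_eq_mul]
        push_cast
        ring
    have h4 := hev 0 (z / ((u s : ℝ) : ℂ))
    rw [hh0, Polynomial.map_zero, Polynomial.eval_zero] at h4
    have hus : ((u s : ℝ) : ℂ) ≠ 0 := by exact_mod_cast (hu0 s).ne'
    rw [h4]
    congr 2
    funext j
    rcases j with _ | i
    · simp only [Option.elim_none]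
      field_simp
    · simp
  apply MvPolynomial.funext_set (fun j : Option ι => j.elim Set.univ (fun i =>
    if i ∈ I then {z : ℂ | ∃ k : ℤ, z = (N : ℂ) * k} else Set.univ))
  · intro j
    rcases j with _ | i
    · exact Set.infinite_univ
    · simp only [Option.elim_some]
      split_ifs
      · apply Set.infinite_of_injective_forall_mem (f := fun k : ℤ => (N : ℂ) * (k : ℂ))
        · intro k k' h
          have hN' : (N : ℂ) ≠ 0 := by exact_mod_cast hN.ne'
          have := mul_left_cancel₀ hN' h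
          exact_mod_cast this
        · intro k
          exact ⟨k, rfl⟩
      · exact Set.infinite_univ
  · intro z hz
    rw [map_zero]
    have h1 : ∀ i : {i // i ∈ I}, ∃ k : ℤ, z (some i.1) = (N : ℂ) * k := by
      intro i
      have h2 := hz (some i.1) (Set.mem_univ _)
      simp only [Option.elim_some] at h2
      rw [if_pos i.2] at h2
      exact h2
    choose k hk using h1
    have hs : (∑ i, k i • s i) ∈ K :=
      AddSubgroup.sum_mem _ (fun i _ => AddSubgroup.zsmul_mem _ (hsK i) _)
    have h3 := hfib _ hs (z none)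
    rw [← h3]
    apply eval_eq_of_supported hg
    intro j hj
    rw [Finset.mem_coe, Finset.mem_insert, Finset.mem_image] at hj
    rcases hj with rfl | ⟨i, hi, rfl⟩
    · rfl
    · simp only [Option.elim_some]
      rw [hk ⟨i, hi⟩, map_sum, Finset.sum_apply]
      have h6 : ∀ i' : {i // i ∈ I}, f (k i' • s i') i =
          if i' = ⟨i, hi⟩ then (N : ℤ) * k ⟨i, hi⟩ else 0 := by
        intro i'
        rw [map_zsmul, Pi.smul_apply, hsw, smul_eq_mul]
        have := hwu i' ⟨i, hi⟩
        simp only at this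
        rw [this]
        split_ifs with h7
        · rw [h7]; ring
        · ring
      rw [Finset.sum_congr rfl (fun i' _ => h6 i')]
      simp

omit [Fintype σ] in
/-- **the zero estimate** -/
theorem zero_gen [DecidableEq σ] [DecidableEq ι] {L0 L : ℕ} (hL0 : 1 ≤ L0) (hL : 1 ≤ L)
    (G : ((ι → Fin L0) × Fin L) → ℤ) (hG : G ≠ 0) (f : (σ → ℤ) →+ (ι → ℤ))
    {u : (σ → ℤ) → ℝ} (hu0 : ∀ s, 0 < u s) (hua : ∀ s t, u (s + t) = u s * u t)
    (hu1 : ∀ s, u s = 1 → s = 0) (B : Finset (σ → ℤ))
    (hvan : ∀ ss : List (σ → ℤ), ss.length ≤ Fintype.card ι + 1 → (∀ s ∈ ss, s ∈ B) →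
      ∑ i, (G i : ℝ) * ((∏ k, ((f ss.sum k : ℤ) : ℝ) ^ (i.1 k : ℕ)) *
        (u ss.sum) ^ (i.2 : ℕ)) = 0) :
    B.card ≤ 2 ^ ((Fintype.card ι + 2) * (Fintype.card ι + 1)) * (L * L0 ^ Fintype.card ι) ∨
    ∃ K : AddSubgroup (σ → ℤ), Module.finrank ℚ (Submodule.span ℚ
        (qc '' ((K.map f : AddSubgroup (ι → ℤ)) : Set (ι → ℤ)))) < Fintype.card ι ∧
      ∀ Δ ⊆ B, (∀ g ∈ Δ, ∀ g' ∈ Δ, g - g' ∈ K → g = g') →
        Δ.card ≤ 2 ^ ((Fintype.card ι + 2) * (Fintype.card ι + 1)) *
          L0 ^ (Fintype.card ι - Module.finrank ℚ (Submodule.span ℚ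
        (qc '' ((K.map f : AddSubgroup (ι → ℤ)) : Set (ι → ℤ))))) := by
  classical
  obtain ⟨P, hP, hPbot, hone, hstab, hhom, hbound⟩ :=
    zero_estimate_grp (ad (τ := ι)) (l := 0) (fun k => k.elim0) (B.image (zs f u)) 0 (polyF G)
      (fun j : Option ι => j.elim L (fun _ => L0))
      (by
        intro j
        rcases j with _ | k
        · exact hL
        · exact hL0)
      (by
        intro g hg
        obtain ⟨s, _, rfl⟩ := Finset.mem_image.mp hg
        exact isG_zs f hu0 s)
      (polyF_ne_zero hG) (polyF_mem_box G) (by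
        intro ks gs hks hgs hmem
        have h0 : ks = [] := by
          cases ks with
          | nil => rfl
          | cons k _ => exact k.elim0
        subst h0
        simp only [derIter]
        obtain ⟨ss, hss, hssB⟩ := exists_list_lift (zs f u) B gs hmem
        rw [← hss, prodG_zs f hu0 hua, eval_polyF]
        have hlen : ss.length ≤ Fintype.card ι + 1 := by
          rw [← hss, List.length_map, Fintype.card_option] at hgs
          exact hgs
        have h1 := hvan ss hlen hssB
        have h3 := congrArg (fun r : ℝ => (r : ℂ)) h1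
        push_cast at h3
        rw [← h3]
        apply Finset.sum_congr rfl
        intro i _
        congr 2)
  have hclass : ∀ E : Finset (Option ι), Indep P (E : Set (Option ι)) →
      ∀ Δ ⊆ B, (∀ g ∈ Δ, ∀ g' ∈ Δ, g - g' ∈ Kz f hu0 hua P → g = g') →
      Δ.card ≤ 2 ^ ((Fintype.card ι + 2) * (Fintype.card ι + 1)) *
        ∏ j ∈ Finset.univ \ E, (j.elim L (fun _ => L0) : ℕ) := by
    intro E hE Δ hΔ hdist
    have hsub : ∀ s s' : σ → ℤ, trI ad (zs f u s) P = trI ad (zs f u s') P →
        s - s' ∈ Kz f hu0 hua P := by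
      intro s s' h
      show trI ad (zs f u (s - s')) P = P
      have e1 : s - s' = -s' + s := by abel
      rw [e1, ← gmul_zs f hua, ← trI_trI, h, trI_trI, gmul_zs f hua, neg_add_cancel,
        zs_zero f hu0 hua, trI_gone]
    have hinj1 : Set.InjOn (zs f u) (Δ : Set (σ → ℤ)) := by
      intro s hs s' hs' h
      exact hdist s hs s' hs' (hsub s s' (by rw [h]))
    have h1 := hbound E hE (Δ.image (zs f u)) (Finset.image_subset_image hΔ) (by
      intro g hg g' hg' h
      obtain ⟨s, hs, rfl⟩ := Finset.mem_image.mp hg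
      obtain ⟨s', hs', rfl⟩ := Finset.mem_image.mp hg'
      rw [hdist s hs s' hs' (hsub s s' h)]) 0 (fun k => k.elim0) (fun k => k.elim0) (by
      intro c _
      funext k
      exact k.elim0)
    rw [Finset.card_image_of_injOn hinj1, pow_zero, mul_one, Fintype.card_option] at h1
    exact h1
  by_cases hK : Kz f hu0 hua P = ⊥
  · left
    have h1 := hclass ∅ (by
      intro g hg hgP
      rw [Finset.coe_empty, supported_empty, Algebra.mem_bot] at hg
      obtain ⟨c, rfl⟩ := hg
      have h2 := hone.2 _ hgP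
      rw [algebraMap_eq, eval_C] at h2
      rw [h2, algebraMap_eq, C_0]) B (Finset.Subset.refl _) (by
      intro g _ g' _ h
      rw [hK, AddSubgroup.mem_bot] at h
      exact sub_eq_zero.mp h)
    rw [Finset.sdiff_empty, Fintype.prod_option, Option.elim_none] at h1
    simpa using h1
  · right
    obtain ⟨I, hI, hIind⟩ := indep_of_stab f hu0 hua hone hu1 hK
    refine ⟨Kz f hu0 hua P, ?_, ?_⟩
    · rw [← hI]
      by_contra hcon
      have h1 : I = Finset.univ := by
        apply Finset.eq_univ_of_card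
        have := Finset.card_le_univ I
        omega
      apply hPbot
      rw [eq_bot_iff]
      intro g hg
      rw [Ideal.mem_bot]
      apply hIind g _ hg
      have h2 : ((insert none (I.image some) : Finset (Option ι)) : Set (Option ι)) =
          Set.univ := by
        rw [h1]
        ext j
        rcases j with _ | i
        · simp
        · simp
      rw [h2, supported_univ]
      exact Algebra.mem_top
    · intro Δ hΔ hdist
      have h1 := hclass _ hIind Δ hΔ hdist
      have h2 : ∏ j ∈ Finset.univ \ (insert none (I.image some) : Finset (Option ι)),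
          (j.elim L (fun _ => L0) : ℕ) = L0 ^ (Fintype.card ι - I.card) := by
        have e1 : Finset.univ \ (insert none (I.image some) : Finset (Option ι)) =
            (Finset.univ \ I).image some := by
          ext j
          rcases j with _ | k
          · simp
          · simp
        rw [e1, Finset.prod_image (fun a _ a' _ h => Option.some_injective _ h)]
        simp only [Option.elim_some]
        rw [Finset.prod_const, Finset.card_sdiff_of_subset (Finset.subset_univ I),
          Finset.card_univ]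
      rw [h2, hI] at h1
      exact h1

end Pool.Agent.Y913.Sm
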